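import Pool.Agent.Lib.MP_77749b_gt.Subdiv

namespace Pool.Agent.Lib.MP_77749b_gt

open Set Finsupp Metric

universe u

lemma map_at {k : ℕ} (j : Fin (k + 2)) (s : Dl (k + 1)) (x : Fin (k + 1)) :
    stdSimplex.map j.succAbove s (j.succAbove x) = s x := by
  rw [stdSimplex.map_coe, FunOnFinite.linearMap_apply_apply, Finset.sum_eq_single x]
  · intro b hb hx
    exact absurd (Fin.succAbove_right_injective (Finset.mem_filter.1 hb).2) hx
  · simp

lemma map_self {k : ℕ} (j : Fin (k + 2)) (s : Dl (k + 1)) :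
    stdSimplex.map j.succAbove s j = 0 := by
  rw [stdSimplex.map_coe, FunOnFinite.linearMap_apply_apply]
  refine Finset.sum_eq_zero fun b hb => absurd (Finset.mem_filter.1 hb).2 (Fin.succAbove_ne j b)

/-- The parametrisation of a simplex as a cone over its zeroth face. -/
noncomputable def qq (k : ℕ) : C(unitInterval × Dl (k + 1), Dl (k + 2)) where
  toFun a := ⟨Fin.cons (a.1 : ℝ) fun i => (1 - a.1) * a.2 i, by
    refine ⟨fun i => ?_, ?_⟩
    · refine Fin.cases a.1.2.1 (fun j => ?_) i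
      exact mul_nonneg (sub_nonneg.2 a.1.2.2) (stdSimplex.zero_le _ _)
    · rw [Fin.sum_univ_succ]
      simp [← Finset.mul_sum]⟩
  continuous_toFun := by
    refine Continuous.subtype_mk (continuous_pi fun i => ?_) _
    refine Fin.cases ?_ (fun j => ?_) i
    · exact continuous_subtype_val.comp continuous_fst
    · exact (continuous_const.sub (continuous_subtype_val.comp continuous_fst)).mul
        ((continuous_apply j).comp (continuous_subtype_val.comp continuous_snd))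

lemma qq_zero {k : ℕ} (a) : qq k a 0 = a.1 := rfl

lemma qq_succ {k : ℕ} (a) (i) : qq k a (Fin.succ i) = (1 - a.1) * a.2 i := rfl

lemma qq_surj (k : ℕ) : Function.Surjective (qq k) := by
  intro t
  have hs := stdSimplex.sum_eq_one t
  rw [Fin.sum_univ_succ] at hs
  by_cases h : t 0 = 1
  · refine ⟨(1, stdSimplex.vertex 0), stdSimplex.ext (funext fun i => ?_)⟩
    refine Fin.cases h.symm (fun j => ?_) i
    have : ∑ i : Fin (k + 1), t i.succ = 0 := by linarith
    rw [qq_succ, (Finset.sum_eq_zero_iff_of_nonneg fun i _ => stdSimplex.zero_le t _).1 this j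
      (Finset.mem_univ _)]
    simp
  · have h1 : 0 < 1 - t 0 := sub_pos.2 (lt_of_le_of_ne (stdSimplex.le_one t 0) h)
    refine ⟨(⟨t 0, stdSimplex.zero_le t 0, stdSimplex.le_one t 0⟩,
      ⟨fun i => t i.succ / (1 - t 0), fun i => div_nonneg (stdSimplex.zero_le t _) h1.le, ?_⟩),
      stdSimplex.ext (funext fun i => ?_)⟩
    · rw [← Finset.sum_div, div_eq_one_iff_eq h1.ne']
      linarith
    · refine Fin.cases rfl (fun j => ?_) i
      exact mul_div_cancel₀ _ h1.ne'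

lemma qq_quot (k : ℕ) : Topology.IsQuotientMap (qq k) :=
  (qq k).continuous.isClosedMap.isQuotientMap (qq k).continuous (qq_surj k)

lemma qq_eq {k : ℕ} {a b} (h : qq k a = qq k b) : a.1 = b.1 ∧ (a.1 = 1 ∨ a.2 = b.2) := by
  have h0 : a.1 = b.1 := Subtype.ext (by rw [← qq_zero a, h, qq_zero])
  refine ⟨h0, or_iff_not_imp_left.2 fun h1 => stdSimplex.ext (funext fun i => ?_)⟩
  have := qq_succ a i
  rw [h, qq_succ, ← h0] at this
  refine (mul_left_cancel₀ (fun e => h1 (Subtype.ext ?_)) this).symm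
  exact (sub_eq_zero.1 e).symm

lemma map_zero_eq {k : ℕ} (u) : stdSimplex.map (Fin.succAbove 0) u = qq k (0, u) := by
  refine stdSimplex.ext (funext fun i => ?_)
  refine Fin.cases (map_self 0 u) (fun j => ?_) i
  rw [qq_succ]
  simpa using map_at 0 u j

lemma map_succ_eq {k : ℕ} (i : Fin (k + 2)) (τ) (u) :
    stdSimplex.map (Fin.succAbove i.succ) (qq k (τ, u)) =
      qq (k + 1) (τ, stdSimplex.map i.succAbove u) := by
  refine stdSimplex.ext (funext fun j => ?_)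
  refine Fin.cases ?_ (fun j => ?_) j
  · have := map_at i.succ (qq k (τ, u)) 0
    rwa [Fin.succ_succAbove_zero] at this
  · rw [qq_succ]
    refine Fin.succAboveCases i ?_ (fun l => ?_) j
    · rw [map_self, map_self, mul_zero]
    · rw [← Fin.succ_succAbove_succ, map_at, map_at, qq_succ]

lemma map_one_eq (u : Dl 1) : stdSimplex.map (Fin.succAbove 1) u = qq 0 (1, u) := by
  refine stdSimplex.ext (funext fun j => ?_)
  refine Fin.cases ?_ (fun j => ?_) j
  · exact (map_at 1 u 0).trans (stdSimplex.eq_one_of_unique u 0)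
  · rw [qq_succ, Subsingleton.elim j 0]
    simpa using map_self 1 u

/-- A local equiconnecting function. -/
structure LEC (X : Type u) [MetricSpace X] where
  lam : X → X → unitInterval → X
  N : Set (X × X)
  isOpen : IsOpen N
  diag : ∀ a, (a, a) ∈ N
  cont : ContinuousOn (fun q : (X × X) × unitInterval => lam q.1.1 q.1.2 q.2) (N ×ˢ univ)
  zero : ∀ a y, (a, y) ∈ N → lam a y 0 = y
  one : ∀ a y, (a, y) ∈ N → lam a y 1 = a
  self : ∀ a t, lam a a t = a

variable {R : Type} [CommRing R] {X : Type u} [MetricSpace X]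

namespace LEC

variable (L : LEC X)

theorem ctrl {K : Set X} (hK : IsCompact K) {ε : ℝ} (hε : 0 < ε) :
    ∃ δ > 0, ∀ a ∈ K, ∀ y, dist y a < δ → (a, y) ∈ L.N ∧ ∀ t, dist (L.lam a y t) a < ε := by
  have hW : IsOpen ((L.N ×ˢ univ) ∩ (fun q : (X × X) × unitInterval =>
      dist (L.lam q.1.1 q.1.2 q.2) q.1.1) ⁻¹' Iio ε) :=
    ContinuousOn.isOpen_inter_preimage
      (continuous_dist.comp_continuousOn
        (L.cont.prodMk (continuous_fst.comp continuous_fst).continuousOn))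
      (L.isOpen.prod isOpen_univ) isOpen_Iio
  have hS := (isClosedMap_fst_of_compactSpace _ hW.isClosed_compl).isOpen_compl
  obtain ⟨δ, hδ, h⟩ := (hK.image (continuous_id.prodMk continuous_id)).exists_thickening_subset_open
    hS (by
      rintro _ ⟨a, -, rfl⟩ ⟨⟨q, t⟩, hq, rfl⟩
      refine hq ⟨⟨L.diag a, mem_univ _⟩, ?_⟩
      simp [L.self, hε])
  refine ⟨δ, hδ, fun a ha y hy => ?_⟩
  have hm : (a, y) ∈ thickening δ ((fun x => (id x, id x)) '' K) :=
    mem_thickening_iff.2 ⟨(a, a), ⟨a, ha, rfl⟩, by simpa [Prod.dist_eq] using hy⟩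
  have key : ∀ t, ((a, y), t) ∈ (L.N ×ˢ univ) ∩ (fun q : (X × X) × unitInterval =>
      dist (L.lam q.1.1 q.1.2 q.2) q.1.1) ⁻¹' Iio ε := fun t => by
    by_contra hc
    exact h hm ⟨((a, y), t), hc, rfl⟩
  exact ⟨(key 0).1.1, fun t => (key t).2⟩

/-- The points that can be joined to `a`. -/
def nb (a : X) : Set X := {y | (a, y) ∈ L.N}

/-- The homotopy underlying the cone. -/
noncomputable def pre (a : X) {k : ℕ} (σ : Sx X (k + 1)) (h : range σ ⊆ L.nb a) :
    C(unitInterval × Dl (k + 1), X) :=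
  ⟨fun q => L.lam a (σ q.2) q.1, L.cont.comp_continuous
    (f := fun q : unitInterval × Dl (k + 1) => ((a, σ q.2), q.1))
    ((continuous_const.prodMk (σ.continuous.comp continuous_snd)).prodMk continuous_fst)
    fun q => ⟨h ⟨q.2, rfl⟩, mem_univ _⟩⟩

theorem pre_factors (a : X) {k : ℕ} (σ : Sx X (k + 1)) (h : range σ ⊆ L.nb a) :
    Function.FactorsThrough (L.pre a σ h) (qq k) := by
  rintro ⟨s, u⟩ ⟨t, v⟩ e
  obtain ⟨rfl, rfl | rfl⟩ : s = t ∧ (s = 1 ∨ u = v) := qq_eq e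
  · exact (L.one _ _ (h ⟨u, rfl⟩)).trans (L.one _ _ (h ⟨v, rfl⟩)).symm
  · rfl

open Classical in
/-- The cone with apex `a` over a simplex. -/
noncomputable def cn (a : X) : ∀ k, Sx X k → Sx X (k + 1)
  | 0, _ => pt a
  | k + 1, σ => if h : range σ ⊆ L.nb a then (qq_quot k).lift _ (L.pre_factors a σ h)
      else ContinuousMap.const _ a

theorem cn_qq {a : X} {k : ℕ} {σ : Sx X (k + 1)} (h : range σ ⊆ L.nb a) (τ u) :
    L.cn a (k + 1) σ (qq k (τ, u)) = L.lam a (σ u) τ := by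
  rw [cn, dif_pos h]
  exact DFunLike.congr_fun ((qq_quot k).lift_comp _ (L.pre_factors a σ h)) (τ, u)

theorem res_zero_cn {a : X} {k : ℕ} {σ : Sx X (k + 1)} (h : range σ ⊆ L.nb a) :
    res (Fin.succAbove 0) (L.cn a (k + 1) σ) = σ := by
  ext u
  rw [res_apply, map_zero_eq, L.cn_qq h, L.zero _ _ (h ⟨u, rfl⟩)]

theorem res_succ_cn {a : X} : ∀ {k : ℕ} {σ : Sx X (k + 1)} (_ : range σ ⊆ L.nb a)
    (i : Fin (k + 1)), res (Fin.succAbove i.succ) (L.cn a (k + 1) σ) = L.cn a k (res i.succAbove σ)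
  | 0, σ, h, i => by
    ext u
    rw [Fin.fin_one_eq_zero i, res_apply]
    change L.cn a 1 σ (stdSimplex.map (Fin.succAbove 1) u) = a
    rw [map_one_eq, L.cn_qq h, L.one _ _ (h ⟨u, rfl⟩)]
  | k + 1, σ, h, i => by
    ext t
    obtain ⟨⟨τ, u⟩, rfl⟩ := qq_surj k t
    rw [res_apply, map_succ_eq, L.cn_qq h, L.cn_qq ((range_res _ _).trans h), res_apply]

/-- The cone operator on chains. -/
noncomputable def cone (a : X) (k : ℕ) : Ch R X k →ₗ[R] Ch R X (k + 1) := md (L.cn a k)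

theorem cone_single (a : X) {k : ℕ} (σ : Sx X k) :
    L.cone a k (single σ (1 : R)) = single (L.cn a k σ) 1 := md_single _ _ _

theorem bd_cone_zero (a : X) (c : Ch R X 0) : bd 0 (L.cone a 0 c) = c := by
  refine lin_ext ((bd 0).comp (L.cone a 0)) LinearMap.id (fun σ => ?_) c
  simp only [LinearMap.comp_apply, cone_single, bd_single, LinearMap.id_apply]
  rw [Fin.sum_univ_succ, Subsingleton.elim (res _ _) σ]
  simp

theorem bd_cone {a : X} {k : ℕ} {c : Ch R X (k + 1)} (hc : c ∈ In R (L.nb a) (k + 1)) :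
    bd (k + 1) (L.cone a (k + 1) c) = c - L.cone a k (bd k c) := by
  refine CS_eq ((bd (k + 1)).comp (L.cone a (k + 1)))
    (LinearMap.id - (L.cone a k).comp (bd k)) (fun σ hσ => ?_) hc
  simp only [LinearMap.comp_apply, cone_single, bd_single, LinearMap.id_apply, LinearMap.sub_apply,
    map_sum, map_smul]
  rw [Fin.sum_univ_succ, L.res_zero_cn hσ, sub_eq_add_neg, ← Finset.sum_neg_distrib]
  congr 1
  · simp
  · refine Finset.sum_congr rfl fun i _ => ?_
    rw [L.res_succ_cn hσ, Fin.val_succ, pow_succ, mul_neg_one, neg_smul]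

/-- `A` can be coned off from `a` inside `B`. -/
def Ok (a : X) (A B : Set X) : Prop :=
  a ∈ B ∧ A ⊆ L.nb a ∧ ∀ y ∈ A, ∀ t, L.lam a y t ∈ B

variable {L}

theorem Ok.range_cn {a : X} {A B : Set X} (h : L.Ok a A B) :
    ∀ {k : ℕ} {σ : Sx X k}, range σ ⊆ A → range (L.cn a k σ) ⊆ B
  | 0, σ, _ => by
    rintro _ ⟨p, rfl⟩
    exact h.1
  | k + 1, σ, hσ => by
    rintro _ ⟨p, rfl⟩
    obtain ⟨⟨τ, u⟩, rfl⟩ := qq_surj k p
    rw [L.cn_qq (hσ.trans h.2.1)]
    exact h.2.2 _ (hσ ⟨u, rfl⟩) _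

theorem Ok.cone_In {a : X} {A B : Set X} (h : L.Ok a A B) {k : ℕ} {c : Ch R X k}
    (hc : c ∈ In R A k) : L.cone a k c ∈ In R B (k + 1) :=
  CS_lin _ _ (fun σ hσ => by rw [cone_single]; exact single_CS (h.range_cn hσ) _) hc

theorem Ok.bd_cone {a : X} {A B : Set X} (h : L.Ok a A B) {k : ℕ} {c : Ch R X (k + 1)}
    (hc : c ∈ In R A (k + 1)) : bd (k + 1) (L.cone a (k + 1) c) = c - L.cone a k (bd k c) :=
  L.bd_cone (In_mono h.2.1 _ hc)

theorem Ok.fill {a : X} {A B : Set X} (h : L.Ok a A B) {k : ℕ} {c : Ch R X (k + 1)}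
    (hc : c ∈ In R A (k + 1)) (h0 : bd k c = 0) :
    ∃ d ∈ In R B (k + 2), bd (k + 1) d = c :=
  ⟨_, h.cone_In hc, by rw [h.bd_cone hc, h0, map_zero, sub_zero]⟩

theorem Ok.mono {a : X} {A A' B B' : Set X} (h : L.Ok a A B) (hA : A' ⊆ A) (hB : B ⊆ B') :
    L.Ok a A' B' :=
  ⟨hB h.1, hA.trans h.2.1, fun y hy t => hB (h.2.2 y (hA hy) t)⟩

theorem Ok.joined {a : X} {A B : Set X} (h : L.Ok a A B) {y : X} (hy : y ∈ A) :
    JoinedIn B y a :=
  ⟨⟨⟨fun t => L.lam a y t, L.cont.comp_continuous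
    (f := fun t : unitInterval => ((a, y), t)) (continuous_const.prodMk continuous_id)
    fun t => ⟨h.2.1 hy, mem_univ _⟩⟩, L.zero _ _ (h.2.1 hy), L.one _ _ (h.2.1 hy)⟩,
    fun t => h.2.2 y hy t⟩

variable (L)

theorem ok_unif {K : Set X} (hK : IsCompact K) {ε : ℝ} (hε : 0 < ε) :
    ∃ δ > 0, δ ≤ ε ∧ ∀ a ∈ K, L.Ok a (ball a δ) (ball a ε) := by
  obtain ⟨δ, hδ, h⟩ := L.ctrl hK hε
  exact ⟨min δ ε, lt_min hδ hε, min_le_right _ _, fun a ha => ⟨mem_ball_self hε,
    fun y hy => (h a ha y (lt_of_lt_of_le hy (min_le_left _ _))).1,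
    fun y hy t => (h a ha y (lt_of_lt_of_le hy (min_le_left _ _))).2 t⟩⟩

theorem ok_pt (a : X) {ε : ℝ} (hε : 0 < ε) : ∃ δ > 0, δ ≤ ε ∧ L.Ok a (ball a δ) (ball a ε) := by
  obtain ⟨δ, hδ, h1, h⟩ := L.ok_unif (isCompact_singleton (x := a)) hε
  exact ⟨δ, hδ, h1, h a rfl⟩

include L in
theorem lpc : LocallyPathConnectedSpace X := by
  refine locallyPathConnectedSpace_iff_pathComponentIn_mem_nhds.2 fun x U hU hx => ?_
  obtain ⟨ε, hε, h⟩ := Metric.isOpen_iff.1 hU x hx
  obtain ⟨δ, hδ, -, hk⟩ := L.ok_pt x hε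
  exact Filter.mem_of_superset (ball_mem_nhds x hδ) fun y hy => ((hk.joined hy).mono h).symm

end LEC

end Pool.Agent.Lib.MP_77749b_gt
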