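import Pool.Agent.Lib.MP_77749b_gt.Defs
import Pool.Agent.Lib.MP_77749b_gt.Cone

namespace Pool.Agent.Lib.MP_77749b_gt

open Set Metric Topology BoundedContinuousFunction

universe u

variable {X : Type u} [MetricSpace X]

/-- The Kuratowski embedding. -/
noncomputable def kur (x₀ x : X) : X →ᵇ ℝ :=
  BoundedContinuousFunction.ofNormedAddCommGroup (fun y => dist x y - dist x₀ y) (by fun_prop)
    (dist x x₀) fun y => abs_dist_sub_le x x₀ y

theorem kur_apply (x₀ x y : X) : kur x₀ x y = dist x y - dist x₀ y := rfl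

theorem isometry_kur (x₀ : X) : Isometry (kur x₀) := by
  refine Isometry.of_dist_eq fun a b => le_antisymm ?_ ?_
  · refine (BoundedContinuousFunction.dist_le dist_nonneg).2 fun y => ?_
    rw [kur_apply, kur_apply, dist_sub_right]
    exact abs_dist_sub_le a b y
  · have := dist_coe_le_dist (f := kur x₀ a) (g := kur x₀ b) b
    rwa [kur_apply, kur_apply, dist_sub_right, dist_self, dist_zero_right, Real.norm_eq_abs,
      abs_dist] at this

theorem kur_closed (x₀ : X) {f : X →ᵇ ℝ} (hf : f ∈ convexHull ℝ (range (kur x₀)))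
    (hc : f ∈ closure (range (kur x₀))) : f ∈ range (kur x₀) := by
  obtain ⟨ι, _, w, z, hw, hw1, hz, rfl⟩ := mem_convexHull_iff_exists_fintype.1 hf
  choose x hx using hz
  obtain ⟨i, hi⟩ : ∃ i, 0 < w i := by
    by_contra h
    push Not at h
    have := Finset.sum_nonpos fun i (_ : i ∈ Finset.univ) => h i
    linarith
  refine ⟨x i, eq_of_forall_dist_le fun ε hε => ?_⟩
  have hη : 0 < ε * w i / (1 + w i) := by positivity
  obtain ⟨_, ⟨y, rfl⟩, hy⟩ := Metric.mem_closure_iff.1 hc _ hη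
  have h1 := (dist_coe_le_dist (f := ∑ i, w i • z i) (g := kur x₀ y) y).trans_lt hy
  have h2 : (∑ i, w i • z i) y - kur x₀ y y = ∑ j, w j * dist (x j) y := by
    rw [BoundedContinuousFunction.sum_apply]
    simp only [← hx, coe_smul, kur_apply, smul_eq_mul, mul_sub, Finset.sum_sub_distrib,
      ← Finset.sum_mul, hw1, dist_self]
    ring
  rw [Real.dist_eq, h2] at h1
  have h3 : w i * dist (x i) y < ε * w i / (1 + w i) :=
    (Finset.single_le_sum (f := fun j => w j * dist (x j) y)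
      (fun j _ => mul_nonneg (hw j) dist_nonneg) (Finset.mem_univ i)).trans_lt
      ((le_abs_self _).trans_lt h1)
  have h4 : dist (x i) y < ε / (1 + w i) := by
    rw [mul_comm ε, mul_div_assoc] at h3
    exact lt_of_mul_lt_mul_left h3 hi.le
  have h5 := dist_triangle_right (kur x₀ (x i)) (∑ i, w i • z i) (kur x₀ y)
  rw [(isometry_kur x₀).dist_eq] at h5
  have h6 : ε / (1 + w i) + ε * w i / (1 + w i) = ε := by field_simp
  linarith

theorem IsANR.lec (h : IsANR X) (x₀ : X) : Nonempty (LEC X) := by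
  classical
  let M := convexHull ℝ (range (kur x₀))
  let e : X → M := fun x => ⟨kur x₀ x, subset_convexHull ℝ _ ⟨x, rfl⟩⟩
  have he : Isometry e := isometry_kur x₀
  have hcl : IsClosed (range e) := by
    refine isClosed_of_closure_subset fun f hf => ?_
    obtain ⟨x, hx⟩ := kur_closed x₀ f.2 (closure_mono (by
      rintro _ ⟨_, ⟨x, rfl⟩, rfl⟩; exact ⟨x, rfl⟩)
      (image_closure_subset_closure_image continuous_subtype_val ⟨f, hf, rfl⟩))
    exact ⟨x, Subtype.ext hx⟩
  obtain ⟨U, hU, r, hr⟩ := h.2 M e ⟨he.isEmbedding, hcl⟩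
  obtain ⟨O, hO, hO1, hO2⟩ := mem_nhdsSet_iff_exists.1 hU
  let sg : (X × X) × unitInterval → M := fun q =>
    ⟨(q.2 : ℝ) • kur x₀ q.1.1 + (1 - (q.2 : ℝ)) • kur x₀ q.1.2, convex_convexHull ℝ _
      (e q.1.1).2 (e q.1.2).2 q.2.2.1 (sub_nonneg.2 q.2.2.2) (by ring)⟩
  have hk := (isometry_kur x₀).continuous
  have hsg : Continuous sg := Continuous.subtype_mk (by fun_prop) _
  have hN := (isClosedMap_fst_of_compactSpace _ (hO.preimage hsg).isClosed_compl).isOpen_compl
  have hm : ∀ {p : X × X}, p ∈ (Prod.fst '' (sg ⁻¹' O)ᶜ)ᶜ → ∀ t, sg (p, t) ∈ U := fun {p} hp t => by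
    by_contra hc
    exact hp ⟨(p, t), fun h => hc (hO2 h), rfl⟩
  have hs : ∀ a t, sg ((a, a), t) = e a := fun a t => Subtype.ext (by
    change (t : ℝ) • kur x₀ a + (1 - (t : ℝ)) • kur x₀ a = kur x₀ a
    rw [← add_smul]; simp)
  have hv : ∀ q a, sg q = e a → (if h : sg q ∈ U then r ⟨sg q, h⟩ else q.1.1) = a := by
    intro q a hq
    have : sg q ∈ U := hq ▸ hO2 (hO1 ⟨a, rfl⟩)
    rw [dif_pos this, ← hr a (hq ▸ this)]
    congr 2
  refine ⟨⟨fun a y t => if h : sg ((a, y), t) ∈ U then r ⟨sg ((a, y), t), h⟩ else a, _, hN,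
    fun a => ?_, ?_, fun a y _ => hv ((a, y), 0) y (Subtype.ext ?_),
    fun a y _ => hv ((a, y), 1) a (Subtype.ext ?_), fun a t => hv ((a, a), t) a (hs a t)⟩⟩
  · rintro ⟨⟨_, t⟩, hq, rfl⟩
    exact hq (by rw [mem_preimage, hs]; exact hO1 ⟨_, rfl⟩)
  · rw [continuousOn_iff_continuous_domRestrict]
    refine (r.continuous.comp ((hsg.comp continuous_subtype_val).subtype_mk
      fun q => hm q.2.1 q.1.2)).congr fun q => ?_
    exact (dif_pos (t := fun h : sg q.1 ∈ U => r ⟨sg q.1, h⟩) (e := fun _ => q.1.1.1)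
      (hm q.2.1 q.1.2)).symm
  · simp [sg, e]
  · simp [sg, e]

end Pool.Agent.Lib.MP_77749b_gt
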