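import Pool.Agent.Lib.MP_77749b_gt.Dim
import Pool.Agent.Lib.MP_77749b_gt.Arc0

namespace Pool.Agent.Lib.MP_77749b_gt

open Set Finsupp Metric Topology Filter

universe u

variable {R : Type} [CommRing R] {X : Type u} [MetricSpace X]

/-- Affine simplices along a curve. -/
noncomputable def afs (a : C(ℝ, X)) {k : ℕ} (w : Fin k → ℝ) : Sx X k :=
  a.comp ⟨fun p => ∑ j, p j • w j, continuous_finsetSum _ fun j _ =>
    ((continuous_apply j).comp continuous_subtype_val).smul continuous_const⟩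

theorem res_afs (a : C(ℝ, X)) {j k : ℕ} (g : Fin j → Fin k) (w : Fin k → ℝ) :
    res g (afs a w) = afs a (w ∘ g) := by
  ext p
  exact congrArg a (sum_map_smul g p w)

theorem bd_afs (a : C(ℝ, X)) {k : ℕ} (c : Tp R ℝ (k + 1)) :
    bd k (md (afs a) c) = md (afs a) (tb k c) :=
  bd_md (P := univ) _ _ (fun v _ i => res_afs a _ v) (by simp)

theorem range_afs (a : C(ℝ, X)) {k : ℕ} {w : Fin k → ℝ} {Q : Set ℝ} (hQ : Convex ℝ Q)
    (h : ∀ j, w j ∈ Q) : range (afs a w) ⊆ a '' Q := by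
  rintro _ ⟨p, rfl⟩
  exact ⟨_, hQ.sum_mem (fun j _ => stdSimplex.zero_le p j) (stdSimplex.sum_eq_one p)
    fun j _ => h j, rfl⟩

theorem vx_afs (a : C(ℝ, X)) {k : ℕ} (w : Fin k → ℝ) (i : Fin k) : vx (afs a w) i = a (w i) := by
  refine congrArg a ?_
  simp [Pi.single_apply]

theorem res_one {k : ℕ} (g : Fin 1 → Fin k) (σ : Sx X k) : res g σ = pt (vx σ (g 0)) := by
  rw [← vx_res, pt_vx]

theorem bd_edge (σ : Sx X 2) :
    bd 1 (single σ (1 : R)) = single (pt (vx σ 1)) 1 - single (pt (vx σ 0)) 1 := by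
  rw [bd_single, Fin.sum_univ_two, res_one, res_one]
  simp [sub_eq_add_neg]

/-- Evaluation of a function on chains of points. -/
noncomputable def ev (f : X → R) : Ch R X 1 →ₗ[R] R := lx fun σ => f (vx σ 0)

theorem ev_pt (f : X → R) (x : X) : ev f (single (pt x) 1) = f x := lx_single _ _

theorem ev_bd (f : X → R) (σ : Sx X 2) :
    ev f (bd 1 (single σ 1)) = f (vx σ 1) - f (vx σ 0) := by rw [bd_edge, map_sub, ev_pt, ev_pt]

theorem joined_vx {k : ℕ} (σ : Sx X (k + 1)) (i j : Fin (k + 1)) :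
    JoinedIn (range σ) (vx σ i) (vx σ j) :=
  (isPathConnected_range σ.continuous).joinedIn _ (vx_mem σ i) _ (vx_mem σ j)

theorem exists_edge {A : Set X} {u v : X} (h : JoinedIn A u v) :
    ∃ σ : Sx X 2, range σ ⊆ A ∧ vx σ 0 = u ∧ vx σ 1 = v := by
  obtain ⟨γ, hγ⟩ := h
  refine ⟨afs ⟨γ.extend, γ.continuous_extend⟩ ![0, 1], ?_, ?_, ?_⟩
  · rintro _ ⟨p, rfl⟩
    obtain ⟨t, ht⟩ : ∃ t, γ t = _ := γ.extend_range ▸ mem_range_self _
    exact ht ▸ hγ t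
  · rw [vx_afs]; exact γ.extend_zero
  · rw [vx_afs]; exact γ.extend_one

theorem joined_of_bd [Nontrivial R] {A : Set X} {u v : X} (hu : u ∈ A) {e : Ch R X 2}
    (he : e ∈ In R A 2) (h : bd 1 e = single (pt v) 1 - single (pt u) 1) : JoinedIn A u v := by
  classical
  have := CS_eq ((ev fun y => if JoinedIn A u y then (1 : R) else 0).comp (bd 1)) 0
    (fun σ hσ => by
      have h1 := (joined_vx σ 0 1).mono hσ
      have : JoinedIn A u (vx σ 1) ↔ JoinedIn A u (vx σ 0) :=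
        ⟨fun h => h.trans h1.symm, fun h => h.trans h1⟩
      simp [ev_bd, this]) he
  rw [LinearMap.comp_apply, h, map_sub, ev_pt, ev_pt, if_pos (JoinedIn.refl hu)] at this
  by_contra hc
  simp [hc] at this

theorem Van.loc {x : X} {k : ℕ} (hv : Van R x k) {D : Set X} (hD : IsOpen D) {c : Ch R X (k + 1)}
    (hc : c ∈ In R D (k + 1)) (h : bd k c ∈ In R (D \ {x}) k) : c ∈ Bd R D {x} (k + 1) := by
  by_cases hx : x ∈ D
  · exact excise hD hx hc (hv c (In_mono (fun y hy => hy.2) _ h))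
  · exact In_Bd (by rwa [sdiff_singleton_eq_self hx])

theorem Arc.van {A : Set X} (hA : Arc A) {k : ℕ} (hv : ∀ x : X, Van R x k)
    (hv' : ∀ x : X, Van R x (k + 1)) {D : Set X} (hD : IsOpen D) {c : Ch R X (k + 1)}
    (hc : c ∈ In R D (k + 1)) (h : bd k c ∈ In R (D \ A) k) : c ∈ Bd R D A (k + 1) := by
  obtain ⟨a, s, t, ha, hi, rfl⟩ := hA
  rcases lt_or_ge t s with hst | hst
  · exact In_Bd (by simpa [Icc_eq_empty hst.not_ge] using hc)
  have h1 : ∀ u ∈ Icc s t, c ∈ Bd R D {a u} (k + 1) := fun u hu =>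
    (hv _).loc hD hc (In_mono (sdiff_subset_sdiff_right 
      (singleton_subset_iff.2 (mem_image_of_mem a hu))) _ h)
  have h2 : ∀ u ∈ Icc s t, ∀ v ∈ Icc s t, c ∈ Bd R D (a '' Icc u v) (k + 1) →
      c ∈ Bd R D (a '' Icc s u) (k + 1) → c ∈ Bd R D (a '' Icc s v) (k + 1) := by
    intro u hu v hv h3 h4
    refine Bd_anti (K := a '' Icc s u ∪ a '' Icc u v)
      (by rw [← image_union]; exact image_mono Icc_subset_Icc_union_Icc) _
      (glue (isCompact_Icc.image ha).isClosed (isCompact_Icc.image ha).isClosed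
        (fun w hw hb => ?_) h4 h3)
    have e : a '' Icc s u ∩ a '' Icc u v ⊆ {a u} := by
      rintro _ ⟨⟨p, hp, rfl⟩, q, hq, e⟩
      have := hi ⟨hu.1.trans hq.1, hq.2.trans hv.2⟩ ⟨hp.1, hp.2.trans hu.2⟩ e
      rw [le_antisymm hp.2 (this ▸ hq.1)]
      rfl
    rcases (subset_singleton_iff_eq.1 e) with e | e <;> rw [e] at hb ⊢
    · exact In_Bd (by rwa [sdiff_empty])
    · exact (hv' _).loc hD hw hb
  refine isPreconnected_Icc.induction₂' (fun u v => c ∈ Bd R D (a '' Icc s u) (k + 1) →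
    c ∈ Bd R D (a '' Icc s v) (k + 1)) (fun u hu => ?_) (fun _ _ _ _ _ _ h1 h2 h3 => h2 (h1 h3))
    (left_mem_Icc.2 hst) (right_mem_Icc.2 hst) (by simpa using h1 s (left_mem_Icc.2 hst))
  obtain ⟨ε, hε, hb⟩ := Bd_ball (h1 u hu)
  obtain ⟨η, hη, hs⟩ := Metric.mem_nhds_iff.1 (ha.continuousAt (closedBall_mem_nhds (a u) hε))
  filter_upwards [mem_nhdsWithin_of_mem_nhds (ball_mem_nhds u hη), self_mem_nhdsWithin] with v hv hv'
  exact ⟨h2 u hu v hv' (Bd_anti (image_subset_iff.2 (((convex_ball u η).ordConnected.out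
    (mem_ball_self hη) hv).trans hs)) _ hb), h2 v hv' u hu (Bd_anti (image_subset_iff.2
      (((convex_ball u η).ordConnected.out hv (mem_ball_self hη)).trans hs)) _ hb)⟩

/-- Closed sets that neither contain nor separate a domain. -/
def Good (A : Set X) : Prop :=
  IsClosed A ∧ ∀ D : Set X, IsOpen D → IsPathConnected D → IsPathConnected (D \ A)

theorem Arc.good [Nontrivial R] {A : Set X} (hA : Arc A) (h0 : ∀ x : X, Van R x 0)
    (h1 : ∀ x : X, Van R x 1) (h2 : ∀ x : X, Van R x 2) : Good A := by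
  refine ⟨hA.isCompact.isClosed, fun D hD hc => isPathConnected_iff.2 ⟨?_, fun u hu v hv => ?_⟩⟩
  · obtain ⟨x, hx⟩ := hc.nonempty
    obtain ⟨d, -, e, he, E⟩ := mem_Bd.1 (hA.van h0 h1 hD (c := single (pt x) 1)
      (single_CS (by rwa [range_pt, singleton_subset_iff]) _) (In_zero _ _))
    by_contra hn
    have he0 : e = 0 := by
      rw [← support_eq_empty, Finset.eq_empty_iff_forall_notMem]
      exact fun σ hσ => hn ⟨_, mem_CS.1 he σ hσ (vx_mem σ 0)⟩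
    have := congrArg (ev fun _ => (1 : R)) E
    rw [he0, add_zero, ev_pt, ← LinearMap.comp_apply,
      lin_ext _ 0 (fun σ => by simp [ev_bd]) d] at this
    simp at this
  · obtain ⟨σ, hσ, rfl, rfl⟩ := exists_edge (hc.joinedIn u hu.1 v hv.1)
    obtain ⟨d, -, e, he, E⟩ := mem_Bd.1 (hA.van h1 h2 hD (c := single σ 1) (single_CS hσ _) (by
      rw [bd_edge]
      exact Submodule.sub_mem _ (single_CS (by rwa [range_pt, singleton_subset_iff]) _)
        (single_CS (by rwa [range_pt, singleton_subset_iff]) _)))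
    refine joined_of_bd hu he ?_
    rw [← bd_edge, E, map_add, bd_bd, zero_add]

theorem Good.union {A B : Set X} (hA : Good A) (hB : Good B) : Good (A ∪ B) :=
  ⟨hA.1.union hB.1, fun D hD hc => by
    rw [← Set.sdiff_sdiff]; exact hB.2 _ (hD.sdiff hA.1) (hA.2 D hD hc)⟩

theorem good_iUnion : ∀ {N : ℕ} {A : Fin N → Set X}, (∀ i, Good (A i)) → Good (⋃ i, A i)
  | 0, A, _ => ⟨by simp, fun D _ h => by simpa using h⟩
  | N + 1, A, h => by
    rw [iUnion_fin_add_one_eq_iUnion_succ]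
    exact (h 0).union (good_iUnion fun i => h i.succ)

theorem Good.nonempty [LocallyPathConnectedSpace X] {A O : Set X} (hA : Good A) (hO : IsOpen O)
    (h : O.Nonempty) : (O \ A).Nonempty := by
  obtain ⟨x, hx⟩ := h
  exact (hA.2 _ (hO.pathComponentIn x) (isPathConnected_pathComponentIn hx)).nonempty.mono
    (sdiff_subset_sdiff_left pathComponentIn_subset)

/-- Prolonging an arc up to the first hit. -/
theorem exists_hit {b : ℝ → X} (hb : Continuous b) {s t : ℝ} (hi : InjOn b (Icc s t)) {D : Set X}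
    {w z : X} (hD : JoinedIn D w z) (hz : z ∈ b '' Icc s t) (hw : w ∉ b '' Icc s t) :
    ∃ (c : ℝ → X) (s' m : ℝ), Continuous c ∧ s' ≤ m ∧ m ∈ Icc s t ∧ InjOn c (Icc s' t) ∧
      c s' = w ∧ (∀ u ∈ Icc s' m, c u ∈ D) ∧ ∀ u, m ≤ u → c u = b u := by
  obtain ⟨α, hα, hW⟩ := exists_arc hD (fun e => hw (e ▸ hz))
  have hc : IsCompact (Icc (0 : ℝ) 1 ∩ α ⁻¹' (b '' Icc s t)) :=
    isCompact_Icc.inter_right ((isCompact_Icc.image hb).isClosed.preimage hα.cont)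
  obtain ⟨r, ⟨hr, m, hm, e⟩, hmin⟩ := hc.exists_isLeast ⟨1, by simp, by simpa [hα.one] using hz⟩
  have h1 : ∀ u, u ≤ m → (if u ≤ m then α (u - m + r) else b u) = α (u - m + r) :=
    fun u hu => if_pos hu
  have h2 : ∀ u, m ≤ u → (if u ≤ m then α (u - m + r) else b u) = b u := fun u hu => by
    split_ifs with h
    · rw [le_antisymm h hu, sub_self, zero_add, e]
    · rfl
  have h3 : ∀ u ∈ Icc (m - r) t, ∀ v ∈ Icc (m - r) t, u ≤ v →
      (if u ≤ m then α (u - m + r) else b u) = (if v ≤ m then α (v - m + r) else b v) → u = v := by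
    intro u hu v hv huv h
    rcases le_total v m with hvm | hvm
    · rw [h1 u (huv.trans hvm), h1 v hvm] at h
      have := hα.inj ⟨by linarith [hu.1], by linarith [hr.2]⟩
        ⟨by linarith [hv.1], by linarith [hr.2]⟩ h
      linarith
    · have hum : m ≤ u := by
        by_contra hum
        rw [h1 u (not_le.1 hum).le, h2 v hvm] at h
        have := hmin ⟨⟨by linarith [hu.1], by linarith [hr.2]⟩, v, ⟨hm.1.trans hvm, hv.2⟩, h.symm⟩
        linarith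
      rw [h2 u hum, h2 v hvm] at h
      exact hi ⟨hm.1.trans hum, hu.2⟩ ⟨hm.1.trans hvm, hv.2⟩ h
  refine ⟨fun u => if u ≤ m then α (u - m + r) else b u, m - r, m,
    Continuous.if_le (hα.cont.comp (by fun_prop)) hb continuous_id continuous_const
      (fun u hu => by rw [hu, sub_self, zero_add, e]), by linarith [hr.1], hm,
    fun u hu v hv h => ?_, ?_, fun u hu => ?_, h2⟩
  · rcases le_total u v with huv | huv
    exacts [h3 u hu v hv huv h, (h3 v hv u hu huv h.symm).symm]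
  · refine (h1 _ (by linarith [hr.1])).trans ?_
    simpa using hα.zero
  · beta_reduce
    rw [h1 _ hu.2]
    exact hW ⟨_, ⟨by linarith [hu.1], by linarith [hu.2, hr.2]⟩, rfl⟩

/-- An arc running through `D` with controlled itinerary. -/
structure Thr (D E F G : Set X) where
  a : C(ℝ, X)
  s : ℝ
  t₁ : ℝ
  t₀ : ℝ
  t₂ : ℝ
  t : ℝ
  h1 : s ≤ t₁
  h2 : t₁ ≤ t₀
  h3 : t₀ ≤ t₂
  h4 : t₂ ≤ t
  inj : InjOn a (Icc s t)
  mid : a t₀ ∈ D
  inE : ∀ u ∈ Icc t₁ t₂, a u ∈ E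
  inF : ∀ u ∈ Icc s t₁ ∪ Icc t₂ t, a u ∈ F
  hs : a s ∈ G
  ht : a t ∈ G

/-- The image of the arc. -/
def Thr.im {D E F G : Set X} (T : Thr D E F G) : Set X := T.a '' Icc T.s T.t

theorem Thr.arc {D E F G : Set X} (T : Thr D E F G) : Arc T.im :=
  ⟨_, _, _, T.a.continuous, T.inj, rfl⟩

section Build

variable [LocallyPathConnectedSpace X] (hg : ∀ A : Set X, Arc A → Good A) {D E F G : Set X}
  (hD : IsOpen D) (hE : IsOpen E) (hF : IsOpen F) (hG : IsOpen G) (hEc : IsPathConnected E)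
  (hFc : IsPathConnected F) (hDE : (D ∩ E).Nonempty) (hEF : (E ∩ F).Nonempty)
  (hFG : (F ∩ G).Nonempty) (dDF : Disjoint D F) (dEG : Disjoint E G)
include hg hD hE hF hG hEc hFc hDE hEF hFG dDF dEG

theorem exists_thr {P : Set X} (hP : Good P) : ∃ T : Thr D E F G, Disjoint T.im P := by
  obtain ⟨q, hq⟩ := hP.nonempty (hE.inter hF) hEF
  obtain ⟨w, hw⟩ := hP.nonempty (hF.inter hG) hFG
  obtain ⟨p, hp⟩ := hP.nonempty (hD.inter hE) hDE
  obtain ⟨β, hβ, hβF⟩ := exists_arc ((hP.2 F hF hFc).joinedIn q ⟨hq.1.2, hq.2⟩ w ⟨hw.1.1, hw.2⟩)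
    fun e => Set.disjoint_left.1 dEG hq.1.1 (e ▸ hw.1.2)
  obtain ⟨c₁, s₁, m₁, a1, a2, a3, a4, a5, a6, a7⟩ := exists_hit hβ.cont hβ.inj
    ((hP.2 E hE hEc).joinedIn p ⟨hp.1.2, hp.2⟩ q ⟨hq.1.1, hq.2⟩) ⟨0, by simp, hβ.zero⟩
    fun h => Set.disjoint_left.1 dDF hp.1.1 (hβF h).1
  have a8 : ∀ u ∈ Icc m₁ 1, c₁ u ∈ F \ P := fun u hu => by
    rw [a7 u hu.1]; exact hβF ⟨u, ⟨a3.1.trans hu.1, hu.2⟩, rfl⟩
  have hP' := hP.union (hg _ ⟨c₁, s₁, 1, a1, a4, rfl⟩)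
  have hB := ((hD.inter hE).sdiff hP.1).pathComponentIn p
  obtain ⟨p', hp'⟩ := hP'.nonempty hB ⟨p, mem_pathComponentIn_self hp⟩
  obtain ⟨q', hq'⟩ := hP'.nonempty (hE.inter hF) hEF
  obtain ⟨w', hw'⟩ := hP'.nonempty (hF.inter hG) hFG
  obtain ⟨c₂, s₂, m₂, b1, b2, b3, b4, b5, b6, b7⟩ := exists_hit a1 a4
    (D := E \ (P ∪ c₁ '' Icc s₁ 1) ∪ (D ∩ E) \ P) (w := q') (z := p)
    ((((hP'.2 E hE hEc).joinedIn q' ⟨hq'.1.1, hq'.2⟩ p'
      ⟨(pathComponentIn_subset hp'.1).1.2, hp'.2⟩).mono subset_union_left).trans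
        (hp'.1.symm.mono subset_union_right)) ⟨s₁, ⟨le_rfl, a2.trans a3.2⟩, a5⟩
    fun h => hq'.2 (Or.inr h)
  have b8 : c₁ m₂ ∈ D := by
    have := b6 m₂ ⟨b2, le_rfl⟩
    rw [b7 m₂ le_rfl] at this
    exact this.elim (fun h => absurd (Or.inr ⟨m₂, b3, rfl⟩) h.2) fun h => h.1.1
  have b9 : m₂ ≤ m₁ := by
    by_contra h
    exact Set.disjoint_left.1 dDF b8 (a8 m₂ ⟨(not_le.1 h).le, b3.2⟩).1
  have b10 : ∀ u ∈ Icc s₂ m₁, c₂ u ∈ E \ P := fun u hu => by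
    rcases le_total u m₂ with h | h
    · exact (b6 u ⟨hu.1, h⟩).elim (fun h => ⟨h.1, fun h' => h.2 (Or.inl h')⟩) fun h => ⟨h.1.2, h.2⟩
    · rw [b7 u h]; exact a6 u ⟨b3.1.trans h, hu.2⟩
  obtain ⟨c₃, s₃, m₃, c1, c2, c3, c4, c5, c6, c7⟩ := exists_hit b1 b4 (w := w') (z := q')
    ((hP'.2 F hF hFc).joinedIn w' ⟨hw'.1.1, hw'.2⟩ q' ⟨hq'.1.2, hq'.2⟩)
    ⟨s₂, ⟨le_rfl, b2.trans b3.2⟩, b5⟩ (by
      rintro ⟨u, hu, e⟩
      rcases le_total u m₂ with h | h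
      · exact Set.disjoint_left.1 dEG (b10 u ⟨hu.1, h.trans b9⟩).1 (e ▸ hw'.1.2)
      · exact hw'.2 (Or.inr ⟨u, ⟨b3.1.trans h, hu.2⟩, (b7 u h).symm.trans e⟩))
  have c8 : m₃ ≤ m₂ := by
    by_contra h
    have h' := (not_le.1 h).le
    refine (c6 m₃ ⟨c2, le_rfl⟩).2 (Or.inr ⟨m₃, ⟨b3.1.trans h', c3.2⟩, ?_⟩)
    rw [c7 m₃ le_rfl, b7 m₃ h']
  have c9 : ∀ u ∈ Icc m₃ m₁, c₃ u ∈ E \ P := fun u hu => by
    rw [c7 u hu.1]; exact b10 u ⟨c3.1.trans hu.1, hu.2⟩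
  have c10 : ∀ u ∈ Icc s₃ m₃ ∪ Icc m₁ 1, c₃ u ∈ F \ P := by
    rintro u (hu | hu)
    · exact ⟨(c6 u hu).1, fun h => (c6 u hu).2 (Or.inl h)⟩
    · rw [c7 u (c8.trans (b9.trans hu.1)), b7 u (b9.trans hu.1)]; exact a8 u hu
  refine ⟨⟨⟨c₃, c1⟩, s₃, m₃, m₂, m₁, 1, c2, c8, b9, a3.2, c4, ?_, fun u hu => (c9 u hu).1,
    fun u hu => (c10 u hu).1, (c5 ▸ hw'.1.2 : c₃ s₃ ∈ G), ?_⟩, Set.disjoint_left.2 ?_⟩
  · change c₃ m₂ ∈ D
    rwa [c7 m₂ c8, b7 m₂ le_rfl]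
  · change c₃ 1 ∈ G
    rw [c7 1 c3.2, b7 1 b3.2, a7 1 a3.2, hβ.one]
    exact hw.1.2
  · rintro _ ⟨u, hu, rfl⟩
    rcases le_total u m₃ with h | h
    · exact (c10 u (Or.inl ⟨hu.1, h⟩)).2
    · rcases le_total u m₁ with h' | h'
      exacts [(c9 u ⟨h, h'⟩).2, (c10 u (Or.inr ⟨h', hu.2⟩)).2]

theorem exists_thrs : ∀ N : ℕ, ∃ T : Fin N → Thr D E F G,
    Pairwise fun i j => Disjoint (T i).im (T j).im
  | 0 => ⟨Fin.elim0, fun i => i.elim0⟩
  | N + 1 => by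
    obtain ⟨T, hT⟩ := exists_thrs N
    obtain ⟨T₀, h₀⟩ := exists_thr hg hD hE hF hG hEc hFc hDE hEF hFG dDF dEG
      (good_iUnion fun i => hg _ (T i).arc)
    rw [disjoint_iUnion_right] at h₀
    exact ⟨Fin.cons T₀ T, pairwise_fin_succ_iff.2 ⟨fun i => (h₀ i).symm, h₀, hT⟩⟩

end Build

end Pool.Agent.Lib.MP_77749b_gt
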