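import Pool.Agent.Lib.MP_77749b_gt.LV

namespace Pool.Agent.Lib.MP_77749b_gt

open Set Finsupp Metric Topology Filter

universe u

variable {R : Type} [CommRing R] {X : Type u} [MetricSpace X]

/-- Weighted restriction of simplices. -/
noncomputable def capg {j k : ℕ} (r : Fin j → Fin k) :
    (Sx X k → R) →ₗ[R] Ch R X k →ₗ[R] Ch R X j where
  toFun g := lx fun σ => g σ • single (res r σ) 1
  map_add' g g' := LinearMap.ext (lin_ext _ _ fun σ => by simp only [lx_single,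
    LinearMap.add_apply, Pi.add_apply, add_smul])
  map_smul' a g := LinearMap.ext (lin_ext _ _ fun σ => by simp only [lx_single,
    LinearMap.smul_apply, Pi.smul_apply, smul_eq_mul, mul_smul, RingHom.id_apply])

theorem capg_single {j k : ℕ} (r : Fin j → Fin k) (g : Sx X k → R) (σ : Sx X k) :
    capg r g (single σ 1) = g σ • single (res r σ) 1 := lx_single _ _

theorem capg_CS {j k : ℕ} (r : Fin j → Fin k) (g : Sx X k → R) {P Q : Set X → Prop} (hQ : Low Q)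
    (h : ∀ σ : Sx X k, P (range σ) → g σ = 0 ∨ Q (range σ)) {c : Ch R X k} (hc : c ∈ CS R P k) :
    capg r g c ∈ CS R Q j := CS_lin _ _ (fun σ hσ => by
  rw [capg_single]
  rcases h σ hσ with h | h
  · rw [h, zero_smul]; exact Submodule.zero_mem _
  · exact Submodule.smul_mem _ _ (single_CS (hQ (range_res r σ) h) _)) hc

theorem capg_self {j k : ℕ} (r : Fin j → Fin k) (g : Sx X k → R) {P : Set X → Prop} (hP : Low P)
    {c : Ch R X k} (hc : c ∈ CS R P k) : capg r g c ∈ CS R P j :=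
  capg_CS r g hP (fun _ h => Or.inr h) hc

/-- Cap product with a function, evaluated at the `i`-th vertex. -/
noncomputable def cap0 {k : ℕ} (i : Fin k) : (X → R) →ₗ[R] Ch R X k →ₗ[R] Ch R X k :=
  (capg id).comp (LinearMap.funLeft R R fun σ => vx σ i)

theorem cap0_def {k : ℕ} (i : Fin k) (f : X → R) :
    cap0 i f = capg id fun σ => f (vx σ i) := rfl

theorem cap0_one {k : ℕ} (i : Fin k) (c : Ch R X k) : cap0 i (1 : X → R) c = c :=
  lin_ext _ LinearMap.id (fun σ => by simp [cap0_def, capg_single, res_id]) c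

/-- Cap product with a one dimensional cochain. -/
noncomputable def cap1 (k : ℕ) : (Ch R X 2 →ₗ[R] R) →ₗ[R] Ch R X (k + 2) →ₗ[R] Ch R X (k + 1) :=
  (capg Fin.succ).comp (LinearMap.pi fun σ => LinearMap.applyₗ (single (res ![0, 1] σ) 1))

theorem cap1_def (k : ℕ) (ξ : Ch R X 2 →ₗ[R] R) :
    cap1 k ξ = capg Fin.succ fun σ => ξ (single (res ![0, 1] σ) 1) := rfl

/-- Cap product with the coboundary of a one dimensional cochain. -/
noncomputable def cap2 (k : ℕ) (ξ : Ch R X 2 →ₗ[R] R) : Ch R X (k + 3) →ₗ[R] Ch R X (k + 1) :=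
  capg (Fin.succ ∘ Fin.succ) fun σ => ξ (bd 2 (single (res ![0, 1, 2] σ) 1))

theorem bd_cap0 {k : ℕ} (f : X → R) (c : Ch R X (k + 2)) : bd (k + 1) (cap0 0 f c) =
    cap0 0 f (bd (k + 1) c) - cap1 k ((ev f).comp (bd 1)) c := by
  refine lin_ext ((bd (k + 1)).comp (cap0 0 f))
    ((cap0 0 f).comp (bd (k + 1)) - cap1 k ((ev f).comp (bd 1))) (fun σ => ?_) c
  simp only [LinearMap.comp_apply, LinearMap.sub_apply, cap0_def, cap1_def, capg_single, res_id,
    ev_bd, map_smul, bd_single (k := k + 1), map_sum, vx_res]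
  rw [Fin.sum_univ_succ, Fin.sum_univ_succ (n := k + 1), smul_add, Finset.smul_sum]
  simp only [Fin.succ_succAbove_zero, Fin.succAbove_zero, smul_comm (f _), Fin.val_zero, pow_zero,
    one_smul, Matrix.cons_val_zero, Matrix.cons_val_one, Fin.succ_zero_eq_one, sub_smul]
  abel

theorem bd_cap1 {k : ℕ} (ξ : Ch R X 2 →ₗ[R] R) (c : Ch R X (k + 3)) :
    bd (k + 1) (cap1 (k + 1) ξ c) = cap2 k ξ c - cap1 k ξ (bd (k + 2) c) := by
  refine lin_ext ((bd (k + 1)).comp (cap1 (k + 1) ξ))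
    (cap2 k ξ - (cap1 k ξ).comp (bd (k + 2))) (fun σ => ?_) c
  have e0 : (Fin.succ : Fin (k + 2) → Fin (k + 3)) ∘ ![0, 1] = ![0, 1, 2] ∘ Fin.succ := by
    funext i; fin_cases i <;> rfl
  have e1 : (Fin.succAbove (Fin.succ 0) : Fin (k + 2) → Fin (k + 3)) ∘ ![0, 1] =
      ![0, 1, 2] ∘ Fin.succAbove 1 := by
    funext i; fin_cases i <;> rfl
  have e2 : ∀ j : Fin (k + 1), (Fin.succAbove j.succ.succ : Fin (k + 2) → Fin (k + 3)) ∘ ![0, 1] =
      ![0, 1] := fun j => by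
    funext i; fin_cases i <;> simp
  have e3 : (![0, 1, 2] : Fin 3 → Fin (k + 3)) ∘ Fin.succAbove 2 = ![0, 1] := by
    funext i; fin_cases i <;> rfl
  have e4 : ∀ j : Fin (k + 2), (Fin.succAbove j.succ : Fin (k + 2) → Fin (k + 3)) ∘ Fin.succ =
      Fin.succ ∘ Fin.succAbove j := fun j => by
    funext i; simp
  simp only [LinearMap.comp_apply, LinearMap.sub_apply, cap1_def, cap2, capg_single,
    map_smul, bd_single, map_sum, res_res]
  rw [Fin.sum_univ_succ, Fin.sum_univ_succ (n := k + 2), Fin.sum_univ_succ (n := k + 1),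
    Fin.sum_univ_three, smul_add, Finset.smul_sum]
  simp only [e0, e1, e2, e3, e4, Fin.succAbove_zero, Fin.val_zero, Fin.val_succ, Fin.val_one,
    Fin.val_two, pow_succ, pow_zero, one_smul, mul_neg_one, neg_smul, add_smul, neg_neg,
    smul_neg, smul_comm (ξ _), Finset.sum_neg_distrib, one_mul]
  abel

theorem cap2_CS {k : ℕ} {ξ : Ch R X 2 →ₗ[R] R} {W : Set X} (hξ : ∀ u ∈ In R W 3, ξ (bd 2 u) = 0)
    {Q : Set X → Prop} (hQ : Low Q) {c : Ch R X (k + 3)}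
    (hc : c ∈ CS R (fun B => Q B ∨ B ⊆ W) (k + 3)) : cap2 k ξ c ∈ CS R Q (k + 1) :=
  capg_CS _ _ hQ (fun σ hσ => hσ.symm.imp_left fun h =>
    hξ _ (single_CS (P := (· ⊆ W)) ((range_res _ _).trans h) _)) hc

theorem ev_cap2 (χ : X → R) (ξ : Ch R X 2 →ₗ[R] R) (y : Ch R X 3) :
    ev χ (cap2 0 ξ y) = ξ (bd 2 (cap0 2 χ y)) := by
  have e : (![0, 1, 2] : Fin 3 → Fin 3) = id := by funext i; fin_cases i <;> rfl
  have h : ∀ σ : Sx X 3, ev χ (cap2 0 ξ (single σ 1)) = ξ (bd 2 (cap0 2 χ (single σ 1))) := by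
    intro σ
    rw [cap2, cap0_def, capg_single, capg_single, map_smul, map_smul, map_smul, res_one, ev_pt, e,
      res_id, smul_eq_mul, smul_eq_mul, mul_comm]
    rfl
  have := lin_ext ((ev χ).comp (cap2 0 ξ)) (ξ.comp ((bd 2).comp (cap0 2 χ))) (fun σ => by
    simp only [LinearMap.comp_apply]; exact h σ) y
  simpa only [LinearMap.comp_apply] using this

/-- `f` is a primitive of `η` on `B`. -/
def Prim (η : Ch R X 2 →ₗ[R] R) (f : X → R) (B : Set X) : Prop :=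
  ∀ σ : Sx X 2, range σ ⊆ B → η (single σ 1) = f (vx σ 1) - f (vx σ 0)

theorem Prim.mono {η : Ch R X 2 →ₗ[R] R} {f : X → R} {B B' : Set X} (h : Prim η f B)
    (hB : B' ⊆ B) : Prim η f B' := fun σ hσ => h σ (hσ.trans hB)

theorem LEC.Ok.prim {L : LEC X} {y : X} {B U : Set X} (h : L.Ok y B U) {η : Ch R X 2 →ₗ[R] R}
    (hη : ∀ u ∈ In R U 3, η (bd 2 u) = 0) (γ : R) : ∃ f, Prim η f B ∧ f y = γ := by
  refine ⟨fun z => η (L.cone y 1 (single (pt z) 1)) - η (L.cone y 1 (single (pt y) 1)) + γ,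
    fun σ hσ => ?_, by simp⟩
  have := hη _ (h.cone_In (single_CS hσ (1 : R)))
  rw [h.bd_cone (single_CS hσ _), bd_edge, map_sub, map_sub, map_sub, sub_eq_zero] at this
  rw [this]
  ring

theorem Prim.bd_cap {η : Ch R X 2 →ₗ[R] R} {f : X → R} {y : X} {r r₀ δ : ℝ} {U : Set X}
    (h : Prim η f (ball y r₀)) (hr : r + δ ≤ r₀) (hU : ball y r ⊆ U) {c b : Ch R X 4}
    (hc : c ∈ CS R (Sm univ δ) 4) (h1 : bd 3 c ∈ In R Uᶜ 3)
    (h2 : bd 3 b - cap1 2 η c ∈ In R Uᶜ 3) : bd 3 (cap0 0 f c + b) ∈ In R (ball y r)ᶜ 3 := by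
  have e : bd 3 (cap0 0 f c + b) = cap0 0 f (bd 3 c) + (bd 3 b - cap1 2 η c) +
      cap1 2 (η - (ev f).comp (bd 1)) c := by
    rw [map_add, bd_cap0, map_sub, LinearMap.sub_apply]
    abel
  rw [e]
  refine Submodule.add_mem _ (In_mono (compl_subset_compl.2 hU) _
    (Submodule.add_mem _ (capg_self _ _ (low_sub _) h1) h2))
    (capg_CS _ _ (low_sub _) (fun σ hσ => or_iff_not_imp_right.2 fun hn => ?_) hc)
  obtain ⟨z, hz, hz'⟩ := not_subset.1 hn
  change (η - (ev f).comp (bd 1)) _ = 0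
  rw [LinearMap.sub_apply, LinearMap.comp_apply, ev_bd, h _ ((range_res _ _).trans fun w hw => ?_),
    sub_self]
  have := dist_triangle w z y
  have := hσ.2 w hw z hz
  exact mem_ball.2 (by linarith [mem_ball.1 (not_not.1 hz')])

/-- Monodromy: a globally propagating solution forces the cocycle to be trivial. -/
theorem LEC.monodromy {R : Type} [Field R] (L : LEC X) (hE : Eff X) {K U : Set X}
    (hK : IsCompact K) (hKc : IsPreconnected K) (hU : IsOpen U) (hKU : K ⊆ U) {r : ℝ} (hr : 0 < r) :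
    ∃ δ > 0, ∀ (η : Ch R X 2 →ₗ[R] R) (c b : Ch R X 4), (∀ u ∈ In R U 3, η (bd 2 u) = 0) →
      c ∈ CS R (Sm univ δ) 4 → bd 3 c ∈ In R Uᶜ 3 → bd 3 b - cap1 2 η c ∈ In R Uᶜ 3 →
      (∀ y ∈ K, c ∉ Br R {y} 4) → ∀ x ∈ K, ∀ f, Prim η f (ball x r) →
      cap0 0 f c + b ∈ Br R {x} 4 → ∀ μ ∈ In R K 2, bd 1 μ = 0 → η μ = 0 := by
  obtain ⟨ε, hε, hεU⟩ := hK.exists_thickening_subset_open hU hKU
  obtain ⟨r₀, hr₀, hle₀, ok₀⟩ := L.ok_unif hK (lt_min hε hr)
  obtain ⟨r₁, hr₁, hle₁, ok₁⟩ := L.ok_unif hK (half_pos hr₀)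
  have hb : ∀ y ∈ K, ball y (min ε r) ⊆ U := fun y hy =>
    (ball_subset_ball (min_le_left _ _)).trans ((ball_thick hy).trans hεU)
  refine ⟨r₁, hr₁, fun η c b hη hc h1 h2 hn x hx f₀ hf₀ h₀ μ hμ hμ0 => ?_⟩
  let Ev : X → R → Prop := fun y γ =>
    ∃ f, Prim η f (ball y r₀) ∧ f y = γ ∧ cap0 0 f c + b ∈ Br R {y} 4
  have cmp : ∀ y ∈ K, ∀ f f', Prim η f (ball y (r₀ / 2)) → Prim η f' (ball y (r₀ / 2)) →
      cap0 0 f c + b - (cap0 0 f' c + b) - (f y - f' y) • c ∈ Br R {y} 4 := by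
    intro y hy f f' hf hf'
    have e : cap0 0 f c + b - (cap0 0 f' c + b) - (f y - f' y) • c =
        cap0 0 (f - f' - (f y - f' y) • 1) c := by
      simp only [map_sub, map_smul, LinearMap.sub_apply, LinearMap.smul_apply, cap0_one]
      abel
    rw [e]
    refine In_Br (capg_CS _ _ (low_sub _) (fun σ hσ => or_iff_not_imp_right.2 fun hn => ?_) hc)
    rw [subset_compl_singleton_iff, not_not] at hn
    obtain ⟨τ, h1, h2, h3⟩ := exists_edge ((ok₁ y hy).joined (hσ.2 _ (vx_mem σ 0) y hn))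
    have := (hf τ h1).symm.trans (hf' τ h1)
    rw [h2, h3] at this
    change f _ - f' _ - (f y - f' y) * 1 = 0
    linear_combination -this
  have hh : ∀ y : X, ball y (r₀ / 2) ⊆ ball y r₀ := fun y => ball_subset_ball (half_le_self hr₀.le)
  have uniq : ∀ y ∈ K, ∀ γ γ', Ev y γ → Ev y γ' → γ = γ' := by
    rintro y hy _ _ ⟨f, a1, rfl, a2⟩ ⟨f', b1, rfl, b2⟩
    have := Submodule.sub_mem _ (Submodule.sub_mem _ a2 b2)
      (cmp y hy f f' (a1.mono (hh y)) (b1.mono (hh y)))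
    rw [sub_sub_cancel] at this
    by_contra hne
    exact hn y hy ((Submodule.smul_mem_iff _ (sub_ne_zero.2 hne)).1 this)
  have step : ∀ y ∈ K, ∀ y' ∈ K, dist y' y < r₁ → ∀ f, Prim η f (ball y r₀) →
      cap0 0 f c + b ∈ Br R {y} 4 → Ev y' (f y') := by
    intro y hy y' hy' hd f a1 a2
    obtain ⟨f', b1, b2⟩ := ((ok₀ y' hy').mono subset_rfl (hb y' hy')).prim hη (f y')
    have a3 := L.uc hE (isPathConnected_pathComponentIn (mem_ball_self (half_pos hr₀))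
      ).isConnected.isPreconnected (In_mono (compl_subset_compl.2 pathComponentIn_subset) _
        (a1.bd_cap (by linarith) ((hh y).trans ((ball_subset_ball hle₀).trans (hb y hy))) hc h1 h2))
      (mem_pathComponentIn_self (mem_ball_self (half_pos hr₀))) ((ok₁ y hy).joined hd).symm a2
    have := Submodule.sub_mem _ a3 (cmp y' hy' f f' (a1.mono (ball_subset_ball' (by linarith)))
      (b1.mono (hh y')))
    refine ⟨f', b1, b2, ?_⟩
    rwa [b2, sub_self, zero_smul, sub_zero, sub_sub_cancel] at this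
  have all : ∀ y ∈ K, ∃ γ, Ev y γ := fun y hy => by
    refine hKc.induction₂' (fun a b => (∃ γ, Ev a γ) → ∃ γ, Ev b γ) (fun a ha => ?_)
      (fun _ _ _ _ _ _ h1 h2 h3 => h2 (h1 h3)) hx hy
      ⟨_, f₀, hf₀.mono (ball_subset_ball (hle₀.trans (min_le_right _ _))), rfl, h₀⟩
    filter_upwards [mem_nhdsWithin_of_mem_nhds (ball_mem_nhds a hr₁), self_mem_nhdsWithin]
      with a' h3 h4
    exact ⟨fun ⟨_, f, a1, _, a2⟩ => ⟨_, step a ha a' h4 h3 f a1 a2⟩,
      fun ⟨_, f, a1, _, a2⟩ => ⟨_, step a' h4 a ha (mem_ball'.1 h3) f a1 a2⟩⟩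
  choose! γ hγ using all
  obtain ⟨n, hn⟩ := (eventually_SD_small μ hr₁).exists
  have h3 := CS_eq η ((ev γ).comp (bd 1)) (fun σ hσ => by
    obtain ⟨f, a1, a2, a3⟩ := hγ _ (hσ.1 (vx_mem σ 0))
    rw [LinearMap.comp_apply, ev_bd, a1 σ fun w hw => mem_ball.2
      ((hσ.2.2 w hw _ (vx_mem σ 0)).trans_le (by linarith)), a2,
      uniq _ (hσ.1 (vx_mem σ 1)) _ _ (hγ _ (hσ.1 (vx_mem σ 1))) (step _ (hσ.1 (vx_mem σ 0)) _
        (hσ.1 (vx_mem σ 1)) (hσ.2.2 _ (vx_mem σ 1) _ (vx_mem σ 0)) f a1 a3)])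
    (CS_and (SD_In n hμ) hn)
  have h4 := hη _ (TD_In n (In_mono hKU _ hμ))
  rw [bd_TD, hμ0, map_zero, sub_zero, map_sub, h3, LinearMap.comp_apply, bd_SD, hμ0] at h4
  simpa using h4

end Pool.Agent.Lib.MP_77749b_gt
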