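import Pool.Agent.Lib.MP_77749b_gt.Cone

namespace Pool.Agent.Lib.MP_77749b_gt

open Set Finsupp Metric

universe u

variable {R : Type} [CommRing R] {X : Type u} [MetricSpace X]

/-- Small subsets of `K`. -/
def Sm (K : Set X) (δ : ℝ) (B : Set X) : Prop := B ⊆ K ∧ ∀ x ∈ B, ∀ y ∈ B, dist x y < δ

theorem low_Sm (K : Set X) (δ : ℝ) : Low (Sm K δ) :=
  fun _ _ h h' => ⟨h.trans h'.1, fun x hx y hy => h'.2 x (h hx) y (h hy)⟩

theorem Sm.mono {K : Set X} {δ δ' : ℝ} {B : Set X} (h : Sm K δ B) (hδ : δ ≤ δ') : Sm K δ' B :=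
  ⟨h.1, fun x hx y hy => (h.2 x hx y hy).trans_le hδ⟩

theorem Sm.thick {K B : Set X} {δ ρ : ℝ} (h : Sm K δ B) {a : X} (ha : a ∈ B) :
    thickening ρ B ⊆ ball a (ρ + δ) := fun y hy => by
  obtain ⟨z, hz, hyz⟩ := mem_thickening_iff.1 hy
  exact mem_ball.2 ((dist_triangle y z a).trans_lt (add_lt_add hyz (h.2 z hz a ha)))

theorem ball_thick {B : Set X} {ρ : ℝ} {a : X} (ha : a ∈ B) : ball a ρ ⊆ thickening ρ B :=
  fun _ hy => mem_thickening_iff.2 ⟨a, ha, hy⟩

/-- High subdivisions consist of small simplices. -/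
theorem eventually_SD_small {k : ℕ} (c : Ch R X (k + 1)) {δ : ℝ} (hδ : 0 < δ) :
    ∀ᶠ n in Filter.atTop, SD n (k + 1) c ∈ CS R (Sm univ δ) (k + 1) := by
  filter_upwards [eventually_SD c (fun x => ball x (δ / 2)) (fun _ => isOpen_ball)
    (In_mono (fun x _ => mem_iUnion.2 ⟨x, mem_ball_self (half_pos hδ)⟩) _ (In_univ c))] with n hn
  refine CS_mono (fun B ⟨x, hx⟩ => ⟨subset_univ _, fun y hy z hz => ?_⟩) _ hn
  have := dist_triangle_right y z x
  linarith [mem_ball.1 (hx hy), mem_ball.1 (hx hz)]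

/-- A map with small carriers moves chains only a little. -/
theorem thick_In {P : Set X → Prop} {j k : ℕ} (D : Ch R X j →ₗ[R] Ch R X k) {ε : ℝ}
    (h : ∀ σ : Sx X j, P (range σ) → D (single σ 1) ∈ In R (thickening ε (range σ)) k)
    {A : Set X} {c : Ch R X j} (hc : c ∈ CS R P j) (hA : c ∈ In R A j) :
    D c ∈ In R (thickening ε A) k :=
  CS_lin _ _ (fun σ hσ => In_mono (thickening_subset_of_subset _ hσ.2) _ (h σ hσ.1)) (CS_and hc hA)

namespace LEC

variable (L : LEC X)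

/-- The homotopy built by coning. -/
noncomputable def cD (φ : ∀ k, Ch R X k →ₗ[R] Ch R X k) : ∀ k, Ch R X k →ₗ[R] Ch R X (k + 1)
  | 0 => 0
  | k + 1 => lx fun σ => L.cone (vx σ 0) (k + 1) (φ (k + 1) (single σ 1) - cD φ k (bd k (single σ 1)))

/-- Acyclic carrier lemma: a chain map with small carriers that vanishes on the augmentation is
null-homotopic by a homotopy with small carriers. -/
theorem carrier {K : Set X} (hK : IsCompact K) : ∀ (N : ℕ) {ε : ℝ}, 0 < ε → ∃ δ > 0,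
    ∀ (P : Set X → Prop), Low P → (∀ B, P B → Sm K δ B) →
    ∀ φ : ∀ k, Ch R X k →ₗ[R] Ch R X k, φ 0 = 0 →
      (∀ k < N, ∀ σ : Sx X (k + 1), P (range σ) →
        bd k (φ (k + 1) (single σ 1)) = φ k (bd k (single σ 1))) →
      (∀ k ≤ N, ∀ σ : Sx X k, P (range σ) → φ k (single σ 1) ∈ In R (thickening δ (range σ)) k) →
      (∀ k < N, ∀ c ∈ CS R P (k + 1),
        bd (k + 1) (L.cD φ (k + 1) c) = φ (k + 1) c - L.cD φ k (bd k c)) ∧
      ∀ k ≤ N, ∀ σ : Sx X k, P (range σ) →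
        L.cD φ k (single σ 1) ∈ In R (thickening ε (range σ)) (k + 1)
  | 0, ε, hε => ⟨1, one_pos, fun P _ _ φ _ _ _ => ⟨fun k hk => absurd hk (Nat.not_lt_zero k),
      fun k hk σ _ => by
        obtain rfl := Nat.le_zero.1 hk
        simp [cD]⟩⟩
  | N + 1, ε, hε => by
    obtain ⟨δ₁, hδ₁, hle, hok⟩ := L.ok_unif hK hε
    obtain ⟨δ', hδ', ih⟩ := carrier hK N (half_pos hδ₁)
    refine ⟨min δ' (δ₁ / 2), lt_min hδ' (half_pos hδ₁), fun P hP hPK φ h0 hφ hcar => ?_⟩
    obtain ⟨ih1, ih2⟩ := ih P hP (fun B hB => (hPK B hB).mono (min_le_left _ _)) φ h0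
      (fun k hk => hφ k (Nat.lt_succ_of_lt hk))
      (fun k hk σ hσ => In_mono (thickening_mono (min_le_left _ _) _) _
        (hcar k (Nat.le_succ_of_le hk) σ hσ))
    have hu : ∀ σ : Sx X (N + 1), P (range σ) →
        φ (N + 1) (single σ 1) - L.cD φ N (bd N (single σ 1)) ∈ In R (ball (vx σ 0) δ₁) (N + 1) := by
      intro σ hσ
      have hs : thickening (δ₁ / 2) (range σ) ⊆ ball (vx σ 0) δ₁ := by
        have := ((hPK _ hσ).mono (min_le_right _ _)).thick (ρ := δ₁ / 2) (vx_mem σ 0)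
        rwa [add_halves] at this
      refine In_mono hs _ (Submodule.sub_mem _ ?_ ?_)
      · exact In_mono (thickening_mono (min_le_right _ _) _) _ (hcar _ le_rfl σ hσ)
      · exact thick_In _ (ih2 N le_rfl) (bd_CS hP (single_CS hσ _))
          (bd_In (single_CS (P := (· ⊆ range σ)) subset_rfl _))
    have hz : ∀ σ : Sx X (N + 1), P (range σ) →
        bd N (φ (N + 1) (single σ 1) - L.cD φ N (bd N (single σ 1))) = 0 := by
      intro σ hσ
      rw [map_sub, hφ N (Nat.lt_succ_self N) σ hσ]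
      cases N with
      | zero => simp [cD, h0]
      | succ N => rw [ih1 N (Nat.lt_succ_self N) _ (bd_CS hP (single_CS hσ _)), bd_bd]; simp
    refine ⟨fun k hk c hc => ?_, fun k hk σ hσ => ?_⟩
    · rcases Nat.lt_succ_iff_lt_or_eq.1 hk with hk | rfl
      · exact ih1 k hk c hc
      · refine CS_eq ((bd (k + 1)).comp (L.cD φ (k + 1)))
          (φ (k + 1) - (L.cD φ k).comp (bd k)) (fun σ hσ => ?_) hc
        simp only [LinearMap.comp_apply, LinearMap.sub_apply]
        rw [cD, lx_single, (hok _ ((hPK _ hσ).1 (vx_mem σ 0))).bd_cone (hu σ hσ), hz σ hσ, map_zero,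
          sub_zero]
    · rcases Nat.le_succ_iff.1 hk with hk | rfl
      · exact In_mono (thickening_mono ((half_le_self hδ₁.le).trans hle) _) _ (ih2 k hk σ hσ)
      · rw [cD, lx_single]
        exact In_mono (ball_thick (vx_mem σ 0)) _
          ((hok _ ((hPK _ hσ).1 (vx_mem σ 0))).cone_In (hu σ hσ))

/-- The empty simplex. -/
def es (X : Type u) [TopologicalSpace X] : Sx X 0 := ⟨isEmptyElim, continuous_of_discreteTopology⟩

/-- Geometric realisation of tuples of points by iterated cones. -/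
noncomputable def gr : ∀ k, Tp R X k →ₗ[R] Ch R X k
  | 0 => lx fun _ => single (es X) 1
  | k + 1 => lx fun w => L.cone (w 0) k (gr k (single (Fin.tail w) 1))

theorem gr_tc (a : X) {k : ℕ} (c : Tp R X k) : L.gr (k + 1) (tc a k c) = L.cone a k (L.gr k c) := by
  refine lin_ext ((L.gr (k + 1)).comp (tc a k)) ((L.cone a k).comp (L.gr k)) (fun v => ?_) c
  simp only [LinearMap.comp_apply, tc_single]
  rw [gr, lx_single]
  simp

theorem gr_spec {K : Set X} (hK : IsCompact K) : ∀ (N : ℕ) {ε : ℝ}, 0 < ε → ∃ δ > 0, ∀ a : X,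
    (∀ k ≤ N, ∀ c ∈ supported R R {w : Fin k → X | ∀ i, w i ∈ K ∩ ball a δ},
      L.gr k c ∈ In R (ball a ε) k) ∧
    ∀ k < N, ∀ c ∈ supported R R {w : Fin (k + 1) → X | ∀ i, w i ∈ K ∩ ball a δ},
      bd k (L.gr (k + 1) c) = L.gr k (tb k c)
  | 0, ε, hε => ⟨1, one_pos, fun a => ⟨fun k hk c _ => by
      obtain rfl := Nat.le_zero.1 hk
      exact In_zero _ _, fun k hk => absurd hk (Nat.not_lt_zero k)⟩⟩
  | N + 1, ε, hε => by
    obtain ⟨δ₁, hδ₁, hle, hok⟩ := L.ok_unif hK (half_pos hε)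
    obtain ⟨δ', hδ', ih⟩ := gr_spec hK N (half_pos hδ₁)
    refine ⟨min δ' (δ₁ / 2), lt_min hδ' (half_pos hδ₁), fun a => ?_⟩
    obtain ⟨ih1, ih2⟩ := ih a
    have hm : ∀ k, supported R R {w : Fin k → X | ∀ i, w i ∈ K ∩ ball a (min δ' (δ₁ / 2))} ≤
        supported R R {w : Fin k → X | ∀ i, w i ∈ K ∩ ball a δ'} := fun k =>
      supported_mono fun w hw i => ⟨(hw i).1, ball_subset_ball (min_le_left _ _) (hw i).2⟩
    have ht : ∀ w : Fin (N + 1) → X, (∀ i, w i ∈ K ∩ ball a (min δ' (δ₁ / 2))) →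
        single (Fin.tail w) (1 : R) ∈ supported R R {w : Fin N → X | ∀ i, w i ∈ K ∩ ball a δ'} :=
      fun w hw => hm _ (single_mem (by exact fun i => hw i.succ) _)
    have hu : ∀ w : Fin (N + 1) → X, (∀ i, w i ∈ K ∩ ball a (min δ' (δ₁ / 2))) →
        L.gr N (single (Fin.tail w) (1 : R)) ∈ In R (ball (w 0) δ₁) N := fun w hw => by
      refine In_mono (fun y hy => ?_) _ (ih1 N le_rfl _ (ht w hw))
      have := lt_of_lt_of_le (mem_ball.1 (hw 0).2) (min_le_right _ _)
      have := dist_triangle_right y (w 0) a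
      exact mem_ball.2 (by linarith [mem_ball.1 hy])
    refine ⟨fun k hk c hc => ?_, fun k hk c hc => ?_⟩
    · rcases Nat.le_succ_iff.1 hk with hk | rfl
      · exact In_mono (ball_subset_ball (by linarith)) _ (ih1 k hk c (hm k hc))
      · refine lin_mem _ _ (fun w hw => ?_) hc
        rw [gr, lx_single]
        refine In_mono (fun y hy => ?_) _ ((hok _ (hw 0).1).cone_In (hu w hw))
        have := lt_of_lt_of_le (mem_ball.1 (hw 0).2) (min_le_right _ _)
        have := dist_triangle y (w 0) a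
        exact mem_ball.2 (by linarith [mem_ball.1 hy])
    · rcases Nat.lt_succ_iff_lt_or_eq.1 hk with hk | rfl
      · exact ih2 k hk c (hm _ hc)
      · refine lin_eq ((bd k).comp (L.gr (k + 1))) ((L.gr k).comp (tb k)) (fun w hw => ?_) hc
        simp only [LinearMap.comp_apply]
        rw [← Fin.cons_self_tail w, ← tc_single, gr_tc]
        cases k with
        | zero => rw [bd_cone_zero, tb_tc_zero]
        | succ k =>
          rw [(hok _ (hw 0).1).bd_cone (hu w hw), tb_tc, map_sub, gr_tc,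
            ih2 k (Nat.lt_succ_self k) _ (ht w hw)]

end LEC

section Nerve

variable {ι : Type} [LinearOrder ι]

/-- Increasing tuples with entries in `S`. -/
def Inc (S : Set ι) (k : ℕ) : Set (Fin k → ι) := {w | StrictMono w ∧ ∀ i, w i ∈ S}

/-- The contraction of the complex of increasing tuples. -/
noncomputable def hc (m : ι) : ∀ k, Tp R ι k →ₗ[R] Tp R ι (k + 1)
  | 0 => tc m 0
  | k + 1 => lx fun w => if w 0 = m then 0 else single (Fin.cons m w) 1

theorem tb_Inc {S : Set ι} {k : ℕ} {c : Tp R ι (k + 1)} (h : c ∈ supported R R (Inc S (k + 1))) :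
    tb k c ∈ supported R R (Inc S k) :=
  tb_mem (fun v hv i => And.intro (hv.1.comp (Fin.strictMono_succAbove i)) fun j => hv.2 _) h

theorem hc_Inc {S : Set ι} {m : ι} (hm : IsLeast S m) : ∀ {k : ℕ} {c : Tp R ι k},
    c ∈ supported R R (Inc S k) → hc m k c ∈ supported R R (Inc S (k + 1))
  | 0, c, h => by
    refine md_mem _ (fun w _ => ?_) h
    exact ⟨fun i j hij => absurd hij (by omega), fun i => by rw [Fin.fin_one_eq_zero i]; exact hm.1⟩
  | k + 1, c, h => lin_mem _ _ (fun w hw => by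
      rw [hc, lx_single]
      split_ifs with h0
      · exact Submodule.zero_mem _
      · refine single_mem ?_ _
        refine ⟨?_, fun i => Fin.cases hm.1 (fun i => hw.2 i) i⟩
        exact hw.1.vecCons (lt_of_le_of_ne (hm.2 (hw.2 0)) (Ne.symm h0))) h

theorem hc_of_ne {m : ι} : ∀ {k : ℕ} {c : Tp R ι k},
    c ∈ supported R R {w | ∀ i, w i ≠ m} → hc m k c = tc m k c
  | 0, _, _ => rfl
  | k + 1, c, h => lin_eq _ _ (fun w hw => by rw [hc, lx_single, if_neg (hw 0), tc_single]) h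

theorem hc_tc (m : ι) {k : ℕ} (c : Tp R ι k) : hc m (k + 1) (tc m k c) = 0 := by
  refine lin_ext ((hc m (k + 1)).comp (tc m k)) 0 (fun v => ?_) c
  simp only [LinearMap.comp_apply, tc_single]
  rw [hc, lx_single, if_pos (Fin.cons_zero _ _)]
  rfl

theorem tb_hc {S : Set ι} {m : ι} (hm : IsLeast S m) {k : ℕ} {c : Tp R ι (k + 1)}
    (h : c ∈ supported R R (Inc S (k + 1))) :
    tb (k + 1) (hc m (k + 1) c) = c - hc m k (tb k c) := by
  refine lin_eq ((tb (k + 1)).comp (hc m (k + 1))) (LinearMap.id - (hc m k).comp (tb k))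
    (fun w hw => ?_) h
  simp only [LinearMap.comp_apply, LinearMap.sub_apply, LinearMap.id_apply]
  by_cases h0 : w 0 = m
  · have ht : single (Fin.tail w) (1 : R) ∈ supported R R {w : Fin k → ι | ∀ i, w i ≠ m} :=
      single_mem (fun i => h0 ▸ (hw.1 (Fin.succ_pos i)).ne') _
    rw [← Fin.cons_self_tail w, ← tc_single, h0, hc_tc, map_zero]
    cases k with
    | zero => rw [tb_tc_zero, hc_of_ne ht, sub_self]
    | succ k => rw [tb_tc, map_sub, hc_tc, hc_of_ne ht, sub_zero, sub_self]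
  · have hne : ∀ i, w i ≠ m := fun i =>
      ((lt_of_le_of_ne (hm.2 (hw.2 0)) (Ne.symm h0)).trans_le (hw.1.monotone (Fin.zero_le i))).ne'
    have ht : single w (1 : R) ∈ supported R R {w : Fin (k + 1) → ι | ∀ i, w i ≠ m} :=
      single_mem (by exact hne) _
    rw [hc_of_ne ht, tb_tc, hc_of_ne (tb_mem (P := {w : Fin (k + 1) → ι | ∀ i, w i ≠ m})
      (Q := {w : Fin k → ι | ∀ i, w i ≠ m}) (fun v hv i j => hv _) ht)]

variable (idx : X → ι)

/-- The indices of the vertices. -/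
def vs {k : ℕ} (σ : Sx X k) : Set ι := range fun i => idx (vx σ i)

/-- The least index of a vertex. -/
noncomputable def mn {k : ℕ} (σ : Sx X (k + 1)) : ι :=
  Finset.univ.inf' Finset.univ_nonempty fun i => idx (vx σ i)

theorem isLeast_mn {k : ℕ} (σ : Sx X (k + 1)) : IsLeast (vs idx σ) (mn idx σ) := by
  refine ⟨?_, ?_⟩
  · obtain ⟨i, -, hi⟩ := Finset.exists_mem_eq_inf' Finset.univ_nonempty fun i => idx (vx σ i)
    exact ⟨i, hi.symm⟩
  · rintro _ ⟨i, rfl⟩
    exact Finset.inf'_le _ (Finset.mem_univ i)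

/-- The chain map to the nerve. -/
noncomputable def nv : ∀ k, Ch R X k →ₗ[R] Tp R ι k
  | 0 => lx fun _ => single Fin.elim0 1
  | k + 1 => lx fun σ => hc (mn idx σ) k (nv k (bd k (single σ 1)))

theorem nv_single {k : ℕ} (σ : Sx X (k + 1)) : nv idx (k + 1) (single σ (1 : R)) =
    hc (mn idx σ) k (nv idx k (bd k (single σ 1))) := by rw [nv, lx_single]

theorem nv_bd_Inc {k : ℕ} (ih : ∀ σ : Sx X k, nv idx k (single σ (1 : R)) ∈
    supported R R (Inc (vs idx σ) k)) (σ : Sx X (k + 1)) :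
    nv idx k (bd k (single σ (1 : R))) ∈ supported R R (Inc (vs idx σ) k) := by
  rw [bd_single, map_sum]
  refine Submodule.sum_mem _ fun i _ => ?_
  rw [map_smul]
  refine Submodule.smul_mem _ _ (supported_mono (fun w hw => And.intro hw.1 fun j => ?_) (ih _))
  obtain ⟨l, hl⟩ := hw.2 j
  exact ⟨i.succAbove l, by rw [← hl]; simp only [vx_res]⟩

theorem nv_Inc : ∀ (k : ℕ) (σ : Sx X k), nv idx k (single σ (1 : R)) ∈
    supported R R (Inc (vs idx σ) k)
  | 0, σ => (mem_supported _ _).2 fun _ _ => ⟨fun i => i.elim0, fun i => i.elim0⟩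
  | k + 1, σ => by
    rw [nv, lx_single]
    exact hc_Inc (isLeast_mn idx σ) (nv_bd_Inc idx (nv_Inc k) σ)

theorem tb_nv : ∀ (k : ℕ) (c : Ch R X (k + 1)), tb k (nv idx (k + 1) c) = nv idx k (bd k c)
  | 0, c => by
    refine lin_ext ((tb 0).comp (nv idx 1)) ((nv idx 0).comp (bd 0)) (fun σ => ?_) c
    simp only [LinearMap.comp_apply]
    rw [nv_single, hc, tb_tc_zero]
  | k + 1, c => by
    refine lin_ext ((tb (k + 1)).comp (nv idx (k + 2))) ((nv idx (k + 1)).comp (bd (k + 1)))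
      (fun σ => ?_) c
    simp only [LinearMap.comp_apply]
    rw [nv_single, tb_hc (isLeast_mn idx σ) (nv_bd_Inc idx (nv_Inc idx _) σ), tb_nv k, bd_bd]
    simp

end Nerve

/-- Compact sets have fine covers of order at most `n + 1`. -/
def FineCov (X : Type u) [MetricSpace X] (n : ℕ) : Prop :=
  ∀ K : Set X, IsCompact K → ∀ η > 0, ∃ (l : ℕ) (V : Fin (l + 1) → Set X), (∀ j, IsOpen (V j)) ∧
    K ⊆ ⋃ j, V j ∧ (∀ j, ∀ x ∈ V j, ∀ y ∈ V j, dist x y < η) ∧ ∀ x, {j | x ∈ V j}.ncard ≤ n + 1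

/-- Factorisation through the nerve. -/
theorem LEC.nerve (L : LEC X) [Nonempty X] {n : ℕ} (hd : FineCov X n) {K : Set X}
    (hK : IsCompact K) (k : ℕ) {ε : ℝ} (hε : 0 < ε) : ∃ δ > 0, ∃ M : Submodule R (Ch R X (k + 1)),
      M.FG ∧ (n + 1 ≤ k → M = ⊥) ∧ ∀ c ∈ CS R (Sm K δ) (k + 1), ∀ A, bd k c ∈ In R A k →
        ∃ m ∈ M, ∃ d, ∃ e ∈ In R (thickening ε A) (k + 1), c = m + bd (k + 1) d + e := by
  classical
  obtain ⟨δ₁, hδ₁, h1⟩ := L.carrier (R := R) hK (k + 1) hε
  obtain ⟨δ₂, hδ₂, h2⟩ := L.gr_spec (R := R) hK (k + 1) hδ₁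
  obtain ⟨l, V, hVo, hVK, hVs, hVn⟩ := hd K hK (δ₂ / 2) (half_pos hδ₂)
  obtain ⟨lam, hlam, hL⟩ := lebesgue_number_lemma_of_metric hK hVo hVK
  choose! idx hidx using hL
  have hx : ∀ j, ∃ x : X, (V j ∩ K).Nonempty → x ∈ V j ∩ K := fun j => by
    by_cases h : (V j ∩ K).Nonempty
    · exact ⟨h.some, fun _ => h.some_mem⟩
    · exact ⟨Classical.arbitrary X, fun h' => absurd h' h⟩
  choose x hx using hx
  set δ := min δ₁ (min (δ₂ / 2) lam) with hδ
  have hδ1 : δ ≤ δ₁ := min_le_left _ _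
  have hδ2 : δ ≤ δ₂ / 2 := (min_le_right _ _).trans (min_le_left _ _)
  have hδ3 : δ ≤ lam := (min_le_right _ _).trans (min_le_right _ _)
  let T : ∀ j, Ch R X j →ₗ[R] Ch R X j := fun j => (L.gr j).comp ((tm x j).comp (nv idx j))
  have hw : ∀ (j i : ℕ) (σ : Sx X (j + 1)), Sm K δ (range σ) → ∀ c ∈ supported R R
      (Inc (vs idx σ) i), tm x i c ∈ supported R R
        {w : Fin i → X | ∀ i, w i ∈ K ∩ ball (vx σ 0) δ₂} := by
    intro j i σ hσ c hc
    refine md_mem _ (fun w hw i => ?_) hc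
    obtain ⟨a, ha⟩ := hw.2 i
    have hy : vx σ a ∈ V (w i) := by
      rw [← ha]; exact hidx _ (hσ.1 (vx_mem σ a)) (mem_ball_self hlam)
    have hxi := hx (w i) ⟨_, hy, hσ.1 (vx_mem σ a)⟩
    refine ⟨hxi.2, mem_ball.2 ?_⟩
    have := hVs _ _ hxi.1 _ hy
    have := hσ.2 _ (vx_mem σ a) _ (vx_mem σ 0)
    have := dist_triangle (x (w i)) (vx σ a) (vx σ 0)
    change dist (x (w i)) _ < _
    linarith
  obtain ⟨hD1, hD2⟩ := h1 (Sm K δ) (low_Sm _ _) (fun B hB => hB.mono hδ1)
    (fun j => T j - LinearMap.id) (by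
      refine LinearMap.ext fun c => lin_ext _ _ (fun σ => ?_) c
      simp only [T, LinearMap.sub_apply, LinearMap.comp_apply, LinearMap.id_apply]
      rw [nv, lx_single, tm_single, LEC.gr, lx_single, Subsingleton.elim (LEC.es X) σ, sub_self]
      rfl)
    (fun j hj σ hσ => by
      simp only [T, LinearMap.sub_apply, LinearMap.comp_apply, LinearMap.id_apply, map_sub]
      rw [(h2 (vx σ 0)).2 j hj _ (hw _ _ σ hσ _ (nv_Inc idx _ σ)), ← tm_tb, tb_nv])
    (fun j hj σ hσ => by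
      cases j with
      | zero => exact In_zero _ _
      | succ j =>
        refine Submodule.sub_mem _ (In_mono (ball_thick (vx_mem σ 0)) _
          ((h2 (vx σ 0)).1 _ hj _ (hw _ _ σ hσ _ (nv_Inc idx _ σ)))) ?_
        exact single_CS (P := (· ⊆ thickening δ₁ (range σ))) (self_subset_thickening hδ₁ _) _)
  refine ⟨δ, lt_min hδ₁ (lt_min (half_pos hδ₂) hlam),
    if n + 1 ≤ k then ⊥ else LinearMap.range ((L.gr (k + 1)).comp (tm x (k + 1))), ?_,
    fun h => if_pos h, fun c hc A hA => ⟨T (k + 1) c, ?_,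
      -L.cD (fun j => T j - LinearMap.id) (k + 1) c,
      -L.cD (fun j => T j - LinearMap.id) k (bd k c), Submodule.neg_mem _
        (thick_In _ (hD2 k (Nat.le_succ k)) (bd_CS (low_Sm _ _) hc) hA), ?_⟩⟩
  · split_ifs
    · exact Submodule.fg_bot
    · rw [LinearMap.range_eq_map]
      exact Module.Finite.fg_top.map _
  · split_ifs with h
    · refine CS_lin _ _ (fun σ hσ => ?_) hc
      have : nv idx (k + 1) (single σ (1 : R)) = 0 := by
        have h0 := nv_Inc (R := R) idx (k + 1) σ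
        have he : Inc (vs idx σ) (k + 1) = ∅ := by
          refine eq_empty_of_forall_notMem fun w hw => ?_
          have hsub : range w ⊆ {j | vx σ 0 ∈ V j} := by
            rintro _ ⟨i, rfl⟩
            obtain ⟨a, ha⟩ := hw.2 i
            change vx σ 0 ∈ V (w i)
            rw [← ha]
            exact hidx _ (hσ.1 (vx_mem σ a))
              (mem_ball.2 ((hσ.2 _ (vx_mem σ 0) _ (vx_mem σ a)).trans_le hδ3))
          have := (ncard_le_ncard hsub).trans (hVn _)
          rw [ncard_range_of_injective hw.1.injective] at this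
          simp at this
          omega
        rwa [he, supported_empty, Submodule.mem_bot] at h0
      simp only [T, LinearMap.comp_apply, this, map_zero, Submodule.zero_mem]
    · exact ⟨_, rfl⟩
  · rw [map_neg, hD1 k (Nat.lt_succ_self k) c hc]
    simp only [LinearMap.sub_apply, LinearMap.id_apply]
    abel

end Pool.Agent.Lib.MP_77749b_gt
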