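import Pool.Agent.Lib.MP_77749b_gt.Tuple

namespace Pool.Agent.Lib.MP_77749b_gt

open Set Finsupp Metric

universe u

/-- The standard simplex with `k` vertices. -/
abbrev Dl (k : ℕ) : Type := stdSimplex ℝ (Fin k)

/-- Singular simplices with `k` vertices. -/
abbrev Sx (X : Type u) [TopologicalSpace X] (k : ℕ) : Type u := C(Dl k, X)

/-- Singular chains of simplices with `k` vertices. -/
abbrev Ch (R : Type) [CommRing R] (X : Type u) [TopologicalSpace X] (k : ℕ) : Type u := Sx X k →₀ R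

variable {R : Type} [CommRing R] {X : Type u} [TopologicalSpace X]

/-- Restriction of a simplex along a map of vertex sets. -/
noncomputable def res {j k : ℕ} (g : Fin j → Fin k) (σ : Sx X k) : Sx X j :=
  σ.comp ⟨stdSimplex.map g, stdSimplex.continuous_map _⟩

theorem res_apply {j k : ℕ} (g : Fin j → Fin k) (σ : Sx X k) (p : Dl j) :
    res g σ p = σ (stdSimplex.map g p) := rfl

theorem res_res {i j k : ℕ} (g : Fin i → Fin j) (g' : Fin j → Fin k) (σ : Sx X k) :
    res g (res g' σ) = res (g' ∘ g) σ := by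
  ext p
  simp only [res_apply, stdSimplex.map_comp_apply]

theorem res_id {k : ℕ} (σ : Sx X k) : res id σ = σ := by
  ext p
  simp only [res_apply, stdSimplex.map_id_apply]

theorem range_res {j k : ℕ} (g : Fin j → Fin k) (σ : Sx X k) : range (res g σ) ⊆ range σ := by
  rintro _ ⟨p, rfl⟩
  exact ⟨_, rfl⟩

/-- The `i`-th vertex of a simplex. -/
noncomputable def vx {k : ℕ} (σ : Sx X k) (i : Fin k) : X := σ (stdSimplex.vertex i)

theorem vx_res {j k : ℕ} (g : Fin j → Fin k) (σ : Sx X k) (i : Fin j) :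
    vx (res g σ) i = vx σ (g i) := by
  simp only [vx, res_apply, stdSimplex.map_vertex]

theorem vx_mem {k : ℕ} (σ : Sx X k) (i : Fin k) : vx σ i ∈ range σ := ⟨_, rfl⟩

instance : IsEmpty (Dl 0) := ⟨fun p => by simpa using p.2.2⟩

instance : Subsingleton (Sx X 0) := ⟨fun a b => by ext p; exact isEmptyElim p⟩

theorem range_zero (σ : Sx X 0) : range σ = ∅ := range_eq_empty _

theorem range_one (σ : Sx X 1) : range σ = {vx σ 0} := by
  ext y
  constructor
  · rintro ⟨p, rfl⟩
    rw [Subsingleton.elim p (stdSimplex.vertex 0)]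
    rfl
  · rintro rfl
    exact vx_mem _ _

/-- The simplex with one vertex. -/
def pt (x : X) : Sx X 1 := ContinuousMap.const _ x

theorem vx_pt (x : X) : vx (pt x) 0 = x := rfl

theorem pt_vx (σ : Sx X 1) : pt (vx σ 0) = σ := by
  ext p
  rw [Subsingleton.elim p (stdSimplex.vertex 0)]
  rfl

theorem range_pt (x : X) : range (pt x) = {x} := range_one _

/-- The boundary operator. -/
noncomputable def bd (k : ℕ) : Ch R X (k + 1) →ₗ[R] Ch R X k :=
  ∑ i : Fin (k + 1), (-1 : R) ^ (i : ℕ) • md (res i.succAbove)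

theorem bd_single {k : ℕ} (σ : Sx X (k + 1)) :
    bd k (single σ (1 : R)) =
      ∑ i : Fin (k + 1), (-1 : R) ^ (i : ℕ) • single (res i.succAbove σ) 1 := by
  simp [bd, LinearMap.sum_apply]

/-- Realisations of tuples commute with boundaries. -/
theorem bd_md {α : Type*} {k : ℕ} (ρ : (Fin (k + 1) → α) → Sx X (k + 1))
    (ρ' : (Fin k → α) → Sx X k) {P : Set (Fin (k + 1) → α)}
    (h : ∀ v ∈ P, ∀ i : Fin (k + 1), res i.succAbove (ρ v) = ρ' (v ∘ i.succAbove))
    {c : Tp R α (k + 1)} (hc : c ∈ supported R R P) : bd k (md ρ c) = md ρ' (tb k c) := by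
  refine lin_eq ((bd k).comp (md ρ)) ((md ρ').comp (tb k)) (fun v hv => ?_) hc
  simp only [LinearMap.comp_apply, md_single, bd_single, tb_single, map_sum, map_smul, h v hv]

theorem bd_bd (k : ℕ) (c : Ch R X (k + 2)) : bd k (bd (k + 1) c) = 0 := by
  refine lin_ext ((bd k).comp (bd (k + 1))) 0 (fun σ => ?_) c
  have h : ∀ j (d : Tp R (Fin (k + 2)) (j + 1)),
      bd j (md (fun g => res g σ) d) = md (fun g => res g σ) (tb j d) := fun j d =>
    bd_md (P := univ) _ _ (fun v _ i => res_res _ _ _) (by simp)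
  have e : single σ (1 : R) = md (fun g : Fin (k + 2) → Fin (k + 2) => res g σ) (single id 1) := by
    rw [md_single, res_id]
  rw [LinearMap.comp_apply, e, h, h, tb_tb]
  simp

/-- Chains whose simplices have their image in the family `P`. -/
noncomputable def CS (R : Type) [CommRing R] (P : Set X → Prop) (k : ℕ) : Submodule R (Ch R X k) :=
  supported R R {σ | P (range σ)}

/-- Chains supported in `A`. -/
noncomputable abbrev In (R : Type) [CommRing R] (A : Set X) (k : ℕ) : Submodule R (Ch R X k) :=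
  CS R (· ⊆ A) k

/-- A family of sets closed under taking subsets. -/
def Low (P : Set X → Prop) : Prop := ∀ ⦃B B' : Set X⦄, B' ⊆ B → P B → P B'

theorem low_sub (A : Set X) : Low (· ⊆ A) := fun _ _ h h' => h.trans h'

theorem Low.and {P Q : Set X → Prop} (hP : Low P) (hQ : Low Q) : Low fun B => P B ∧ Q B :=
  fun _ _ h h' => ⟨hP h h'.1, hQ h h'.2⟩

theorem Low.or {P Q : Set X → Prop} (hP : Low P) (hQ : Low Q) : Low fun B => P B ∨ Q B :=
  fun _ _ h h' => h'.imp (hP h) (hQ h)

theorem mem_CS {P : Set X → Prop} {k : ℕ} {c : Ch R X k} :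
    c ∈ CS R P k ↔ ∀ σ ∈ c.support, P (range σ) := mem_supported R c

theorem CS_mono {P Q : Set X → Prop} (h : ∀ B, P B → Q B) (k : ℕ) : CS R P k ≤ CS R Q k :=
  supported_mono fun σ hσ => h _ hσ

theorem In_mono {A B : Set X} (h : A ⊆ B) (k : ℕ) : In R A k ≤ In R B k :=
  CS_mono (fun _ h' => h'.trans h) k

theorem single_CS {P : Set X → Prop} {k : ℕ} {σ : Sx X k} (h : P (range σ)) (r : R) :
    single σ r ∈ CS R P k := single_mem (P := {σ : Sx X k | P (range σ)}) h r

theorem CS_and {P Q : Set X → Prop} {k : ℕ} {c : Ch R X k} (hP : c ∈ CS R P k)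
    (hQ : c ∈ CS R Q k) : c ∈ CS R (fun B => P B ∧ Q B) k :=
  mem_CS.2 fun σ hσ => ⟨mem_CS.1 hP σ hσ, mem_CS.1 hQ σ hσ⟩

theorem In_inter {A B : Set X} {k : ℕ} {c : Ch R X k} (hA : c ∈ In R A k) (hB : c ∈ In R B k) :
    c ∈ In R (A ∩ B) k := CS_mono (fun _ h => subset_inter h.1 h.2) k (CS_and hA hB)

theorem In_univ {k : ℕ} (c : Ch R X k) : c ∈ In R univ k := mem_CS.2 fun _ _ => subset_univ _

theorem In_zero (A : Set X) (c : Ch R X 0) : c ∈ In R A 0 :=
  mem_CS.2 fun σ _ => by rw [range_zero]; exact empty_subset _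

theorem CS_lin {N : Type*} [AddCommGroup N] [Module R N] {P : Set X → Prop} {k : ℕ}
    (f : Ch R X k →ₗ[R] N) (S : Submodule R N) (h : ∀ σ : Sx X k, P (range σ) → f (single σ 1) ∈ S)
    {c : Ch R X k} (hc : c ∈ CS R P k) : f c ∈ S := lin_mem f S h hc

theorem CS_eq {N : Type*} [AddCommGroup N] [Module R N] {P : Set X → Prop} {k : ℕ}
    (f g : Ch R X k →ₗ[R] N) (h : ∀ σ : Sx X k, P (range σ) → f (single σ 1) = g (single σ 1))
    {c : Ch R X k} (hc : c ∈ CS R P k) : f c = g c := lin_eq f g h hc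

theorem bd_CS {P : Set X → Prop} (hP : Low P) {k : ℕ} {c : Ch R X (k + 1)}
    (hc : c ∈ CS R P (k + 1)) : bd k c ∈ CS R P k :=
  CS_lin _ _ (fun σ hσ => by
    rw [bd_single]
    exact Submodule.sum_mem _ fun i _ =>
      Submodule.smul_mem _ _ (single_CS (hP (range_res _ _) hσ) _)) hc

theorem bd_In {A : Set X} {k : ℕ} {c : Ch R X (k + 1)} (hc : c ∈ In R A (k + 1)) :
    bd k c ∈ In R A k := bd_CS (low_sub A) hc

/-- Splitting a chain according to a property of its simplices. -/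
theorem exists_split {k : ℕ} (c : Ch R X k) (Q : Set X → Prop) :
    ∃ c₁ c₂ : Ch R X k, c = c₁ + c₂ ∧ c₁ ∈ CS R Q k ∧ c₂ ∈ CS R (fun B => ¬ Q B) k ∧
      ∀ P : Set X → Prop, c ∈ CS R P k → c₁ ∈ CS R P k ∧ c₂ ∈ CS R P k := by
  classical
  refine ⟨c.filter fun σ => Q (range σ), c.filter fun σ => ¬ Q (range σ),
    (filter_add_filter_not c _).symm, mem_CS.2 fun σ hσ => ?_, mem_CS.2 fun σ hσ => ?_,
    fun P hP => ⟨mem_CS.2 fun σ hσ => ?_, mem_CS.2 fun σ hσ => ?_⟩⟩
  all_goals rw [support_filter, Finset.mem_filter] at hσ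
  exacts [hσ.2, hσ.2, mem_CS.1 hP σ hσ.1, mem_CS.1 hP σ hσ.1]

/-- The carrier of a chain. -/
def car {k : ℕ} (c : Ch R X k) : Set X := ⋃ σ ∈ c.support, range σ

theorem isCompact_car {k : ℕ} (c : Ch R X k) : IsCompact (car c) :=
  c.support.isCompact_biUnion fun σ _ => isCompact_range σ.continuous

theorem In_iff {A : Set X} {k : ℕ} {c : Ch R X k} : c ∈ In R A k ↔ car c ⊆ A := by
  rw [mem_CS, car, iUnion₂_subset_iff]

theorem In_car {k : ℕ} (c : Ch R X k) : c ∈ In R (car c) k := In_iff.2 subset_rfl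

/-- Push forward along a continuous map. -/
noncomputable def push {Y : Type u} [TopologicalSpace Y] (f : C(X, Y)) (k : ℕ) :
    Ch R X k →ₗ[R] Ch R Y k := md f.comp

theorem push_single {Y : Type u} [TopologicalSpace Y] (f : C(X, Y)) {k : ℕ} (σ : Sx X k) :
    push f k (single σ (1 : R)) = single (f.comp σ) 1 := md_single _ _ _

theorem bd_push {Y : Type u} [TopologicalSpace Y] (f : C(X, Y)) {k : ℕ} (c : Ch R X (k + 1)) :
    bd k (push f (k + 1) c) = push f k (bd k c) := by
  refine lin_ext ((bd k).comp (push f (k + 1))) ((push f k).comp (bd k)) (fun σ => ?_) c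
  simp only [LinearMap.comp_apply, push_single, bd_single, map_sum, map_smul]
  rfl

theorem push_In {Y : Type u} [TopologicalSpace Y] (f : C(X, Y)) {k : ℕ} {A : Set X} {B : Set Y}
    (h : MapsTo f A B) {c : Ch R X k} (hc : c ∈ In R A k) : push f k c ∈ In R B k :=
  CS_lin _ _ (fun σ hσ => by
    rw [push_single]
    refine single_CS ?_ _
    rintro _ ⟨p, rfl⟩
    exact h (hσ ⟨p, rfl⟩)) hc

theorem push_push {Y : Type u} [TopologicalSpace Y] (f : C(X, Y)) (g : C(Y, X))
    (h : ∀ x, g (f x) = x) {k : ℕ} (c : Ch R X k) : push g k (push f k c) = c := by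
  refine lin_ext ((push g k).comp (push f k)) LinearMap.id (fun σ => ?_) c
  simp only [LinearMap.comp_apply, push_single, LinearMap.id_apply]
  congr 1
  ext p
  exact h _

end Pool.Agent.Lib.MP_77749b_gt
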