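import Mathlib

namespace Pool.Agent.Lib.MP_77749b_gt

open Set Topology

universe u

/-- `X` is an absolute neighbourhood retract for metrizable spaces: `X` is metrizable, and
whenever `X` is embedded as a closed subset of a metrizable space `M`, some neighbourhood `U`
of `X` in `M` retracts onto `X`. -/
def IsANR (X : Type u) [TopologicalSpace X] : Prop :=
  TopologicalSpace.MetrizableSpace X ∧
    ∀ (M : Type u) [TopologicalSpace M] [TopologicalSpace.MetrizableSpace M] (e : X → M),
      IsClosedEmbedding e → ∃ U ∈ 𝓝ˢ (range e), ∃ r : C(U, X),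
        ∀ (x : X) (hx : e x ∈ U), r ⟨e x, hx⟩ = x

/-- Any point can be moved to any other point by a self-homeomorphism. -/
def IsHomogeneous (X : Type u) [TopologicalSpace X] : Prop :=
  ∀ x y : X, ∃ h : X ≃ₜ X, h x = y

/-- Covering dimension at most `n`: every finite open cover has a finite open refinement
in which every point lies in at most `n + 1` members. -/
def CoveringDimLE (X : Type u) [TopologicalSpace X] (n : ℕ) : Prop :=
  ∀ (m : ℕ) (U : Fin m → Set X), (∀ i, IsOpen (U i)) → (⋃ i, U i) = univ →
    ∃ (l : ℕ) (V : Fin l → Set X), (∀ j, IsOpen (V j)) ∧ (⋃ j, V j) = univ ∧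
      (∀ j, ∃ i, V j ⊆ U i) ∧ ∀ x, {j | x ∈ V j}.ncard ≤ n + 1

/-- Covering dimension exactly `n` (for a nonempty space). -/
def HasCoveringDim (X : Type u) [TopologicalSpace X] (n : ℕ) : Prop :=
  Nonempty X ∧ CoveringDimLE X n ∧ ∀ k < n, ¬ CoveringDimLE X k

/-- Singular `n`-simplices of `X`. -/
abbrev SingSimplex (X : Type u) [TopologicalSpace X] (n : ℕ) : Type u :=
  C(stdSimplex ℝ (Fin (n + 1)), X)

/-- Integral singular `n`-chains of `X`. -/
abbrev SingChain (X : Type u) [TopologicalSpace X] (n : ℕ) : Type u :=
  SingSimplex X n →₀ ℤ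

/-- The `i`-th face of a singular simplex. -/
noncomputable def singFace {X : Type u} [TopologicalSpace X] {n : ℕ} (i : Fin (n + 2))
    (σ : SingSimplex X (n + 1)) : SingSimplex X n :=
  σ.comp ⟨stdSimplex.map i.succAbove, stdSimplex.continuous_map _⟩

/-- The singular boundary operator, the alternating sum of the faces. -/
noncomputable def singBoundary (X : Type u) [TopologicalSpace X] (n : ℕ) :
    SingChain X (n + 1) →ₗ[ℤ] SingChain X n :=
  ∑ i : Fin (n + 2), (-1 : ℤ) ^ (i : ℕ) • Finsupp.lmapDomain ℤ ℤ (singFace i)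

/-- The chains all of whose simplices have their image in `A`. -/
noncomputable def chainsIn {X : Type u} [TopologicalSpace X] (A : Set X) (n : ℕ) :
    Submodule ℤ (SingChain X n) :=
  Finsupp.supported ℤ ℤ {σ | range σ ⊆ A}

/-- Relative cycles of the pair `(X, A)`: chains whose boundary lies in `A`
(all chains in degree `0`). -/
noncomputable def relCycles {X : Type u} [TopologicalSpace X] (A : Set X) :
    (n : ℕ) → Submodule ℤ (SingChain X n)
  | 0 => ⊤
  | n + 1 => (chainsIn A n).comap (singBoundary X n)

/-- Relative boundaries of the pair `(X, A)`: sums of a boundary and a chain in `A`. -/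
noncomputable def relBoundaries {X : Type u} [TopologicalSpace X] (A : Set X) (n : ℕ) :
    Submodule ℤ (SingChain X n) :=
  LinearMap.range (singBoundary X n) ⊔ chainsIn A n

/-- Relative singular homology `H_n(X, A; ℤ)`: relative cycles modulo relative boundaries. -/
abbrev RelHomology {X : Type u} [TopologicalSpace X] (A : Set X) (n : ℕ) : Type u :=
  relCycles A n ⧸ (relBoundaries A n).submoduleOf (relCycles A n)

/-- `X` is a `ℤ`-homology `n`-manifold: at every point `x`, the group `H_k(X, X ∖ {x}; ℤ)`
vanishes for `k < n` and is isomorphic to `ℤ` for `k = n`. -/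
def IsHomologyManifold (X : Type u) [TopologicalSpace X] (n : ℕ) : Prop :=
  ∀ x : X, (∀ k < n, Subsingleton (RelHomology ({x}ᶜ : Set X) k)) ∧
    Nonempty (RelHomology ({x}ᶜ : Set X) n ≃+ ℤ)

/-- A generalized `n`-manifold: a locally compact `n`-dimensional ANR that is a `ℤ`-homology
`n`-manifold. -/
def IsGeneralizedManifold (X : Type u) [TopologicalSpace X] (n : ℕ) : Prop :=
  LocallyCompactSpace X ∧ IsANR X ∧ HasCoveringDim X n ∧ IsHomologyManifold X n

end Pool.Agent.Lib.MP_77749b_gt
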