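import Pool.Agent.Lib.MP_77749b_gt.Effros
import Pool.Agent.Lib.MP_77749b_gt.Defs

namespace Pool.Agent.Lib.MP_77749b_gt

open Set Metric Topology Filter

universe u

variable {X : Type u} [MetricSpace X]

theorem CoveringDimLE.fineCov {n : ℕ} (h : CoveringDimLE X n) : FineCov X n := by
  classical
  intro K hK η hη
  obtain ⟨t, -, ht⟩ := hK.elim_nhds_subcover (fun x => ball x (η / 2))
    (fun x _ => ball_mem_nhds x (half_pos hη))
  obtain ⟨l, V, hVo, hVc, hVs, hVn⟩ := h (t.card + 1)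
    (Fin.cons Kᶜ fun j => ball (t.equivFin.symm j : X) (η / 2))
    (fun j => Fin.cases hK.isClosed.isOpen_compl (fun _ => isOpen_ball) j) (by
      refine eq_univ_of_forall fun y => mem_iUnion.2 ?_
      by_cases hy : y ∈ K
      · obtain ⟨x, hx, hy⟩ := mem_iUnion₂.1 (ht hy)
        exact ⟨(t.equivFin ⟨x, hx⟩).succ, by simpa using hy⟩
      · exact ⟨0, hy⟩)
  refine ⟨l, Fin.cons ∅ fun j => if V j ⊆ Kᶜ then ∅ else V j, fun j => ?_, fun y hy => ?_,
    fun j => ?_, fun x => ?_⟩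
  · refine Fin.cases isOpen_empty (fun j => ?_) j
    rw [Fin.cons_succ]
    split_ifs
    exacts [isOpen_empty, hVo j]
  · obtain ⟨j, hj⟩ := mem_iUnion.1 (hVc.symm ▸ mem_univ y)
    exact mem_iUnion.2 ⟨j.succ, by rwa [Fin.cons_succ, if_neg fun h => h hj hy]⟩
  · refine Fin.cases (fun x hx => hx.elim) (fun j => ?_) j
    rw [Fin.cons_succ]
    split_ifs with hj
    · exact fun x hx => hx.elim
    · obtain ⟨i, hi⟩ := hVs j
      revert hi
      refine Fin.cases (fun hi => absurd hi hj) (fun i hi x hx y hy => ?_) i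
      have := dist_triangle_right x y (t.equivFin.symm i : X)
      linarith [mem_ball.1 (hi hx), mem_ball.1 (hi hy)]
  · refine le_trans ?_ (hVn x)
    rw [← ncard_image_of_injective _ (Fin.succ_injective l)]
    refine ncard_le_ncard fun j => Fin.cases (fun h => h.elim) (fun j hj => ⟨j, ?_, rfl⟩) j
    simp only [mem_ofPred_eq, Fin.cons_succ] at hj
    split_ifs at hj
    exacts [hj.elim, hj]

/-- Finite open covers of `A` have shrinkings of order at most `n + 1` at the points of `A`. -/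
def PD (A : Set X) (n : ℕ) : Prop :=
  ∀ (ι : Type) [Finite ι] (U : ι → Set X), (∀ i, IsOpen (U i)) → A ⊆ ⋃ i, U i →
    ∃ V : ι → Set X, (∀ i, IsOpen (V i)) ∧ (∀ i, V i ⊆ U i) ∧ A ⊆ ⋃ i, V i ∧
      ∀ x ∈ A, {i | x ∈ V i}.ncard ≤ n + 1

theorem PD.dim {n : ℕ} (h : PD (univ : Set X) n) : CoveringDimLE X n := fun m U hU hc => by
  obtain ⟨V, h1, h2, h3, h4⟩ := h _ U hU hc.ge
  exact ⟨m, V, h1, univ_subset_iff.1 h3, fun j => ⟨j, h2 j⟩, fun x => h4 x trivial⟩

theorem PD.strong {A : Set X} {n : ℕ} (h : PD A n) (hA : IsClosed A) {ι : Type} [Finite ι]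
    (U : ι → Set X) (hU : ∀ i, IsOpen (U i)) (hc : A ⊆ ⋃ i, U i) :
    ∃ V : ι → Set X, (∀ i, IsOpen (V i)) ∧ (∀ i, V i ⊆ U i) ∧ (⋃ i, U i) ⊆ ⋃ i, V i ∧
      ∀ x ∈ A, {i | x ∈ V i}.ncard ≤ n + 1 := by
  obtain ⟨V, h1, h2, h3, h4⟩ := h _ U hU hc
  refine ⟨fun i => V i ∪ U i \ A, fun i => (h1 i).union ((hU i).sdiff hA),
    fun i => union_subset (h2 i) sdiff_subset, fun y hy => ?_, fun x hx => ?_⟩
  · by_cases hA : y ∈ A
    · exact iUnion_mono (fun i => subset_union_left) (h3 hA)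
    · obtain ⟨i, hi⟩ := mem_iUnion.1 hy
      exact mem_iUnion.2 ⟨i, Or.inr ⟨hi, hA⟩⟩
  · simpa [hx] using h4 x hx

theorem PD.union {A B : Set X} {n : ℕ} (h : PD A n) (hA : IsClosed A) (h' : PD B n)
    (hB : IsClosed B) : PD (A ∪ B) n := fun ι _ U hU hc => by
  obtain ⟨V, h1, h2, h3, h4⟩ := h.strong hA U hU (subset_union_left.trans hc)
  obtain ⟨W, g1, g2, g3, g4⟩ := h'.strong hB V h1 ((subset_union_right.trans hc).trans h3)
  exact ⟨W, g1, fun i => (g2 i).trans (h2 i), (hc.trans h3).trans g3, fun x hx => hx.elim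
    (fun hx => (ncard_le_ncard fun i hi => g2 i hi).trans (h4 x hx)) (g4 x)⟩

theorem PD.sub {A B : Set X} {n : ℕ} (h : PD A n) (hB : IsClosed B) (hBA : B ⊆ A) : PD B n :=
  fun ι _ U hU hc => by
  obtain ⟨V, h1, h2, h3, h4⟩ := h (Option ι) (fun o => o.elim Bᶜ U)
    (fun o => by cases o; exacts [hB.isOpen_compl, hU _]) (fun y _ => by
      by_cases hy : y ∈ B
      · obtain ⟨i, hi⟩ := mem_iUnion.1 (hc hy)
        exact mem_iUnion.2 ⟨some i, hi⟩
      · exact mem_iUnion.2 ⟨none, hy⟩)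
  refine ⟨fun i => V (some i), fun i => h1 _, fun i => h2 (some i), fun y hy => ?_, fun x hx => ?_⟩
  · obtain ⟨o, ho⟩ := mem_iUnion.1 (h3 (hBA hy))
    cases o
    exacts [absurd hy (h2 _ ho), mem_iUnion.2 ⟨_, ho⟩]
  · refine le_trans ?_ (h4 x (hBA hx))
    rw [← ncard_image_of_injective _ (Option.some_injective ι)]
    refine ncard_le_ncard ?_
    rintro _ ⟨i, hi, rfl⟩
    exact hi

theorem PD_empty (n : ℕ) : PD (∅ : Set X) n := fun _ _ U hU hc =>
  ⟨U, hU, fun _ => subset_rfl, hc, fun _ h => h.elim⟩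

theorem PD_biUnion {α : Type*} {s : Set α} (hs : s.Finite) {B : α → Set X} {n : ℕ}
    (h : ∀ a ∈ s, PD (B a) n ∧ IsClosed (B a)) : PD (⋃ a ∈ s, B a) n := by
  induction s, hs using Set.Finite.induction_on with
  | empty => simpa using PD_empty n
  | insert _ hs ih =>
    rw [biUnion_insert]
    exact (h _ (mem_insert _ _)).1.union (h _ (mem_insert _ _)).2
      (ih fun a ha => h a (mem_insert_of_mem _ ha))
      (hs.isClosed_biUnion fun a ha => (h a (mem_insert_of_mem _ ha)).2)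

theorem PD_disj {α : Type*} {C G : α → Set X} {n : ℕ} (h : ∀ a, PD (C a) n)
    (hG : ∀ a, IsOpen (G a)) (hCG : ∀ a, C a ⊆ G a) (hd : Pairwise (Function.onFun Disjoint G)) :
    PD (⋃ a, C a) n := fun ι _ U hU hc => by
  choose V h1 h2 h3 h4 using fun a => h a ι U hU ((subset_iUnion C a).trans hc)
  refine ⟨fun i => ⋃ a, V a i ∩ G a, fun i => isOpen_iUnion fun a => (h1 a i).inter (hG a),
    fun i => iUnion_subset fun a => inter_subset_left.trans (h2 a i), fun y hy => ?_,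
    fun x hx => ?_⟩
  · obtain ⟨a, ha⟩ := mem_iUnion.1 hy
    obtain ⟨i, hi⟩ := mem_iUnion.1 (h3 a ha)
    exact mem_iUnion.2 ⟨i, mem_iUnion.2 ⟨a, hi, hCG a ha⟩⟩
  · obtain ⟨a, ha⟩ := mem_iUnion.1 hx
    refine (ncard_le_ncard fun i hi => ?_).trans (h4 a x ha)
    obtain ⟨b, hb⟩ := mem_iUnion.1 hi
    by_cases hab : a = b
    · exact hab ▸ hb.1
    · exact absurd hb.2 (Set.disjoint_left.1 (hd hab) (hCG a ha))

theorem PD_univ [LocallyCompactSpace X] [LocallyConnectedSpace X] {n : ℕ}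
    (h : ∀ K : Set X, IsCompact K → PD K n) : PD (univ : Set X) n := by
  have key : ∀ x : X, PD (connectedComponent x) n := by
    intro x
    obtain ⟨K, hK, hi, hx, hc⟩ := exists_exhaust x
    have hm : Monotone K := monotone_nat_of_le_succ fun m => (hi m).trans interior_subset
    let A : ℕ → Set X := fun m => K (m + 2) \ interior (K (m + 1))
    have hA : ∀ m, IsCompact (A m) := fun m => (hK _).diff isOpen_interior
    have hlf : LocallyFinite A := fun y => by
      by_cases hy : y ∈ ⋃ m, K m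
      · obtain ⟨N, hN⟩ := mem_iUnion.1 hy
        refine ⟨interior (K (N + 1)), isOpen_interior.mem_nhds (hi N hN),
          (finite_lt_nat N).subset fun m ⟨z, h1, h2⟩ => ?_⟩
        by_contra hm'
        exact h1.2 (interior_mono (hm (Nat.succ_le_succ (not_lt.1 hm'))) h2)
      · refine ⟨_, hc.compl.isOpen.mem_nhds hy, finite_empty.subset fun m ⟨z, h1, h2⟩ => ?_⟩
        exact h2 (mem_iUnion.2 ⟨_, h1.1⟩)
    have hF : ∀ r : Fin 3, PD (⋃ m, A (3 * m + r)) n ∧ IsClosed (⋃ m, A (3 * m + r)) := by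
      intro r
      refine ⟨PD_disj (G := fun m => interior (K (3 * m + r + 3)) \ K (3 * m + r))
        (fun m => h _ (hA _)) (fun m => isOpen_interior.sdiff (hK _).isClosed)
        (fun m => sdiff_subset_sdiff (hi _) (hi _)) ?_,
        (hlf.comp_injective (g := fun m : ℕ => 3 * m + (r : ℕ)) fun a b hab => by
          simp only at hab; omega).isClosed_iUnion fun m => (hA _).isClosed⟩
      refine Pairwise.of_lt fun a b hab => Set.disjoint_left.2 fun y h1 h2 => h2.2 ?_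
      exact hm (by omega) (interior_subset h1.1)
    refine (((h _ (hK 1)).union (hK 1).isClosed (PD_biUnion finite_univ fun r _ => hF r)
      (finite_univ.isClosed_biUnion fun r _ => (hF r).2))).sub isClosed_connectedComponent
      ((hc.connectedComponent_subset (mem_iUnion.2 ⟨0, hx⟩)).trans (iUnion_subset fun N => ?_))
    refine (hm (Nat.le_succ N)).trans ?_
    induction N with
    | zero => exact subset_union_left
    | succ N ih =>
      intro y hy
      by_cases hy' : y ∈ K (N + 1)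
      · exact ih hy'
      · refine Or.inr (mem_iUnion₂.2 ⟨⟨N % 3, Nat.mod_lt _ three_pos⟩, trivial,
          mem_iUnion.2 ⟨N / 3, ?_⟩⟩)
        rw [Nat.div_add_mod]
        exact ⟨hy, fun h => hy' (interior_subset h)⟩
  have : (univ : Set X) = ⋃ C : range (connectedComponent : X → Set X), C.1 :=
    (eq_univ_of_forall fun y => mem_iUnion.2 ⟨⟨_, y, rfl⟩, mem_connectedComponent⟩).symm
  rw [this]
  refine PD_disj (G := fun C => C.1) ?_ ?_ (fun _ => subset_rfl) ?_
  · rintro ⟨_, x, rfl⟩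
    exact key x
  · rintro ⟨_, x, rfl⟩
    exact isOpen_connectedComponent
  · rintro ⟨_, x, rfl⟩ ⟨_, y, rfl⟩ hxy
    exact connectedComponent_disjoint fun e => hxy (Subtype.ext e)

theorem PD_step {K : Set X} (hK : IsCompact K) {n : ℕ}
    (h : ∀ x ∈ K, ∀ ε > 0, ∃ W B : Set X, IsOpen W ∧ x ∈ W ∧ W ⊆ ball x ε ∧ frontier W ⊆ B ∧
      PD B n ∧ IsClosed B) : PD K (n + 1) := fun ι _ U hU hc => by
  classical
  have : ∀ x ∈ K, ∃ (i : ι) (W B : Set X), IsOpen W ∧ x ∈ W ∧ W ⊆ U i ∧ frontier W ⊆ B ∧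
      PD B n ∧ IsClosed B := fun x hx => by
    obtain ⟨i, hi⟩ := mem_iUnion.1 (hc hx)
    obtain ⟨ε, hε, hb⟩ := Metric.isOpen_iff.1 (hU i) x hi
    obtain ⟨W, B, h1, h2, h3, h4⟩ := h x hx ε hε
    exact ⟨i, W, B, h1, h2, h3.trans hb, h4⟩
  choose c W B hW hx hWU hfr hB using this
  obtain ⟨t, ht⟩ := hK.elim_nhds_subcover' W fun x hxK => (hW x hxK).mem_nhds (hx x hxK)
  let _ : LinearOrder t := LinearOrder.lift' t.equivFin t.equivFin.injective
  set B' := (⋃ j ∈ (univ : Set t), B j.1.1 j.1.2) ∩ K with hB'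
  have hcl : IsClosed B' :=
    (finite_univ.isClosed_biUnion fun (j : t) _ => (hB j.1.1 j.1.2).2).inter hK.isClosed
  obtain ⟨V, h1, h2, h3, h4⟩ := ((PD_biUnion finite_univ fun (j : t) _ => hB j.1.1 j.1.2).sub hcl
    inter_subset_left) ι U hU (inter_subset_right.trans hc)
  let E : ι → Set X := fun i => U i ∩ {x | infEDist x B' < infEDist x (B' \ V i)}
  let D : t → Set X := fun j => W j.1.1 j.1.2 \ ⋃ l ∈ {l | l < j}, closure (W l.1.1 l.1.2)
  have hE : ∀ x, {i | x ∈ E i}.ncard ≤ n + 1 := fun x => by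
    rcases {i | x ∈ E i}.eq_empty_or_nonempty with h0 | h0
    · simp [h0]
    obtain ⟨i, hi, hmin⟩ := exists_min_image _ (fun i => infEDist x (B' \ V i)) (toFinite _) h0
    obtain ⟨b, hb, hlt⟩ := infEDist_lt_iff.1 hi.2
    refine (ncard_le_ncard fun j hj => ?_).trans (h4 b hb)
    by_contra hbj
    exact (hlt.trans_le (hmin j hj)).not_ge (infEDist_le_edist_of_mem ⟨hb, hbj⟩)
  refine ⟨fun i => E i ∪ ⋃ j ∈ {j : t | c j.1.1 j.1.2 = i}, D j, fun i => ?_, fun i => ?_,
    fun y hy => ?_, fun x _ => ?_⟩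
  · exact ((hU i).inter (isOpen_lt continuous_infEDist continuous_infEDist)).union
      (isOpen_biUnion fun j _ => (hW _ _).sdiff
        ((toFinite _).isClosed_biUnion fun _ _ => isClosed_closure))
  · refine union_subset inter_subset_left (iUnion₂_subset fun j hj => ?_)
    exact sdiff_subset.trans (hj ▸ hWU j.1.1 j.1.2)
  · by_cases hyB : y ∈ B'
    · obtain ⟨i, hi⟩ := mem_iUnion.1 (h3 hyB)
      refine mem_iUnion.2 ⟨i, Or.inl ⟨h2 i hi, ?_⟩⟩
      change infEDist y B' < _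
      rw [infEDist_zero_of_mem hyB, infEDist_pos_iff_notMem_closure,
        (hcl.sdiff (h1 i)).closure_eq]
      exact fun h => h.2 hi
    · obtain ⟨a, ha, hya⟩ := mem_iUnion₂.1 (ht hy)
      obtain ⟨j, hj, hmin⟩ := exists_min_image {j : t | y ∈ closure (W j.1.1 j.1.2)} id
        (toFinite _) ⟨⟨a, ha⟩, subset_closure hya⟩
      refine mem_iUnion.2 ⟨_, Or.inr (mem_iUnion₂.2 ⟨j, rfl, ?_, fun h => ?_⟩)⟩
      · by_contra hn
        refine hyB ⟨mem_iUnion₂.2 ⟨j, trivial, hfr _ _ ?_⟩, hy⟩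
        rw [(hW _ _).frontier_eq]
        exact ⟨hj, hn⟩
      · obtain ⟨l, hl, hyl⟩ := mem_iUnion₂.1 h
        exact (hmin l hyl).not_gt hl
  · have hs : {j : t | x ∈ D j}.Subsingleton := fun j hj l hl => by
      by_contra hne
      rcases lt_or_gt_of_ne hne with h | h
      · exact hl.2 (mem_iUnion₂.2 ⟨j, h, subset_closure hj.1⟩)
      · exact hj.2 (mem_iUnion₂.2 ⟨l, h, subset_closure hl.1⟩)
    refine (ncard_le_ncard (t := {i | x ∈ E i} ∪ (fun j : t => c j.1.1 j.1.2) '' {j | x ∈ D j})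
      fun i hi => hi.imp id fun hi => ?_).trans ((ncard_union_le _ _).trans
        (add_le_add (hE x) ((ncard_le_one (toFinite _)).2 (hs.image _))))
    obtain ⟨j, hj, hx⟩ := mem_iUnion₂.1 hi
    exact ⟨j, hx, hj⟩

/-- Arcs, possibly degenerate. -/
def Arc (A : Set X) : Prop :=
  ∃ (a : ℝ → X) (s t : ℝ), Continuous a ∧ InjOn a (Icc s t) ∧ A = a '' Icc s t

theorem exists_param {a : ℝ → X} {s t : ℝ} (ha : Continuous a) (hi : InjOn a (Icc s t)) :
    ∃ τ : C(X, ℝ), ∀ u ∈ Icc s t, τ (a u) = u := by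
  have he : IsClosedEmbedding fun u : Icc s t => a u :=
    (ha.comp continuous_subtype_val).isClosedEmbedding fun u v h => Subtype.ext (hi u.2 v.2 h)
  obtain ⟨τ, hτ⟩ := ContinuousMap.exists_extension he ⟨Subtype.val, continuous_subtype_val⟩
  exact ⟨τ, fun u hu => DFunLike.congr_fun hτ ⟨u, hu⟩⟩

theorem Arc.isCompact {A : Set X} (h : Arc A) : IsCompact A := by
  obtain ⟨a, s, t, ha, -, rfl⟩ := h
  exact isCompact_Icc.image ha

theorem arc_pt (x : X) : Arc {x} :=
  ⟨fun _ => x, 0, 0, continuous_const, by simp, by simp⟩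

theorem Arc.pd {A : Set X} (h : Arc A) : PD A 1 := fun ι _ U hU hc => by
  obtain ⟨a, s, t, ha, hi, rfl⟩ := h
  obtain ⟨τ, hτ⟩ := exists_param ha hi
  obtain ⟨δ, hδ, hL⟩ := lebesgue_number_lemma_of_metric (c := fun i => a ⁻¹' U i)
    (isCompact_Icc (a := s) (b := t)) (fun i => (hU i).preimage ha)
    (fun u hu => by simpa using hc ⟨u, hu, rfl⟩)
  rcases (Icc s t).eq_empty_or_nonempty with h0 | ⟨u₀, hu₀⟩
  · rw [h0, image_empty]
    exact PD_empty 1 ι U hU (empty_subset _)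
  let I : ℤ → Set ℝ := fun j => {u | |u / (δ / 2) - j| < 1}
  have : ∀ j, ∃ i, I j ∩ Icc s t ⊆ a ⁻¹' U i := fun j => by
    rcases (I j ∩ Icc s t).eq_empty_or_nonempty with h0 | ⟨u, hu⟩
    · exact (hL u₀ hu₀).imp fun i _ => h0 ▸ empty_subset _
    · refine (hL u hu.2).imp fun i hi v hv => hi ?_
      have h1 := abs_lt.1 (show |u / (δ / 2) - j| < 1 from hu.1)
      have h2 := abs_lt.1 (show |v / (δ / 2) - j| < 1 from hv.1)
      have e1 : u = u / (δ / 2) * (δ / 2) := by field_simp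
      have e2 : v = v / (δ / 2) * (δ / 2) := by field_simp
      rw [mem_ball, Real.dist_eq, abs_lt]
      constructor <;> nlinarith
  choose c hc using this
  refine ⟨fun i => U i ∩ τ ⁻¹' ⋃ j ∈ {j | c j = i}, I j, fun i => (hU i).inter
    ((isOpen_biUnion fun j _ => isOpen_lt (by fun_prop) continuous_const).preimage τ.continuous),
    fun i => inter_subset_left, ?_, ?_⟩
  · rintro _ ⟨u, hu, rfl⟩
    have : |u / (δ / 2) - ⌊u / (δ / 2)⌋| < 1 := abs_lt.2
      ⟨by linarith [Int.floor_le (u / (δ / 2))], by linarith [Int.lt_floor_add_one (u / (δ / 2))]⟩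
    exact mem_iUnion.2 ⟨_, hc _ ⟨this, hu⟩, by
      rw [mem_preimage, hτ u hu]; exact mem_iUnion₂.2 ⟨_, rfl, this⟩⟩
  · rintro _ ⟨u, hu, rfl⟩
    refine (ncard_le_ncard (t := {c ⌊u / (δ / 2)⌋, c (⌊u / (δ / 2)⌋ + 1)}) fun i hi => ?_).trans
      (ncard_insert_le _ _ |>.trans (by simp))
    have h1 := hi.2
    rw [mem_preimage, hτ u hu] at h1
    obtain ⟨j, rfl, hj⟩ := mem_iUnion₂.1 h1
    have h2 := abs_lt.1 (show |u / (δ / 2) - j| < 1 from hj)
    have h3 : ⌊u / (δ / 2)⌋ - 1 < j := by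
      have := Int.floor_le (u / (δ / 2))
      exact_mod_cast (show (⌊u / (δ / 2)⌋ : ℝ) - 1 < j by linarith)
    have h4 : j < ⌊u / (δ / 2)⌋ + 2 := by
      have := Int.lt_floor_add_one (u / (δ / 2))
      exact_mod_cast (show (j : ℝ) < ⌊u / (δ / 2)⌋ + 2 by linarith)
    obtain rfl | rfl : j = ⌊u / (δ / 2)⌋ ∨ j = ⌊u / (δ / 2)⌋ + 1 := by omega
    exacts [Or.inl rfl, Or.inr rfl]

end Pool.Agent.Lib.MP_77749b_gt
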