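import Pool.Agent.Lib.MP_77749b_gt.Local

namespace Pool.Agent.Lib.MP_77749b_gt

open Set Metric Topology Filter TopologicalSpace

universe u

section Abstract

variable {G Y : Type*} [Group G] [MetricSpace Y] [MulAction G Y]

theorem effros_near [TopologicalSpace G] [IsTopologicalGroup G] [SeparableSpace G] [BaireSpace Y]
    [ContinuousConstSMul G Y] [MulAction.IsPretransitive G Y] (x : Y) {U : Set G}
    (hU : U ∈ 𝓝 (1 : G)) : closure ((· • x) '' U) ∈ 𝓝 x := by
  have : Nonempty Y := ⟨x⟩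
  have hc : ContinuousAt (fun p : G × G => p.1⁻¹ * p.2) (1, 1) := by fun_prop
  obtain ⟨V, hV, hVU⟩ : ∃ V ∈ 𝓝 (1 : G), ∀ v ∈ V, ∀ w ∈ V, v⁻¹ * w ∈ U := by
    obtain ⟨A, hA, B, hB, h⟩ := mem_nhds_prod_iff.1 (hc (by simpa using hU))
    exact ⟨A ∩ B, inter_mem hA hB, fun v hv w hw => h (mk_mem_prod hv.1 hw.2)⟩
  obtain ⟨D, hD, hDd⟩ := exists_countable_dense G
  have := hD.to_subtype
  obtain ⟨d, z, hz⟩ := nonempty_interior_of_iUnion_of_closed
    (f := fun d : D => (Homeomorph.smul (d : G)) '' closure ((· • x) '' V))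
    (fun d => (Homeomorph.isClosed_image _).2 isClosed_closure) (by
      refine eq_univ_of_forall fun y => ?_
      obtain ⟨g, rfl⟩ := MulAction.exists_smul_eq G x y
      have hn : (fun d : G => d⁻¹ * g) ⁻¹' V ∈ 𝓝 g :=
        (by fun_prop : ContinuousAt (fun d : G => d⁻¹ * g) g) (by simpa using hV)
      obtain ⟨d, hd, hdV⟩ := hDd.inter_nhds_nonempty hn
      exact mem_iUnion.2 ⟨⟨d, hd⟩, _, subset_closure ⟨_, hdV, rfl⟩, by simp [smul_smul]⟩)
  rw [← Homeomorph.image_interior] at hz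
  obtain ⟨w, hw, -⟩ := hz
  obtain ⟨_, hv, v, hvV, rfl⟩ := mem_closure_iff.1 (interior_subset hw) _ isOpen_interior hw
  have h1 : (Homeomorph.smul v) ⁻¹' closure ((· • x) '' V) ∈ 𝓝 x :=
    (Homeomorph.smul v).continuous.continuousAt (mem_interior_iff_mem_nhds.1 hv)
  rw [Homeomorph.preimage_closure] at h1
  refine mem_of_superset h1 (closure_mono ?_)
  rintro y ⟨w, hw, e⟩
  refine ⟨_, hVU v hvV w hw, ?_⟩
  have e' : w • x = v • y := e
  simp [mul_smul, e']

theorem effros_metric [MetricSpace G] [CompleteSpace G] [IsTopologicalGroup G] [SeparableSpace G]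
    [BaireSpace Y] [ContinuousSMul G Y] [MulAction.IsPretransitive G Y] (x : Y) {U : Set G}
    (hU : U ∈ 𝓝 (1 : G)) : (· • x) '' U ∈ 𝓝 x := by
  let S : ℝ → G → Y → Set Y := fun ε B z =>
    closure ((· • z) '' {B' | dist B' B ≤ ε ∧ dist (B' • z) (B • z) ≤ ε})
  have near : ∀ ε > 0, ∀ B z, S ε B z ∈ 𝓝 (B • z) := by
    intro ε hε B z
    have h1 : ∀ᶠ h in 𝓝 (1 : G), dist (h * B) B ≤ ε ∧ dist ((h * B) • z) (B • z) ≤ ε := by
      have c1 : ContinuousAt (fun h : G => dist (h * B) B) 1 := by fun_prop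
      have c2 : ContinuousAt (fun h : G => dist ((h * B) • z) (B • z)) 1 := by fun_prop
      exact (c1.eventually (ge_mem_nhds (by simpa using hε))).and
        (c2.eventually (ge_mem_nhds (by simpa using hε)))
    refine mem_of_superset (effros_near (B • z) h1) (closure_mono ?_)
    rintro _ ⟨h, hh, rfl⟩
    exact ⟨h * B, hh, mul_smul _ _ _⟩
  have half : ∀ ε ε' (A B : G) y z, 0 < ε' → A • y ∈ S ε B z →
      ∃ B', dist B' B ≤ ε ∧ B' • z ∈ S ε' A y := by
    intro ε ε' A B y z hε h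
    obtain ⟨_, h1, B', h2, rfl⟩ := mem_closure_iff_nhds.1 h _ (near ε' hε A y)
    exact ⟨B', h2.1, h1⟩
  have hd : ∀ ε (A B : G) y z, A • y ∈ S ε B z → dist (A • y) (B • z) ≤ ε := by
    intro ε A B y z h
    refine closure_minimal (t := closedBall (B • z) ε) ?_ isClosed_closedBall h
    rintro _ ⟨B', h2, rfl⟩
    exact h2.2
  have hc : ContinuousAt (fun p : G × G => p.1⁻¹ * p.2) (1, 1) := by fun_prop
  obtain ⟨r, hr, hrU⟩ := nhds_basis_closedBall.mem_iff.1 (hc (show U ∈ 𝓝 _ by simpa using hU))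
  refine mem_of_superset (by simpa using near (r / 2 / 2 ^ 0) (by positivity) 1 x) fun y hy => ?_
  have step : ∀ (n : ℕ) (p : G × G), p.1 • y ∈ S (r / 2 / 2 ^ n) p.2 x →
      ∃ q : G × G, q.1 • y ∈ S (r / 2 / 2 ^ (n + 1)) q.2 x ∧ dist p q ≤ r / 2 / 2 ^ n := by
    intro n p hp
    obtain ⟨B, h1, h2⟩ := half _ (r / 2 / 2 ^ n) _ _ _ _ (by positivity) hp
    obtain ⟨A, h3, h4⟩ := half _ (r / 2 / 2 ^ (n + 1)) _ _ _ _ (by positivity) h2
    exact ⟨(A, B), h4, by rw [dist_comm]; exact max_le h3 h1⟩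
  choose F hF1 hF2 using step
  let g : ∀ n : ℕ, {p : G × G // p.1 • y ∈ S (r / 2 / 2 ^ n) p.2 x} := fun n =>
    Nat.rec ⟨(1, 1), by simpa using hy⟩ (fun n a => ⟨F n a.1 a.2, hF1 n a.1 a.2⟩) n
  have hg : ∀ n, dist (g n).1 (g (n + 1)).1 ≤ r / 2 / 2 ^ n := fun n => hF2 n (g n).1 (g n).2
  obtain ⟨p, hp⟩ := cauchySeq_tendsto_of_complete (cauchySeq_of_le_geometric_two hg)
  have h1 := dist_le_of_le_geometric_two_of_tendsto₀ hg hp
  have h2 : p.1 • y = p.2 • x := by
    have t1 : Tendsto (fun n => dist ((g n).1.1 • y) ((g n).1.2 • x)) atTop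
        (𝓝 (dist (p.1 • y) (p.2 • x))) :=
      (by fun_prop : Continuous fun p : G × G => dist (p.1 • y) (p.2 • x)).continuousAt.tendsto.comp hp
    have t2 : Tendsto (fun n : ℕ => r / 2 / 2 ^ n) atTop (𝓝 0) :=
      tendsto_const_nhds.div_atTop (tendsto_pow_atTop_atTop_of_one_lt one_lt_two)
    exact dist_le_zero.1 (le_of_tendsto_of_tendsto' t1 t2 fun n => hd _ _ _ _ _ (g n).2)
  refine ⟨p.1⁻¹ * p.2, hrU (mem_closedBall'.2 h1), ?_⟩
  simp [mul_smul, ← h2]

end Abstract

theorem polish_of_lc (Y : Type u) [MetricSpace Y] [LocallyCompactSpace Y]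
    [SecondCountableTopology Y] : PolishSpace Y := by
  have he := UniformSpace.Completion.isDenseEmbedding_coe (α := Y)
  have ho : IsOpen (range ((↑) : Y → UniformSpace.Completion Y)) := by
    refine isOpen_iff_mem_nhds.2 ?_
    rintro _ ⟨x, rfl⟩
    obtain ⟨K, hK, hx⟩ := exists_compact_mem_nhds x
    have := he.isDenseInducing.closure_image_mem_nhds hx
    rw [(hK.image he.continuous).isClosed.closure_eq] at this
    exact mem_of_superset this (image_subset_range _ _)
  have := ho.polishSpace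
  exact he.isEmbedding.toHomeomorph.isClosedEmbedding.polishSpace

theorem cm_maps (Y : Type u) [TopologicalSpace Y] [PolishSpace Y] [LocallyCompactSpace Y] :
    IsCompletelyMetrizableSpace C(Y, Y) := by
  let := upgradeIsCompletelyMetrizable Y
  infer_instance

theorem eff_of_sc {Y : Type u} [MetricSpace Y] [LocallyCompactSpace Y]
    [SecondCountableTopology Y] (hh : ∀ x y : Y, ∃ h : Y ≃ₜ Y, h x = y) : Eff Y := by
  intro x K hK ε hε
  have := polish_of_lc Y
  have := cm_maps Y
  let e : (Y ≃ₜ Y) → C(Y, Y) × C(Y, Y) := fun h => (h, h.symm)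
  let _ : TopologicalSpace (Y ≃ₜ Y) := TopologicalSpace.induced e inferInstance
  have hi : IsInducing e := ⟨rfl⟩
  have he : IsClosedEmbedding e := by
    refine ⟨⟨hi, fun a b hab => ?_⟩, ?_⟩
    · ext y
      exact DFunLike.congr_fun (congrArg Prod.fst hab) y
    · have : range e = {p | ∀ y, p.1 (p.2 y) = y ∧ p.2 (p.1 y) = y} := by
        ext p
        constructor
        · rintro ⟨h, rfl⟩ y
          exact ⟨h.apply_symm_apply y, h.symm_apply_apply y⟩
        · intro h
          exact ⟨⟨⟨p.1, p.2, fun y => (h y).2, fun y => (h y).1⟩, p.1.2, p.2.2⟩, rfl⟩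
      rw [this, ofPred_forall]
      exact isClosed_iInter fun y => (isClosed_eq (by fun_prop) continuous_const).inter
        (isClosed_eq (by fun_prop) continuous_const)
  have c1 : Continuous fun h : Y ≃ₜ Y => (h : C(Y, Y)) := continuous_fst.comp hi.continuous
  have c2 : Continuous fun h : Y ≃ₜ Y => (h.symm : C(Y, Y)) := continuous_snd.comp hi.continuous
  have : ContinuousMul (Y ≃ₜ Y) := ⟨hi.continuous_iff.2
    ((ContinuousMap.continuous_comp'.comp ((c1.comp continuous_snd).prodMk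
      (c1.comp continuous_fst))).prodMk (ContinuousMap.continuous_comp'.comp
        ((c2.comp continuous_fst).prodMk (c2.comp continuous_snd))))⟩
  have : ContinuousInv (Y ≃ₜ Y) := ⟨hi.continuous_iff.2 (c2.prodMk c1)⟩
  have : IsTopologicalGroup (Y ≃ₜ Y) := {}
  have := he.IsCompletelyMetrizableSpace
  have := hi.secondCountableTopology
  let _ : MulAction (Y ≃ₜ Y) Y :=
    { smul := fun h y => h y, one_smul := fun _ => rfl, mul_smul := fun _ _ _ => rfl }
  have : ContinuousSMul (Y ≃ₜ Y) Y :=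
    ⟨(c1.comp continuous_fst).eval continuous_snd⟩
  have : MulAction.IsPretransitive (Y ≃ₜ Y) Y := ⟨hh⟩
  have hU : {h : Y ≃ₜ Y | ∀ z ∈ K, dist (h z) z < ε} ∈ 𝓝 (1 : Y ≃ₜ Y) := by
    refine hK.eventually_forall_of_forall_eventually fun z _ => ?_
    have : ContinuousAt (fun p : (Y ≃ₜ Y) × Y => dist (p.1 • p.2) p.2) (1, z) := by fun_prop
    exact this.eventually (gt_mem_nhds (by simpa using hε))
  let _ := upgradeIsCompletelyMetrizable (Y ≃ₜ Y)
  obtain ⟨δ, hδ, h⟩ := Metric.mem_nhds_iff.1 (effros_metric x hU)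
  exact ⟨δ, hδ, fun y hy => (h hy).imp fun g hg => ⟨hg.2, hg.1⟩⟩

variable {X : Type u} [MetricSpace X]

/-- A compact exhaustion of a clopen neighbourhood. -/
theorem exists_exhaust [LocallyCompactSpace X] (x : X) : ∃ K : ℕ → Set X,
    (∀ n, IsCompact (K n)) ∧ (∀ n, K n ⊆ interior (K (n + 1))) ∧ x ∈ K 0 ∧ IsClopen (⋃ n, K n) := by
  choose C hC hxC using fun y : X => exists_compact_mem_nhds y
  obtain ⟨V, hVo, hVc, hVf, hVs⟩ := precise_refinement (fun y => interior (C y))
    (fun _ => isOpen_interior)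
    (eq_univ_of_forall fun y => mem_iUnion.2 ⟨y, mem_interior_iff_mem_nhds.2 (hxC y)⟩)
  let K : ℕ → Set X := fun n => Nat.rec {x} (fun _ A => ⋃ j ∈ {j | (V j ∩ A).Nonempty}, C j) n
  have hK : ∀ n, IsCompact (K n) := fun n => by
    induction n with
    | zero => exact isCompact_singleton
    | succ n ih => exact (hVf.finite_nonempty_inter_compact ih).isCompact_biUnion fun j _ => hC j
  have h1 : ∀ n j, (V j ∩ K n).Nonempty → V j ⊆ interior (K (n + 1)) := fun n j h =>
    (hVs j).trans (interior_mono (subset_biUnion_of_mem (u := C) (s := {j | (V j ∩ K n).Nonempty}) h))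
  have h2 : ∀ n, K n ⊆ interior (K (n + 1)) := fun n y hy => by
    obtain ⟨j, hj⟩ := mem_iUnion.1 (hVc.symm ▸ mem_univ y)
    exact h1 n j ⟨y, hj, hy⟩ hj
  refine ⟨K, hK, h2, rfl, ?_, ?_⟩
  · refine isClosed_of_closure_subset fun y hy => ?_
    obtain ⟨j, hj⟩ := mem_iUnion.1 (hVc.symm ▸ mem_univ y)
    obtain ⟨z, hz, hz'⟩ := mem_closure_iff.1 hy _ (hVo j) hj
    obtain ⟨n, hn⟩ := mem_iUnion.1 hz'
    exact mem_iUnion.2 ⟨n + 1, interior_subset (h1 n j ⟨z, hz, hn⟩ hj)⟩
  · refine isOpen_iff_mem_nhds.2 fun y hy => ?_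
    obtain ⟨n, hn⟩ := mem_iUnion.1 hy
    exact mem_of_superset (mem_interior_iff_mem_nhds.1 (h2 n hn)) (subset_iUnion _ _)

open Classical in
/-- Extension by the identity of a self-homeomorphism of a clopen set. -/
noncomputable def extId {C : Set X} (hC : IsClopen C) (h : C ≃ₜ C) : C(X, X) where
  toFun y := if hy : y ∈ C then h ⟨y, hy⟩ else y
  continuous_toFun := by
    refine continuous_iff_continuousAt.2 fun y => ?_
    by_cases hy : y ∈ C
    · refine ContinuousOn.continuousAt (s := C) ?_ (hC.isOpen.mem_nhds hy)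
      rw [continuousOn_iff_continuous_domRestrict]
      exact (continuous_subtype_val.comp h.continuous).congr fun z => by
        simp [domRestrict, z.2]
    · exact continuousAt_id.congr (mem_of_superset (hC.compl.isOpen.mem_nhds hy)
        fun z hz => Eq.symm (dif_neg hz : (if hy : z ∈ C then (h ⟨z, hy⟩ : X) else z) = z))

theorem extId_pos {C : Set X} (hC : IsClopen C) (h : C ≃ₜ C) (y : C) :
    extId hC h y = h y := dif_pos y.2

theorem extId_neg {C : Set X} (hC : IsClopen C) (h : C ≃ₜ C) {y : X} (hy : y ∉ C) :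
    extId hC h y = y := dif_neg hy

theorem extId_inv {C : Set X} (hC : IsClopen C) (h : C ≃ₜ C) (y : X) :
    extId hC h.symm (extId hC h y) = y := by
  by_cases hy : y ∈ C
  · rw [extId_pos hC h ⟨y, hy⟩, extId_pos, h.symm_apply_apply]
  · rw [extId_neg hC h hy, extId_neg hC _ hy]

/-- The theorem of Effros for locally compact, locally connected homogeneous spaces. -/
theorem eff_of_hom [LocallyCompactSpace X] [LocallyConnectedSpace X]
    (hh : ∀ x y : X, ∃ h : X ≃ₜ X, h x = y) : Eff X := by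
  intro x K hK ε hε
  have hC : IsClopen (connectedComponent x) := isClopen_connectedComponent
  have : LocallyCompactSpace (connectedComponent x) := hC.isOpen.locallyCompactSpace
  obtain ⟨E, hE, -, hx, hc⟩ := exists_exhaust x
  have : SigmaCompactSpace (connectedComponent x) := isSigmaCompact_iff_sigmaCompactSpace.1
    ((isSigmaCompact_iUnion_of_isCompact E hE).of_isClosed_subset hC.isClosed
      (hc.connectedComponent_subset (mem_iUnion.2 ⟨0, hx⟩)))
  have key := eff_of_sc (Y := connectedComponent x) (fun a b => by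
    obtain ⟨h, hab⟩ := hh a b
    have e : h '' connectedComponent x = connectedComponent x := by
      have := h.image_connectedComponentIn (s := univ) (x := a) (mem_univ _)
      rwa [image_univ, h.surjective.range_eq, connectedComponentIn_univ, connectedComponentIn_univ,
        hab, ← connectedComponent_eq a.2, ← connectedComponent_eq b.2] at this
    exact ⟨(h.image _).trans (Homeomorph.setCongr e), Subtype.ext hab⟩)
    ⟨x, mem_connectedComponent⟩ (Subtype.val ⁻¹' K)
    (hC.isClosed.isClosedEmbedding_subtypeVal.isCompact_preimage hK) ε hε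
  obtain ⟨δ, hδ, key⟩ := key
  obtain ⟨ρ, hρ, hb⟩ := Metric.isOpen_iff.1 hC.isOpen x mem_connectedComponent
  refine ⟨min δ ρ, lt_min hδ hρ, fun y hy => ?_⟩
  obtain ⟨h, h1, h2⟩ := key ⟨y, hb (ball_subset_ball (min_le_right _ _) hy)⟩
    (ball_subset_ball (min_le_left _ _) hy)
  refine ⟨⟨⟨extId hC h, extId hC h.symm, extId_inv hC h, extId_inv hC h.symm⟩,
    (extId hC h).2, (extId hC h.symm).2⟩, ?_, fun z hz => ?_⟩
  · exact (extId_pos hC h ⟨x, mem_connectedComponent⟩).trans (congrArg Subtype.val h1)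
  · change dist (extId hC h z) z < ε
    by_cases hzC : z ∈ connectedComponent x
    · rw [extId_pos hC h ⟨z, hzC⟩]
      exact h2 ⟨z, hzC⟩ hz
    · rwa [extId_neg hC h hzC, dist_self]

end Pool.Agent.Lib.MP_77749b_gt
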