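import Pool.Agent.Lib.MP_77749b_gt.Rank
import Pool.Agent.Lib.MP_77749b_gt.ANR

namespace Pool.Agent.Lib.MP_77749b_gt

open Set Finsupp Metric Topology Filter

universe u

theorem alg_cyclic {A : Type*} [AddCommGroup A] (h1 : ∀ (m : ℤ) (a : A), m ≠ 0 → m • a = 0 → a = 0)
    {a₀ : A} (h2 : a₀ ≠ 0)
    (h3 : ∀ a b : A, ∃ S : Submodule ℤ A, S.FG ∧
      ∀ (c : A) (m p q : ℤ), m ≠ 0 → m • c = p • a + q • b → c ∈ S)
    (h4 : ∀ s a : A, (∃ u, s = (2 : ℤ) • u) ∨ ∃ (γ : ℤ) (u : A), a - γ • s = (2 : ℤ) • u) :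
    Nonempty (A ≃+ ℤ) := by
  have : Module.IsTorsionFree ℤ A := .of_smul_eq_zero fun m a h =>
    or_iff_not_imp_left.2 fun hm => h1 m a hm h
  have key : ∀ b : A, ∃ e : A, (∃ p : ℤ, a₀ = p • e) ∧ (∃ q : ℤ, b = q • e) ∧
      ∀ (c : A) (m p : ℤ), m ≠ 0 → m • c = p • a₀ → ∃ r : ℤ, c = r • e := by
    intro b
    let S : Submodule ℤ A :=
      { carrier := {c | ∃ m p q : ℤ, m ≠ 0 ∧ m • c = p • a₀ + q • b}
        zero_mem' := ⟨1, 0, 0, one_ne_zero, by simp⟩
        add_mem' := by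
          rintro c c' ⟨m, p, q, hm, e⟩ ⟨m', p', q', hm', e'⟩
          refine ⟨m * m', m' * p + m * p', m' * q + m * q', mul_ne_zero hm hm', ?_⟩
          rw [smul_add, mul_smul m m' c', mul_comm m m', mul_smul m' m c, e, e']
          module
        smul_mem' := by
          rintro r c ⟨m, p, q, hm, e⟩
          refine ⟨m, r * p, r * q, hm, ?_⟩
          rw [smul_comm, e]
          module }
    obtain ⟨S', hS', h⟩ := h3 a₀ b
    have : IsNoetherian ℤ S' := isNoetherian_of_fg_of_noetherian S' hS'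
    have : Module.Finite ℤ S := Module.Finite.iff_fg.2
      (hS'.of_le fun c ⟨m, p, q, hm, e⟩ => h c m p q hm e)
    have pure : ∀ (c : S) (u : A), (c : A) = (2 : ℤ) • u → u ∈ S := by
      rintro ⟨c, m, p, q, hm, e⟩ u rfl
      exact ⟨m * 2, p, q, mul_ne_zero hm two_ne_zero, by rw [mul_smul, e]⟩
    let B := Module.Free.chooseBasis ℤ S
    have odd : ∀ i (c : S) (u : A), B.repr c i = 1 → (c : A) ≠ (2 : ℤ) • u := fun i c u hc e => by
      rw [show c = (2 : ℤ) • (⟨u, pure c u e⟩ : S) from Subtype.ext e, map_smul, Finsupp.smul_apply,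
        smul_eq_mul] at hc
      omega
    have hsub : Subsingleton (Module.Free.ChooseBasisIndex ℤ S) := ⟨fun i j => by
      by_contra hij
      rcases h4 (B i) (B j) with ⟨u, hu⟩ | ⟨γ, u, hu⟩
      · exact odd i (B i) u (by simp) hu
      · exact odd j (B j - γ • B i) u (by simp [Finsupp.single_eq_of_ne (Ne.symm hij)]) hu⟩
    have h0 : a₀ ∈ S := ⟨1, 1, 0, one_ne_zero, by simp⟩
    have : Nontrivial S := ⟨⟨⟨a₀, h0⟩, 0, fun e => h2 (congrArg Subtype.val e)⟩⟩
    obtain ⟨i⟩ := B.index_nonempty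
    have gen : ∀ c ∈ S, ∃ r : ℤ, c = r • (B i : A) := fun c hc => by
      have := B.sum_repr ⟨c, hc⟩
      rw [Fintype.sum_subsingleton _ i] at this
      exact ⟨_, (congrArg Subtype.val this).symm⟩
    exact ⟨B i, gen _ h0, gen _ ⟨1, 0, 1, one_ne_zero, by simp⟩,
      fun c m p hm e => gen c ⟨m, p, 0, hm, by simpa using e⟩⟩
  obtain ⟨e, ⟨p, hp⟩, -, he⟩ := key a₀
  have he0 : e ≠ 0 := fun h => h2 (by rw [hp, h, smul_zero])
  refine ⟨(AddEquiv.ofBijective (zmultiplesHom A e) ⟨(injective_iff_map_eq_zero _).2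
    fun m hm => ?_, fun b => ?_⟩).symm⟩
  · by_contra h
    exact he0 (h1 m e h hm)
  · obtain ⟨e', ⟨p', hp'⟩, ⟨q', hq'⟩, -⟩ := key b
    obtain ⟨r, hr⟩ := he b p' q' (fun h => h2 (by rw [hp', h, zero_smul]))
      (by rw [hp', hq', smul_comm])
    exact ⟨r, hr.symm⟩

variable {X : Type u} [MetricSpace X]

theorem relBoundaries_eq (K : Set X) (k : ℕ) : relBoundaries Kᶜ k = Br ℤ K (k + 1) := by
  ext c
  rw [mem_Br, relBoundaries, Submodule.mem_sup]
  constructor
  · rintro ⟨_, ⟨d, rfl⟩, e, he, rfl⟩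
    exact ⟨d, e, he, rfl⟩
  · rintro ⟨d, e, he, rfl⟩
    exact ⟨_, ⟨d, rfl⟩, e, he, rfl⟩

theorem mem_relCycles (K : Set X) : ∀ (k : ℕ) (c : Ch ℤ X (k + 1)),
    c ∈ relCycles K k ↔ bd k c ∈ In ℤ K k
  | 0, c => iff_of_true trivial (In_zero _ _)
  | _ + 1, _ => Iff.rfl

theorem mk_eq_zero {K : Set X} {k : ℕ} (c : relCycles Kᶜ k) :
    (Submodule.Quotient.mk c : RelHomology Kᶜ k) = 0 ↔ c.1 ∈ Br ℤ K (k + 1) := by
  rw [Submodule.Quotient.mk_eq_zero, relBoundaries_eq]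
  rfl

theorem Van.subsingleton {x : X} {k : ℕ} (h : Van ℤ x k) : Subsingleton (RelHomology ({x}ᶜ : Set X) k) :=
  subsingleton_of_forall_eq 0 fun a => by
    obtain ⟨c, rfl⟩ := Submodule.Quotient.mk_surjective _ a
    exact (mk_eq_zero c).2 (h _ ((mem_relCycles _ _ _).1 c.2))

theorem LEC.top_cyclic [LocallyCompactSpace X] (L : LEC X) (hh : IsHomogeneous X)
    (hd : HasCoveringDim X 3) (x : X) : Nonempty (RelHomology ({x}ᶜ : Set X) 3 ≃+ ℤ) := by
  have := L.lpc
  have := hd.1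
  have hE := eff_of_hom hh
  have hf := hd.2.1.fineCov
  have h2 := hd.2.2 2 (by norm_num)
  have top : ∀ m : ℕ, Top (ZMod m) X 4 := fun m => L.top hf le_rfl
  have cyc : ∀ c : relCycles ({x}ᶜ : Set X) 3, bd 3 c.1 ∈ In ℤ {x}ᶜ 3 :=
    fun c => (mem_relCycles _ _ _).1 c.2
  have habs : ∀ {m : ℤ} {c d : Ch ℤ X 4}, m • c - d ∈ Br ℤ {x} 4 →
      (m.sign • d) - (m.natAbs : ℤ) • c ∈ Br ℤ {x} 4 := fun {m c d} h => by
    have := Submodule.smul_mem _ (-m.sign) h
    rwa [neg_smul, smul_sub, neg_sub, smul_smul, Int.sign_mul_self_eq_natAbs] at this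
  have hv : ¬ Van ℤ x 3 := fun h => not_van_top (R := ℤ) x (L.top hf le_rfl)
    (fun k hk => L.van_low hh h2 hk) fun y => by
      obtain ⟨g, rfl⟩ := hh y x
      exact h.homeo g
  simp only [Van, not_forall] at hv
  obtain ⟨c₀, hc₀, hc₀'⟩ := hv
  refine alg_cyclic (fun m a hm h => ?_)
    (a₀ := Submodule.Quotient.mk ⟨c₀, (mem_relCycles _ _ _).2 hc₀⟩)
    (fun h => hc₀' ((mk_eq_zero _).1 h)) (fun a b => ?_) fun s a => ?_
  · obtain ⟨c, rfl⟩ := Submodule.Quotient.mk_surjective _ a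
    rw [← Submodule.Quotient.mk_smul, mk_eq_zero] at h
    refine (mk_eq_zero c).2 (Br_of_smul (Int.natAbs_ne_zero.2 hm) (top _) isCompact_singleton ?_)
    simpa using neg_mem (habs (d := 0) (by simpa using h))
  · obtain ⟨a, rfl⟩ := Submodule.Quotient.mk_surjective _ a
    obtain ⟨b, rfl⟩ := Submodule.Quotient.mk_surjective _ b
    have ho := ((isCompact_car (bd 3 a.1)).union (isCompact_car (bd 3 b.1))).isClosed.isOpen_compl
    have hx : x ∈ (car (bd 3 a.1) ∪ car (bd 3 b.1))ᶜ :=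
      fun h => h.elim (fun h => In_iff.1 (cyc a) h rfl) fun h => In_iff.1 (cyc b) h rfl
    obtain ⟨K, hK, hKO, hKc⟩ := local_compact_nhds
      ((ho.pathComponentIn x).mem_nhds (mem_pathComponentIn_self hx))
    obtain ⟨M, hM, -, hfr⟩ := L.fr (R := ℤ) hf isCompact_singleton isOpen_interior
      (singleton_subset_iff.2 (mem_interior_iff_mem_nhds.2 hK)) 3
    have : IsNoetherian ℤ M := isNoetherian_of_fg_of_noetherian M hM
    refine ⟨(M.comap (relCycles ({x}ᶜ : Set X) 3).subtype).map (Submodule.mkQ _),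
      Submodule.FG.map _ (Submodule.fg_of_fg_map_injective _ (Submodule.injective_subtype _)
        (hM.of_le (Submodule.map_comap_le _ _))), fun c m p q hm e => ?_⟩
    obtain ⟨c, rfl⟩ := Submodule.Quotient.mk_surjective _ c
    rw [← Submodule.Quotient.mk_smul, ← Submodule.Quotient.mk_smul, ← Submodule.Quotient.mk_smul,
      ← Submodule.Quotient.mk_add, ← sub_eq_zero, ← Submodule.Quotient.mk_sub, mk_eq_zero] at e
    obtain ⟨u, u1, u2⟩ := L.pure hE (Int.natAbs_ne_zero.2 hm) (top _)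
      (isPathConnected_pathComponentIn hx).isConnected.isPreconnected hKc hKO (mem_of_mem_nhds hK)
      (by
        rw [map_smul, map_add, map_smul, map_smul]
        exact Submodule.smul_mem _ _ (add_mem
          (Submodule.smul_mem _ _ (In_iff.2 fun z hz h => pathComponentIn_subset h (Or.inl hz)))
          (Submodule.smul_mem _ _ (In_iff.2 fun z hz h => pathComponentIn_subset h (Or.inr hz)))))
      (habs (c := c.1) (d := p • a.1 + q • b.1) e)
    obtain ⟨w, w1, w2⟩ := hfr u (In_mono (compl_subset_compl.2 interior_subset) _ u1)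
    have h3 : c.1 - w ∈ Br ℤ {x} 4 := by simpa using add_mem u2 w2
    refine ⟨⟨w, (mem_relCycles _ _ _).2 ?_⟩, w1, ?_⟩
    · simpa using sub_mem (cyc c) (Br_bd h3)
    · rw [Submodule.mkQ_apply, eq_comm, ← sub_eq_zero, ← Submodule.Quotient.mk_sub, mk_eq_zero]
      exact h3
  · obtain ⟨s, rfl⟩ := Submodule.Quotient.mk_surjective _ s
    obtain ⟨a, rfl⟩ := Submodule.Quotient.mk_surjective _ a
    have half : ∀ c : relCycles ({x}ᶜ : Set X) 3, red 2 4 c.1 ∈ Br (ZMod 2) {x} 4 →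
        ∃ u, (Submodule.Quotient.mk c : RelHomology ({x}ᶜ : Set X) 3) = (2 : ℤ) • u := by
      intro c hc
      obtain ⟨u, hu⟩ := Br_of_red hc
      refine ⟨Submodule.Quotient.mk ⟨u, (mem_relCycles _ _ _).2 (In_of_smul two_ne_zero ?_)⟩, ?_⟩
      · simpa using sub_mem (cyc c) (Br_bd hu)
      · rw [← Submodule.Quotient.mk_smul, ← sub_eq_zero, ← Submodule.Quotient.mk_sub, mk_eq_zero]
        exact hu
    refine or_iff_not_imp_left.2 fun h => ?_
    obtain ⟨γ, hγ⟩ := L.rank_one hE hf (fun k hk => L.van_low hh h2 hk) (a := red 2 4 a.1)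
      (by rw [red_bd]; exact red_In (cyc s)) (by rw [red_bd]; exact red_In (cyc a))
      fun h' => h (half s h')
    obtain ⟨γ, rfl⟩ := ZMod.intCast_surjective γ
    refine ⟨γ, ?_⟩
    rw [← Submodule.Quotient.mk_smul, ← Submodule.Quotient.mk_sub]
    refine half _ ?_
    rwa [Int.cast_smul_eq_zsmul, ← map_zsmul, ← map_sub] at hγ

theorem main {X : Type u} [TopologicalSpace X] [LocallyCompactSpace X] (hA : IsANR X)
    (hh : IsHomogeneous X) (hd : HasCoveringDim X 3) : IsGeneralizedManifold X 3 := by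
  refine ⟨inferInstance, hA, hd, fun x => ?_⟩
  have := hA.1
  let _ := TopologicalSpace.metrizableSpaceMetric X
  obtain ⟨L⟩ := hA.lec x
  exact ⟨fun k hk => (L.van_low hh (hd.2.2 2 (by norm_num)) (Nat.le_of_lt_succ hk) x).subsingleton,
    L.top_cyclic hh hd x⟩

end Pool.Agent.Lib.MP_77749b_gt
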