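import Pool.Agent.Lib.MP_77749b_gt.Arc

namespace Pool.Agent.Lib.MP_77749b_gt

open Set Finsupp Metric Topology Filter

universe u

variable {R : Type} [CommRing R] {X : Type u} [MetricSpace X]

theorem LEC.exists_W (L : LEC X) (hE : Eff X) {k : ℕ} {c : Ch R X (k + 1)} {x : X} {O B : Set X}
    (hB : IsClosed B) (hx : x ∉ B) (hb : bd k c ∈ In R B k) (h : c ∉ Br R {x} (k + 1))
    (hc : c ∈ In R O (k + 1)) : ∃ W : Set X, IsOpen W ∧ x ∈ W ∧ W ⊆ O ∧ frontier W ⊆ B := by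
  have key : ∀ y ∉ B, ∀ᶠ z in 𝓝 y, z ∉ B ∧ (c ∈ Br R {z} (k + 1) ↔ c ∈ Br R {y} (k + 1)) :=
    fun y hy => (hB.isOpen_compl.eventually_mem hy).and
      (L.uc_local hE c (In_mono (subset_compl_singleton_iff.2 hy) _ hb))
  have ho : IsOpen {y | y ∉ B ∧ c ∉ Br R {y} (k + 1)} := isOpen_iff_mem_nhds.2 fun y hy =>
    (key y hy.1).mono fun z hz => ⟨hz.1, fun h => hy.2 (hz.2.1 h)⟩
  refine ⟨_, ho, ⟨hx, h⟩, fun y hy => ?_, fun y hy => ?_⟩
  · by_contra hO
    exact hy.2 (In_Br (In_mono (subset_compl_singleton_iff.2 hO) _ hc))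
  · by_contra hyB
    rw [ho.frontier_eq] at hy
    obtain ⟨z, h1, h2⟩ := mem_closure_iff_nhds.1 hy.1 _ (key y hyB)
    exact hy.2 ⟨hyB, fun h => h2.2 (h1.2.2 h)⟩

theorem exists_arc_edge (σ : Sx X 2) : ∃ (τ : Sx X 2) (A : Set X), Arc A ∧ range τ ⊆ A ∧
    A ⊆ range σ ∧ bd 1 (single τ (1 : R)) = bd 1 (single σ 1) := by
  by_cases h : vx σ 0 = vx σ 1
  · refine ⟨ContinuousMap.const _ (vx σ 0), {vx σ 0}, arc_pt _, ?_,
      singleton_subset_iff.2 (vx_mem σ 0), ?_⟩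
    · rintro _ ⟨p, rfl⟩; rfl
    · rw [bd_edge, bd_edge, ← h]; rfl
  · obtain ⟨α, hα, hs⟩ := exists_arc (joined_vx σ 0 1) h
    refine ⟨afs ⟨α, hα.cont⟩ ![0, 1], _, ⟨α, 0, 1, hα.cont, hα.inj, rfl⟩,
      range_afs _ (convex_Icc 0 1) (by simp [Fin.forall_fin_two]), hs, ?_⟩
    rw [bd_edge, bd_edge, vx_afs, vx_afs]
    exact congrArg₂ (fun a b => single (pt a) (1 : R) - single (pt b) 1) hα.one hα.zero

theorem LEC.exists_arcs (L : LEC X) {O : Set X} (hO : IsOpen O) {y : Ch R X 2} (hy : y ∈ In R O 2) :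
    ∃ n, ∃ d ∈ In R O 3, ∃ B ⊆ O, (PD B 1 ∧ IsClosed B) ∧ SD n 2 y - bd 2 d ∈ In R B 2 := by
  obtain ⟨ρ, hρ, hb⟩ := (isCompact_car y).exists_thickening_subset_open hO (In_iff.1 hy)
  obtain ⟨δ, hδ, -, hok⟩ := L.ok_unif (isCompact_car y) hρ
  obtain ⟨n, hn⟩ := (eventually_SD_small y hδ).exists
  choose τ A hA h1 h2 h3 using exists_arc_edge (R := R) (X := X)
  have hs := CS_and (SD_In n (In_car y)) hn
  have : ∀ σ : Sx X 2, ∃ d : Ch R X 3, (range σ ⊆ car y ∧ Sm univ δ (range σ)) →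
      d ∈ In R O 3 ∧ bd 2 d = single σ 1 - single (τ σ) 1 := fun σ => by
    by_cases h : range σ ⊆ car y ∧ Sm univ δ (range σ)
    · have hσ : range σ ⊆ ball (vx σ 0) δ := fun z hz => h.2.2 z hz _ (vx_mem σ 0)
      obtain ⟨d, hd, e⟩ := (hok _ (h.1 (vx_mem σ 0))).fill (c := single σ 1 - single (τ σ) (1 : R))
        (Submodule.sub_mem _ (single_CS hσ _) 
          (single_CS (P := (· ⊆ _)) (((h1 σ).trans (h2 σ)).trans hσ) _))
        (by rw [map_sub, h3, sub_self])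
      exact ⟨d, fun _ => ⟨In_mono ((ball_thick (h.1 (vx_mem σ 0))).trans hb) _ hd, e⟩⟩
    · exact ⟨0, fun h' => absurd h' h⟩
  choose d hd using this
  refine ⟨n, lx d (SD n 2 y), CS_lin _ _ (fun σ hσ => by rw [lx_single]; exact (hd σ hσ).1) hs,
    ⋃ σ ∈ ((SD n 2 y).support : Set (Sx X 2)), A σ, iUnion₂_subset fun σ hσ =>
      (h2 σ).trans (mem_CS.1 (SD_In n hy) σ hσ), ⟨PD_biUnion (Finset.finite_toSet _)
        fun σ _ => ⟨(hA σ).pd, (hA σ).isCompact.isClosed⟩,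
      (Finset.finite_toSet _).isClosed_biUnion fun σ _ => (hA σ).isCompact.isClosed⟩, ?_⟩
  refine lin_mem (LinearMap.id - (bd 2).comp (lx d)) _ (fun σ hσ => ?_) (mem_supp_self _)
  simp only [LinearMap.sub_apply, LinearMap.comp_apply, LinearMap.id_apply, lx_single]
  rw [(hd σ (mem_CS.1 hs σ hσ)).2, sub_sub_cancel]
  exact single_CS (P := (· ⊆ _)) ((h1 σ).trans (subset_biUnion_of_mem (u := A) hσ)) _

theorem LEC.small_nhds (L : LEC X) (hE : Eff X) {k : ℕ} (hk : k ≤ 2) {x : X} (h : ¬ Van R x k)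
    {ε : ℝ} (hε : 0 < ε) : ∃ W B : Set X, IsOpen W ∧ x ∈ W ∧ W ⊆ ball x ε ∧ frontier W ⊆ B ∧
      PD B 1 ∧ IsClosed B := by
  simp only [Van, not_forall] at h
  obtain ⟨c, hb, h⟩ := h
  obtain ⟨n, c₁, h1, c₂, h2, e⟩ := exists_SD_two isOpen_ball (isOpen_compl_singleton (x := x))
    (c := c) (In_mono (B := ball x ε ∪ {x}ᶜ) (fun y _ => by by_cases h : y = x <;> simp [h, hε]) _
      (In_univ c)) (In_univ c)
  rw [univ_inter] at h1 h2
  have h3 : c₁ ∉ Br R {x} (k + 1) := fun h' => h (by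
    have := Submodule.sub_mem _ (Submodule.add_mem _ h' (In_Br h2)) (SD_sub_Br hb n)
    rwa [← e, sub_sub_cancel] at this)
  have h4 : bd k c₁ ∈ In R (ball x ε ∩ {x}ᶜ) k := In_inter (bd_In h1) (by
    rw [eq_sub_of_add_eq e.symm, map_sub, bd_SD]
    exact Submodule.sub_mem _ (SD_In n hb) (bd_In h2))
  suffices ∃ c' ∈ In R (ball x ε) (k + 1), c' ∉ Br R {x} (k + 1) ∧ ∃ B, x ∉ B ∧
      (PD B 1 ∧ IsClosed B) ∧ bd k c' ∈ In R B k by
    obtain ⟨c', a1, a2, B, a3, a4, a5⟩ := this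
    obtain ⟨W, b1, b2, b3, b4⟩ := L.exists_W hE a4.2 a3 a5 a2 a1
    exact ⟨W, B, b1, b2, b3, b4, a4⟩
  obtain rfl | rfl | rfl : k = 0 ∨ k = 1 ∨ k = 2 := by omega
  · exact ⟨c₁, h1, h3, ∅, notMem_empty x, ⟨PD_empty 1, isClosed_empty⟩, In_zero _ _⟩
  · refine ⟨c₁, h1, h3, _, fun h => (In_iff.1 h4 h).2 rfl,
      ⟨PD_biUnion (Finset.finite_toSet _) fun σ _ => ?_, (isCompact_car _).isClosed⟩, In_car _⟩
    rw [range_one]
    exact ⟨(arc_pt _).pd, isClosed_singleton⟩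
  · obtain ⟨m, d, hd, B, hB, a1, a2⟩ := L.exists_arcs (isOpen_ball.inter isOpen_compl_singleton) h4
    refine ⟨SD m 3 c₁ - d, Submodule.sub_mem _ (SD_In m h1) (In_mono inter_subset_left _ hd),
      fun h => h3 ?_, B, fun h => (hB h).2 rfl, a1, by rwa [map_sub, bd_SD]⟩
    have := Submodule.sub_mem _ (Submodule.add_mem _ h (In_Br (In_mono inter_subset_right _ hd)))
      (SD_sub_Br (In_mono inter_subset_right _ h4) m)
    rwa [sub_add_cancel, sub_sub_cancel] at this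

/-- Vanishing of the local homology in low degrees. -/
theorem LEC.van_low [LocallyCompactSpace X] (L : LEC X) (hh : IsHomogeneous X)
    (hd : ¬ CoveringDimLE X 2) {k : ℕ} (hk : k ≤ 2) (x : X) : Van R x k := by
  have := L.lpc
  by_contra h
  refine hd (PD_univ fun K hK => PD_step hK fun y _ ε hε =>
    L.small_nhds (R := R) (eff_of_hom hh) hk (fun hy => h ?_) hε).dim
  obtain ⟨g, rfl⟩ := hh x y
  exact hy.homeo g

/-- Vanishing of homology relative to complements of compact sets. -/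
def Top (R : Type) [CommRing R] (X : Type u) [MetricSpace X] (k : ℕ) : Prop :=
  ∀ K : Set X, IsCompact K → ∀ u : Ch R X (k + 1), bd k u ∈ In R Kᶜ k → u ∈ Br R K (k + 1)

theorem Top.down [LocallyCompactSpace X] {k : ℕ} (h : Top R X (k + 1)) (hv : ∀ x : X, Van R x k) :
    Top R X k := fun K hK u hu => inj_of_top h hK fun x hx =>
  hv x u (In_mono (compl_subset_compl.2 (singleton_subset_iff.2 hx)) _ hu)

theorem not_van_top [Nontrivial R] [LocallyCompactSpace X] [LocallyPathConnectedSpace X] (x : X)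
    (h : Top R X 4) (hv : ∀ k ≤ 2, ∀ x : X, Van R x k) : ¬ ∀ x : X, Van R x 3 := fun h3 => by
  have h1 := ((h.down h3).down (hv 2 le_rfl)).down (hv 1 one_le_two)
  obtain ⟨y, hy, hne⟩ := (((arc_pt x).good (hv 0 (by simp)) (hv 1 one_le_two) (hv 2 le_rfl)).2 _
    (IsOpen.pathComponent x) isPathConnected_pathComponent).nonempty
  obtain ⟨K, hK, hxK⟩ := exists_compact_mem_nhds x
  obtain ⟨r, ⟨hr, hry⟩, hrK⟩ : ∃ r, r ∈ Ioo 0 (dist y x) ∧ closedBall x r ⊆ K :=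
    (Eventually.and (Ioo_mem_nhdsGT (dist_pos.2 hne)) (mem_nhdsWithin_of_mem_nhds
      (eventually_closedBall_subset hxK))).exists
  obtain ⟨σ, -, rfl, rfl⟩ := exists_edge (joinedIn_univ.2 hy)
  have hx : vx σ 0 ∈ (sphere (vx σ 0) r)ᶜ := by simpa using hr.ne
  obtain ⟨d, e, he, E⟩ := mem_Br.1 (h1 _ (hK.of_isClosed_subset isClosed_sphere
    (sphere_subset_closedBall.trans hrK)) (single σ 1) (by
      rw [bd_edge]
      exact Submodule.sub_mem _ (single_CS (by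
        rw [range_pt, singleton_subset_iff]; exact hry.ne') _)
        (single_CS (by rwa [range_pt, singleton_subset_iff]) _)))
  obtain ⟨γ, hγ⟩ := joined_of_bd hx he (by rw [← bd_edge, E, map_add, bd_bd, zero_add])
  obtain ⟨t, ht⟩ := intermediate_value_univ 0 1 (f := fun t => dist (γ t) (vx σ 0)) (by fun_prop)
    (show r ∈ _ by simp [hr.le, hry.le])
  exact hγ t ht

section Coeff

/-- Reduction of coefficients. -/
noncomputable def red (m : ℕ) (k : ℕ) : Ch ℤ X k →+ Ch (ZMod m) X k :=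
  mapRange.addMonoidHom (Int.castAddHom (ZMod m))

variable {m k : ℕ}

theorem red_apply (c : Ch ℤ X k) (σ : Sx X k) : red m k c σ = (c σ : ZMod m) := rfl

theorem red_bd (c : Ch ℤ X (k + 1)) : bd k (red m (k + 1) c) = red m k (bd k c) := by
  refine lin_ext ((bd k).toAddMonoidHom.comp (red m (k + 1))).toIntLinearMap
    ((red m k).toIntLinearMap.comp (bd k)) (fun σ => ?_) c
  have e : ∀ {j} (τ : Sx X j), red m j (single τ 1) = single τ 1 := fun τ => by simp [red]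
  simp only [AddMonoidHom.coe_toIntLinearMap, AddMonoidHom.comp_apply, LinearMap.comp_apply, e,
    LinearMap.toAddMonoidHom_coe, bd_single, map_sum, map_zsmul]
  refine Finset.sum_congr rfl fun i _ => ?_
  rw [← Int.cast_smul_eq_zsmul (ZMod m)]
  simp

theorem red_In {A : Set X} {c : Ch ℤ X k} (h : c ∈ In ℤ A k) : red m k c ∈ In (ZMod m) A k :=
  mem_CS.2 fun σ hσ => mem_CS.1 h σ (support_mapRange (hf := map_zero _) hσ)

theorem red_Br {K : Set X} {c : Ch ℤ X k} (h : c ∈ Br ℤ K k) : red m k c ∈ Br (ZMod m) K k := by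
  obtain ⟨d, e, he, rfl⟩ := mem_Br.1 h
  exact mem_Br.2 ⟨_, _, red_In he, by rw [map_add, red_bd]⟩

theorem red_smul (c : Ch ℤ X k) : red m k ((m : ℤ) • c) = 0 := by
  ext σ
  simp [red_apply]

theorem exists_red {A : Set X} {c : Ch (ZMod m) X k} (h : c ∈ In (ZMod m) A k) :
    ∃ c' ∈ In ℤ A k, red m k c' = c :=
  ⟨mapRange (fun a => (a.cast : ℤ)) ZMod.cast_zero c,
    mem_CS.2 fun σ hσ => mem_CS.1 h σ (support_mapRange hσ), by ext σ; simp [red_apply]⟩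

theorem Br_of_red {K : Set X} {c : Ch ℤ X k} (h : red m k c ∈ Br (ZMod m) K k) :
    ∃ u, c - (m : ℤ) • u ∈ Br ℤ K k := by
  obtain ⟨d, e, he, E⟩ := mem_Br.1 h
  obtain ⟨d, -, rfl⟩ := exists_red (In_univ d)
  obtain ⟨e, he', rfl⟩ := exists_red he
  refine ⟨mapRange (· / (m : ℤ)) (by simp) (c - (bd k d + e)), mem_Br.2 ⟨d, e, he', ?_⟩⟩
  rw [sub_eq_iff_comm, eq_comm]
  ext σ
  rw [Finsupp.smul_apply, mapRange_apply, smul_eq_mul, Int.mul_ediv_cancel']
  rw [← ZMod.intCast_zmod_eq_zero_iff_dvd, ← red_apply, map_sub, E, map_add, red_bd, sub_self]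
  rfl

theorem In_of_smul (hm : m ≠ 0) {A : Set X} {c : Ch ℤ X k} (h : (m : ℤ) • c ∈ In ℤ A k) :
    c ∈ In ℤ A k := mem_CS.2 fun σ hσ => mem_CS.1 h σ (by simpa [hm] using hσ)

theorem Br_of_smul (hm : m ≠ 0) (H : Top (ZMod m) X (k + 1)) {K : Set X} (hK : IsCompact K)
    {c : Ch ℤ X (k + 1)} (h : (m : ℤ) • c ∈ Br ℤ K (k + 1)) : c ∈ Br ℤ K (k + 1) := by
  obtain ⟨d, e, he, E⟩ := mem_Br.1 h
  obtain ⟨u, hu⟩ := Br_of_red (H K hK (red m _ d) (by
    rw [red_bd, ← sub_eq_iff_eq_add.2 E, map_sub, red_smul]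
    exact Submodule.sub_mem _ (Submodule.zero_mem _) (red_In he)))
  refine mem_Br.2 ⟨u, c - bd _ u, In_of_smul hm ?_, by abel⟩
  have := Submodule.add_mem _ (Br_bd hu) he
  rwa [map_sub, map_smul, sub_add_eq_add_sub, ← E, ← smul_sub] at this

theorem LEC.pure [LocallyCompactSpace X] (L : LEC X) (hE : Eff X) (hm : m ≠ 0)
    (H : Top (ZMod m) X (k + 1)) {O K : Set X} (hO : IsPreconnected O) (hK : IsCompact K)
    (hKO : K ⊆ O) {x : X} (hx : x ∈ K) {c a : Ch ℤ X (k + 1)} (hc : bd k c ∈ In ℤ Oᶜ k)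
    (h : c - (m : ℤ) • a ∈ Br ℤ {x} (k + 1)) :
    ∃ u, bd k u ∈ In ℤ Kᶜ k ∧ a - u ∈ Br ℤ {x} (k + 1) := by
  have h1 := red_Br (m := m) h
  rw [map_sub, red_smul, sub_zero] at h1
  obtain ⟨u, hu⟩ := Br_of_red (inj_of_top H hK fun y hy =>
    L.uc hE hO (by rw [red_bd]; exact red_In hc) (hKO hx) (hKO hy) h1)
  refine ⟨u, In_of_smul hm ?_, Br_of_smul hm H isCompact_singleton ?_⟩
  · have := Submodule.sub_mem _ (In_mono (compl_subset_compl.2 hKO) _ hc) (Br_bd hu)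
    rwa [map_sub, sub_sub_cancel, map_smul] at this
  · have := Submodule.sub_mem _ (Bd_anti (singleton_subset_iff.2 hx) _ hu) h
    rwa [sub_sub_sub_cancel_left, ← smul_sub] at this

end Coeff

end Pool.Agent.Lib.MP_77749b_gt
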