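import Pool.Agent.Lib.MP_77749b_gt.Carrier

namespace Pool.Agent.Lib.MP_77749b_gt

open Set Finsupp Metric Topology Filter

universe u

variable {R : Type} [CommRing R] {X : Type u} [MetricSpace X]

/-- Relative boundaries of the pair `(D, D \ K)`. -/
noncomputable def Bd (R : Type) [CommRing R] (D K : Set X) (k : ℕ) : Submodule R (Ch R X k) :=
  (In R D (k + 1)).map (bd k) ⊔ In R (D \ K) k

theorem mem_Bd {D K : Set X} {k : ℕ} {c : Ch R X k} :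
    c ∈ Bd R D K k ↔ ∃ d ∈ In R D (k + 1), ∃ e ∈ In R (D \ K) k, c = bd k d + e := by
  rw [Bd, Submodule.mem_sup]
  constructor
  · rintro ⟨_, ⟨d, hd, rfl⟩, e, he, rfl⟩
    exact ⟨d, hd, e, he, rfl⟩
  · rintro ⟨d, hd, e, he, rfl⟩
    exact ⟨_, ⟨d, hd, rfl⟩, e, he, rfl⟩

theorem bd_Bd {D K : Set X} {k : ℕ} {d : Ch R X (k + 1)} (hd : d ∈ In R D (k + 1)) :
    bd k d ∈ Bd R D K k := mem_Bd.2 ⟨d, hd, 0, Submodule.zero_mem _, (add_zero _).symm⟩

theorem In_Bd {D K : Set X} {k : ℕ} {e : Ch R X k} (he : e ∈ In R (D \ K) k) :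
    e ∈ Bd R D K k := mem_Bd.2 ⟨0, Submodule.zero_mem _, e, he, by simp⟩

theorem Bd_anti {D K K' : Set X} (h : K' ⊆ K) (k : ℕ) : Bd R D K k ≤ Bd R D K' k :=
  sup_le_sup_left (In_mono (sdiff_subset_sdiff_right h) k) _

theorem Bd_bd {D K : Set X} {k : ℕ} {c : Ch R X (k + 1)} (h : c ∈ Bd R D K (k + 1)) :
    bd k c ∈ In R (D \ K) k := by
  obtain ⟨d, -, e, he, rfl⟩ := mem_Bd.1 h
  rw [map_add, bd_bd, zero_add]
  exact bd_In he

theorem SD_sub_Bd {D K : Set X} {k : ℕ} {c : Ch R X (k + 1)} (hc : c ∈ In R D (k + 1))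
    (h : bd k c ∈ In R (D \ K) k) (n : ℕ) : SD n (k + 1) c - c ∈ Bd R D K (k + 1) :=
  mem_Bd.2 ⟨_, TD_In n hc, _, TD_In n h, by rw [bd_TD]; abel⟩

theorem Bd_thick {D K : Set X} (hK : IsCompact K) {k : ℕ} {c : Ch R X k} (h : c ∈ Bd R D K k) :
    ∃ ε > 0, c ∈ Bd R D (cthickening ε K) k := by
  obtain ⟨d, hd, e, he, rfl⟩ := mem_Bd.1 h
  obtain ⟨ε, hε, h⟩ := hK.exists_cthickening_subset_open (isCompact_car e).isClosed.isOpen_compl
    fun x hx hx' => (In_iff.1 he hx').2 hx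
  exact ⟨ε, hε, mem_Bd.2 ⟨d, hd, e, In_iff.2 fun x hx => ⟨(In_iff.1 he hx).1, fun hx' => h hx' hx⟩,
    rfl⟩⟩

theorem Bd_ball {D : Set X} {x : X} {k : ℕ} {c : Ch R X k} (h : c ∈ Bd R D {x} k) :
    ∃ ε > 0, c ∈ Bd R D (closedBall x ε) k := by
  obtain ⟨ε, hε, h⟩ := Bd_thick isCompact_singleton h
  exact ⟨ε, hε, by rwa [cthickening_singleton _ hε.le] at h⟩

/-- Relative boundaries of the pair `(X, X \ K)`. -/
noncomputable abbrev Br (R : Type) [CommRing R] (K : Set X) (k : ℕ) : Submodule R (Ch R X k) :=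
  Bd R univ K k

theorem mem_Br {K : Set X} {k : ℕ} {c : Ch R X k} :
    c ∈ Br R K k ↔ ∃ d, ∃ e ∈ In R Kᶜ k, c = bd k d + e := by
  simp only [mem_Bd, In_univ, true_and, compl_eq_univ_sdiff]

theorem bd_Br {K : Set X} {k : ℕ} (d : Ch R X (k + 1)) : bd k d ∈ Br R K k := bd_Bd (In_univ d)

theorem In_Br {K : Set X} {k : ℕ} {e : Ch R X k} (he : e ∈ In R Kᶜ k) : e ∈ Br R K k :=
  In_Bd (by rwa [← compl_eq_univ_sdiff])

theorem Br_bd {K : Set X} {k : ℕ} {c : Ch R X (k + 1)} (h : c ∈ Br R K (k + 1)) :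
    bd k c ∈ In R Kᶜ k := by rw [compl_eq_univ_sdiff]; exact Bd_bd h

theorem SD_sub_Br {K : Set X} {k : ℕ} {c : Ch R X (k + 1)} (h : bd k c ∈ In R Kᶜ k) (n : ℕ) :
    SD n (k + 1) c - c ∈ Br R K (k + 1) :=
  SD_sub_Bd (In_univ c) (by rwa [← compl_eq_univ_sdiff]) n

/-- Subdividing into two pieces. -/
theorem exists_SD_two {k : ℕ} {A B D : Set X} (hA : IsOpen A) (hB : IsOpen B) {c : Ch R X (k + 1)}
    (hc : c ∈ In R (A ∪ B) (k + 1)) (hD : c ∈ In R D (k + 1)) :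
    ∃ n, ∃ c₁ ∈ In R (D ∩ A) (k + 1), ∃ c₂ ∈ In R (D ∩ B) (k + 1), SD n (k + 1) c = c₁ + c₂ := by
  obtain ⟨n, hn⟩ := (eventually_SD c (fun b : Bool => cond b A B) (fun b => by cases b <;> simpa)
    (by rwa [← union_eq_iUnion])).exists
  obtain ⟨c₁, c₂, e, h1, h2, h3⟩ := exists_split (SD n (k + 1) c) (· ⊆ A)
  obtain ⟨h4, h5⟩ := h3 _ (SD_In n hD)
  refine ⟨n, c₁, In_inter h4 h1, c₂, In_inter h5 (CS_mono ?_ _ (CS_and (h3 _ hn).2 h2)), e⟩
  rintro S ⟨⟨b, hb⟩, h⟩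
  cases b
  exacts [hb, absurd hb h]

/-- Excision. -/
theorem excise {D : Set X} (hD : IsOpen D) {x : X} (hx : x ∈ D) {k : ℕ} {c : Ch R X (k + 1)}
    (hc : c ∈ In R D (k + 1)) (h : c ∈ Br R {x} (k + 1)) : c ∈ Bd R D {x} (k + 1) := by
  have hb := Br_bd h
  obtain ⟨d, e, he, hde⟩ := mem_Br.1 h
  obtain ⟨n, d₁, h1, d₂, h2, hd⟩ := exists_SD_two hD (isOpen_compl_singleton (x := x)) (c := d)
    (In_mono (fun y _ => by by_cases h : y = x <;> simp [h, hx]) _ (In_univ d)) (In_univ d)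
  rw [univ_inter] at h1 h2
  have hd' : d₁ - TD n (k + 1) c ∈ In R D (k + 2) := Submodule.sub_mem _ h1 (TD_In n hc)
  refine mem_Bd.2 ⟨_, hd', c - bd (k + 1) (d₁ - TD n (k + 1) c), ?_, by abel⟩
  refine In_inter (Submodule.sub_mem _ hc (bd_In hd')) ?_
  have : c - bd (k + 1) (d₁ - TD n (k + 1) c) =
      bd (k + 1) d₂ + SD n (k + 1) e - TD n k (bd k c) := by
    have h3 : SD n (k + 1) c = bd (k + 1) d₁ + bd (k + 1) d₂ + SD n (k + 1) e := by
      rw [← map_add, ← hd, bd_SD, ← map_add, ← hde]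
    rw [map_sub, bd_TD, h3]
    abel
  rw [this]
  exact Submodule.sub_mem _ (Submodule.add_mem _ (bd_In h2) (SD_In n he)) (TD_In n hb)

/-- Mayer-Vietoris gluing. -/
theorem glue {D K₁ K₂ : Set X} (h₁ : IsClosed K₁) (h₂ : IsClosed K₂) {k : ℕ}
    (H : ∀ u ∈ In R D (k + 2), bd (k + 1) u ∈ In R (D \ (K₁ ∩ K₂)) (k + 1) →
      u ∈ Bd R D (K₁ ∩ K₂) (k + 2))
    {c : Ch R X (k + 1)} (hc₁ : c ∈ Bd R D K₁ (k + 1)) (hc₂ : c ∈ Bd R D K₂ (k + 1)) :
    c ∈ Bd R D (K₁ ∪ K₂) (k + 1) := by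
  obtain ⟨d₁, hd₁, e₁, he₁, E₁⟩ := mem_Bd.1 hc₁
  obtain ⟨d₂, hd₂, e₂, he₂, E₂⟩ := mem_Bd.1 hc₂
  have hu : bd (k + 1) (d₁ - d₂) = e₂ - e₁ := by
    rw [map_sub, sub_eq_sub_iff_add_eq_add, ← E₁, add_comm e₂, ← E₂]
  obtain ⟨w, -, v, hv, E⟩ := mem_Bd.1 (H _ (Submodule.sub_mem _ hd₁ hd₂) (by
    rw [hu]
    exact Submodule.sub_mem _ (In_mono (sdiff_subset_sdiff_right inter_subset_right) _ he₂)
      (In_mono (sdiff_subset_sdiff_right inter_subset_left) _ he₁)))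
  have hv' : bd (k + 1) v = e₂ - e₁ := by rw [← hu, E, map_add, bd_bd, zero_add]
  obtain ⟨n, v₁, h1, v₂, h2, hs⟩ := exists_SD_two h₁.isOpen_compl h₂.isOpen_compl (c := v)
    (In_mono (fun y hy => by rw [← compl_inter]; exact hy.2) _ hv) (In_mono sdiff_subset _ hv)
  have hb : bd k e₁ = bd k e₂ := by
    have := congrArg (bd k) (E₁.symm.trans E₂)
    simpa only [map_add, bd_bd, zero_add] using this
  have key : e₁ + bd (k + 1) (v₁ + TD n (k + 1) e₁) = e₂ - bd (k + 1) (v₂ - TD n (k + 1) e₂) := by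
    have h3 : bd (k + 1) v₁ + bd (k + 1) v₂ = SD n (k + 1) e₂ - SD n (k + 1) e₁ := by
      rw [← map_add, ← hs, bd_SD, hv', map_sub]
    rw [map_add, map_sub, bd_TD, bd_TD, hb, eq_sub_of_add_eq h3]
    abel
  have hv₁ : v₁ + TD n (k + 1) e₁ ∈ In R (D \ K₁) (k + 2) := Submodule.add_mem _ h1 (TD_In n he₁)
  refine mem_Bd.2 ⟨d₁ - (v₁ + TD n (k + 1) e₁), Submodule.sub_mem _ hd₁ (In_mono sdiff_subset _ hv₁),
    e₁ + bd (k + 1) (v₁ + TD n (k + 1) e₁), ?_, by rw [map_sub, E₁]; abel⟩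
  refine In_mono (A := (D \ K₁) ∩ (D \ K₂))
    (fun y hy => And.intro hy.1.1 fun h => h.elim hy.1.2 hy.2.2) _
    (In_inter (Submodule.add_mem _ he₁ (bd_In hv₁)) ?_)
  rw [key]
  exact Submodule.sub_mem _ he₂ (bd_In (Submodule.sub_mem _ h2 (TD_In n he₂)))

/-- A class on a compact set vanishes if its germs vanish and the next degree vanishes. -/
theorem inj_of_top [LocallyCompactSpace X] {k : ℕ}
    (H : ∀ K : Set X, IsCompact K → ∀ u : Ch R X (k + 2), bd (k + 1) u ∈ In R Kᶜ (k + 1) →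
      u ∈ Br R K (k + 2))
    {L : Set X} (hL : IsCompact L) {c : Ch R X (k + 1)} (hc : ∀ x ∈ L, c ∈ Br R {x} (k + 1)) :
    c ∈ Br R L (k + 1) := by
  have : ∃ K, IsCompact K ∧ L ⊆ K ∧ c ∈ Br R K (k + 1) := by
    refine hL.induction_on (p := fun S => ∃ K, IsCompact K ∧ S ⊆ K ∧ c ∈ Br R K (k + 1))
      ⟨∅, isCompact_empty, subset_rfl, In_Br (by rw [compl_empty]; exact In_univ c)⟩
      (fun s t hst ⟨K, h1, h2, h3⟩ => ⟨K, h1, hst.trans h2, h3⟩)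
      (fun s t ⟨K, h1, h2, h3⟩ ⟨K', h1', h2', h3'⟩ => ⟨K ∪ K', h1.union h1',
        union_subset_union h2 h2', glue h1.isClosed h1'.isClosed (fun u _ hu =>
          H _ (h1.inter h1') u (by rwa [compl_eq_univ_sdiff])) h3 h3'⟩) fun x hx => ?_
    obtain ⟨ε, hε, h⟩ := Bd_ball (hc x hx)
    obtain ⟨K, hK, hKs, hKc⟩ := local_compact_nhds (closedBall_mem_nhds x hε)
    exact ⟨K, mem_nhdsWithin_of_mem_nhds hK, K, hKc, subset_rfl, Bd_anti hKs _ h⟩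
  obtain ⟨K, -, h1, h2⟩ := this
  exact Bd_anti h1 _ h2

theorem maps_compl (h : X ≃ₜ X) (x : X) : MapsTo (h : C(X, X)) {x}ᶜ {h x}ᶜ :=
  fun _ hy hy' => hy (h.injective hy')

theorem push_Br (h : X ≃ₜ X) {x : X} {k : ℕ} {c : Ch R X k} (hc : c ∈ Br R {x} k) :
    push (h : C(X, X)) k c ∈ Br R {h x} k := by
  obtain ⟨d, e, he, rfl⟩ := mem_Br.1 hc
  exact mem_Br.2 ⟨push (h : C(X, X)) _ d, _, push_In _ (maps_compl h x) he,
    by rw [map_add, bd_push]⟩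

theorem Br_of_push (h : X ≃ₜ X) {x : X} {k : ℕ} {c : Ch R X k}
    (hc : push (h : C(X, X)) k c ∈ Br R {h x} k) : c ∈ Br R {x} k := by
  have := push_Br h.symm hc
  rwa [push_push _ _ h.symm_apply_apply, h.symm_apply_apply] at this

/-- Vanishing of local homology in a given degree at a given point. -/
def Van (R : Type) [CommRing R] (x : X) (k : ℕ) : Prop :=
  ∀ c : Ch R X (k + 1), bd k c ∈ In R {x}ᶜ k → c ∈ Br R {x} (k + 1)

theorem Van.homeo (h : X ≃ₜ X) {x : X} {k : ℕ} (hv : Van R (h x) k) : Van R x k := fun c hc =>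
  Br_of_push h (hv _ (by
    rw [bd_push]; exact push_In _ (maps_compl h x) hc))

/-- Micro-homogeneity. -/
def Eff (X : Type u) [MetricSpace X] : Prop :=
  ∀ (x : X) (K : Set X), IsCompact K → ∀ ε > 0, ∃ δ > 0, ∀ y ∈ ball x δ,
    ∃ h : X ≃ₜ X, h x = y ∧ ∀ z ∈ K, dist (h z) z < ε

theorem LEC.uc_local (L : LEC X) (hE : Eff X) {k : ℕ} (c : Ch R X (k + 1)) {x : X}
    (hx : bd k c ∈ In R {x}ᶜ k) :
    ∀ᶠ y in 𝓝 x, (c ∈ Br R {y} (k + 1) ↔ c ∈ Br R {x} (k + 1)) := by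
  by_cases h0 : c ∈ Br R {x} (k + 1)
  · obtain ⟨ε, hε, h⟩ := Bd_ball h0
    filter_upwards [closedBall_mem_nhds x hε] with y hy
    exact iff_of_true (Bd_anti (singleton_subset_iff.2 hy) _ h) h0
  obtain ⟨ρ, hρ, hb⟩ := Metric.isOpen_iff.1 (isCompact_car (bd k c)).isClosed.isOpen_compl x
    fun h => In_iff.1 hx h rfl
  obtain ⟨δ₁, hδ₁, h1⟩ := L.carrier (R := R) (isCompact_car c) (k + 1) (half_pos hρ)
  obtain ⟨δ, hδ, h2⟩ := hE x _ (isCompact_car c) δ₁ hδ₁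
  obtain ⟨n, hn⟩ := (eventually_SD_small c hδ₁).exists
  filter_upwards [ball_mem_nhds x hδ, ball_mem_nhds x (half_pos hρ)] with y hy hy'
  refine iff_of_false (fun hc => h0 ?_) h0
  obtain ⟨h, rfl, hh⟩ := h2 y hy
  obtain ⟨hD1, hD2⟩ := h1 (Sm (car c) δ₁) (low_Sm _ _) (fun B hB => hB)
    (fun j => push (h : C(X, X)) j - LinearMap.id) (by
      refine LinearMap.ext fun c => lin_ext _ _ (fun σ => ?_) c
      simp only [LinearMap.sub_apply, LinearMap.id_apply, push_single]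
      rw [Subsingleton.elim (ContinuousMap.comp _ σ) σ, sub_self]
      rfl)
    (fun j hj σ hσ => by
      simp only [LinearMap.sub_apply, LinearMap.id_apply, map_sub, bd_push])
    (fun j hj σ hσ => by
      refine Submodule.sub_mem _ ?_
        (single_CS (P := (· ⊆ thickening δ₁ (range σ))) (self_subset_thickening hδ₁ _) _)
      rw [push_single]
      refine single_CS (P := (· ⊆ thickening δ₁ (range σ))) ?_ _
      rintro _ ⟨p, rfl⟩
      exact mem_thickening_iff.2 ⟨σ p, ⟨p, rfl⟩, hh _ (hσ.1 ⟨p, rfl⟩)⟩)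
  have hs : SD n (k + 1) c ∈ CS R (Sm (car c) δ₁) (k + 1) :=
    CS_mono (fun B hB => ⟨hB.1, hB.2.2⟩) _ (CS_and (SD_In n (In_car c)) hn)
  have hoff : thickening (ρ / 2) (car (bd k c)) ⊆ {h x}ᶜ := by
    rintro _ hz rfl
    obtain ⟨z, hz, hd⟩ := mem_thickening_iff.1 hz
    refine hb (mem_ball.2 ?_) hz
    have := dist_triangle_left z x (h x)
    linarith [mem_ball.1 hy']
  have h3 : push (h : C(X, X)) (k + 1) (SD n (k + 1) c) - SD n (k + 1) c ∈ Br R {h x} (k + 1) :=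
    mem_Br.2 ⟨_, _, In_mono hoff _ (thick_In _ (hD2 k (Nat.le_succ k)) (bd_CS (low_Sm _ _) hs)
      (by rw [bd_SD]; exact SD_In n (In_car _))), by
        rw [hD1 k (Nat.lt_succ_self k) _ hs]
        simp⟩
  have h4 := SD_sub_Br (In_mono ((self_subset_thickening (half_pos hρ) _).trans hoff) _
    (In_car (bd k c))) n
  have h5 : SD n (k + 1) c ∈ Br R {x} (k + 1) := Br_of_push h (by
    simpa using Submodule.add_mem _ (Submodule.add_mem _ h3 h4) hc)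
  simpa using Submodule.sub_mem _ h5 (SD_sub_Br hx n)

/-- Unique continuation. -/
theorem LEC.uc (L : LEC X) (hE : Eff X) {k : ℕ} {c : Ch R X (k + 1)} {S : Set X}
    (hS : IsPreconnected S) (hc : bd k c ∈ In R Sᶜ k) {x y : X} (hx : x ∈ S) (hy : y ∈ S)
    (h : c ∈ Br R {x} (k + 1)) : c ∈ Br R {y} (k + 1) := by
  refine hS.induction₂' (fun a b => c ∈ Br R {a} (k + 1) → c ∈ Br R {b} (k + 1)) (fun a ha => ?_)
    (fun _ _ _ _ _ _ h1 h2 h3 => h2 (h1 h3)) hx hy h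
  filter_upwards [mem_nhdsWithin_of_mem_nhds (L.uc_local hE c
    (In_mono (compl_subset_compl.2 (singleton_subset_iff.2 ha)) _ hc))] with b hb
  exact ⟨hb.2, hb.1⟩

/-- Finite rank. -/
theorem LEC.fr (L : LEC X) [Nonempty X] [LocallyCompactSpace X] {n : ℕ} (hd : FineCov X n)
    {K O : Set X} (hK : IsCompact K) (hO : IsOpen O) (hKO : K ⊆ O) (k : ℕ) :
    ∃ M : Submodule R (Ch R X (k + 1)), M.FG ∧ (n + 1 ≤ k → M = ⊥) ∧
      ∀ c : Ch R X (k + 1), bd k c ∈ In R Oᶜ k → ∃ m ∈ M, c - m ∈ Br R K (k + 1) := by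
  obtain ⟨ρ₁, hρ₁, h1⟩ := hK.exists_isCompact_cthickening
  obtain ⟨ρ₂, hρ₂, h2⟩ := hK.exists_thickening_subset_open hO hKO
  set ρ := min (ρ₁ / 2) ρ₂ with hρ
  have hρ0 : 0 < ρ := lt_min (half_pos hρ₁) hρ₂
  obtain ⟨δ, hδ, M, hM, hM0, h⟩ := L.nerve (R := R) hd h1 k hρ0
  refine ⟨M, hM, hM0, fun c hc => ?_⟩
  obtain ⟨n, hn⟩ := (eventually_SD_small c (lt_min hδ hρ0)).exists
  obtain ⟨c₁, c₂, e, h3, h4, h5⟩ := exists_split (SD n (k + 1) c)
    fun B => (B ∩ thickening ρ K).Nonempty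
  have h6 : c₂ ∈ In R (thickening ρ K)ᶜ (k + 1) :=
    CS_mono (fun B hB y hy hy' => hB ⟨y, hy, hy'⟩) _ h4
  have hO' : Oᶜ ⊆ (thickening ρ K)ᶜ :=
    compl_subset_compl.2 ((thickening_mono (min_le_right _ _) _).trans h2)
  have h7 : c₁ ∈ CS R (Sm (cthickening ρ₁ K) δ) (k + 1) := by
    refine CS_mono (fun B ⟨⟨y, hy, hy'⟩, hB⟩ => ⟨fun z hz => ?_,
      fun a ha b hb => (hB.2 a ha b hb).trans_le (min_le_left _ _)⟩) _ (CS_and h3 (h5 _ hn).1)
    obtain ⟨w, hw, hyw⟩ := mem_thickening_iff.1 hy'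
    refine thickening_subset_cthickening _ _ (mem_thickening_iff.2 ⟨w, hw, ?_⟩)
    have := (hB.2 z hz y hy).trans_le (min_le_right _ _)
    have := dist_triangle z y w
    have : ρ ≤ ρ₁ / 2 := min_le_left _ _
    linarith
  obtain ⟨m, hm, d, f, hf, E⟩ := h c₁ h7 (thickening ρ K)ᶜ (by
      rw [eq_sub_of_add_eq e.symm, map_sub, bd_SD]
      exact Submodule.sub_mem _ (SD_In n (In_mono hO' _ hc)) (bd_In h6))
  have hK' : (thickening ρ K)ᶜ ⊆ Kᶜ := compl_subset_compl.2 (self_subset_thickening hρ0 _)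
  refine ⟨m, hm, ?_⟩
  have : c - m = bd (k + 1) d + f + c₂ - (SD n (k + 1) c - c) := by rw [e, E]; abel
  rw [this]
  refine Submodule.sub_mem _ (Submodule.add_mem _ (Submodule.add_mem _ (bd_Br d) (In_Br ?_))
    (In_Br (In_mono hK' _ h6))) (SD_sub_Br (In_mono (hO'.trans hK') _ hc) n)
  refine In_mono (fun y hy hy' => ?_) _ hf
  obtain ⟨z, hz, hyz⟩ := mem_thickening_iff.1 hy
  exact hz (mem_thickening_iff.2 ⟨y, hy', by rwa [dist_comm]⟩)

/-- Vanishing above the dimension. -/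
theorem LEC.top (L : LEC X) [Nonempty X] [LocallyCompactSpace X] {n : ℕ} (hd : FineCov X n)
    {k : ℕ} (hk : n + 1 ≤ k) (K : Set X) (hK : IsCompact K) (c : Ch R X (k + 1))
    (hc : bd k c ∈ In R Kᶜ k) : c ∈ Br R K (k + 1) := by
  obtain ⟨M, -, hM, h⟩ := L.fr (R := R) hd hK (isCompact_car (bd k c)).isClosed.isOpen_compl
    (fun x hx hx' => In_iff.1 hc hx' hx) k
  obtain ⟨m, hm, h⟩ := h c (by rw [compl_compl]; exact In_car _)
  rw [hM hk, Submodule.mem_bot] at hm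
  rwa [hm, sub_zero] at h

/-- If the local homology vanishes at `x`, it vanishes uniformly. -/
theorem LEC.van_unif [IsNoetherianRing R] (L : LEC X) [LocallyCompactSpace X] {n : ℕ}
    (hd : FineCov X n) {x : X} {k : ℕ} (hv : Van R x k) {r : ℝ} (hr : 0 < r) :
    ∃ ε > 0, ∀ c : Ch R X (k + 1), bd k c ∈ In R (ball x r)ᶜ k →
      c ∈ Br R (closedBall x ε) (k + 1) := by
  have : Nonempty X := ⟨x⟩
  obtain ⟨K, hK, hKs, hKc⟩ := local_compact_nhds (ball_mem_nhds x hr)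
  obtain ⟨M, hM, -, h⟩ := L.fr (R := R) hd hKc isOpen_ball hKs k
  have : IsNoetherian R M := isNoetherian_of_fg_of_noetherian M hM
  have hfg : (M ⊓ (In R Kᶜ k).comap (bd k)).FG := hM.of_le inf_le_left
  obtain ⟨s, hs⟩ := hfg
  have : ∀ᶠ ε in 𝓝[>] (0 : ℝ), ∀ m ∈ s, m ∈ Br R (closedBall x ε) (k + 1) := by
    refine (eventually_all_finset s).2 fun m hm => ?_
    have hm' : m ∈ M ⊓ (In R Kᶜ k).comap (bd k) := hs ▸ Submodule.subset_span hm
    obtain ⟨ε, hε, h⟩ := Bd_ball (hv m (In_mono (compl_subset_compl.2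
      (singleton_subset_iff.2 (mem_of_mem_nhds hK))) _ hm'.2))
    filter_upwards [Ioc_mem_nhdsGT hε] with η hη
    exact Bd_anti (closedBall_subset_closedBall hη.2) _ h
  obtain ⟨ε', hε', hb⟩ := Metric.nhds_basis_closedBall.mem_iff.1 hK
  obtain ⟨ε, h1, h2⟩ := (this.and (Ioc_mem_nhdsGT hε')).exists
  refine ⟨ε, h2.1, fun c hc => ?_⟩
  obtain ⟨m, hm, hcm⟩ := h c hc
  have hmem : m ∈ M ⊓ (In R Kᶜ k).comap (bd k) := by
    refine ⟨hm, ?_⟩
    have := Submodule.sub_mem _ (In_mono (compl_subset_compl.2 hKs) _ hc) (Br_bd hcm)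
    simpa using this
  have hm2 : m ∈ Br R (closedBall x ε) (k + 1) := by
    rw [← hs] at hmem
    exact Submodule.span_le.2 (fun a ha => h1 a ha) hmem
  simpa using Submodule.add_mem _
    (Bd_anti ((closedBall_subset_closedBall h2.2).trans hb) _ hcm) hm2

end Pool.Agent.Lib.MP_77749b_gt
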