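import Pool.Agent.Lib.MP_77749b_gt.Trick

namespace Pool.Agent.Lib.MP_77749b_gt

open Set Finsupp Metric Topology Filter

universe u

variable {R : Type} [Field R] {X : Type u} [MetricSpace X]

theorem exists_rel {V : Type*} [AddCommGroup V] [Module R V] {M : Submodule R V} (hM : M.FG)
    (m : Fin (Module.finrank R M + 1) → V) (hm : ∀ i, m i ∈ M) :
    ∃ g : Fin (Module.finrank R M + 1) → R, ∑ i, g i • m i = 0 ∧ ∃ j, g j ≠ 0 := by
  have : Module.Finite R M := Module.Finite.iff_fg.2 hM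
  obtain ⟨g, hg0, j, hj⟩ := Fintype.not_linearIndependent_iff.1
    fun h : LinearIndependent R fun i => (⟨m i, hm i⟩ : M) => by
      simpa using h.fintype_card_le_finrank
  exact ⟨g, by simpa using congrArg Subtype.val hg0, j, hj⟩

theorem rank_aux [LocallyCompactSpace X] (L : LEC X) (hE : Eff X) (hd : FineCov X 3)
    (hg : ∀ A : Set X, Arc A → Good A) {x : X} {D E F G V W Z L₁ : Set X} (hok : L.Ok x V W)
    (hVW : V ⊆ W) (hV : IsOpen V) (hEV : E ⊆ V) (hFZ : Disjoint F Z) (hGW : Disjoint G W) {r : ℝ}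
    (hr : 0 < r) (hZV : thickening r Z ⊆ V) (hLZ : L₁ ⊆ Z) (hDL : D ⊆ L₁) (hD : IsOpen D)
    (hDc : IsPathConnected D) {ρ : ℝ} (hρ : 0 < ρ) (hρD : closedBall x ρ ⊆ D)
    (hρE : Disjoint (closedBall x ρ) (E ∪ F))
    (hvan : ∀ u : Ch R X 3, bd 2 u ∈ In R Zᶜ 2 → u ∈ Br R L₁ 3)
    (harc : ∀ N : ℕ, ∃ T : Fin N → Thr D E F G, Pairwise fun i j => Disjoint (T i).im (T j).im)
    {s a : Ch R X 4} (hs : bd 3 s ∈ In R Vᶜ 3) (ha : bd 3 a ∈ In R Vᶜ 3) (h : s ∉ Br R {x} 4) :
    ∃ γ : R, a - γ • s ∈ Br R {x} 4 := by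
  by_contra hn
  have : Nonempty X := ⟨x⟩
  have hDV : D ⊆ V := hDL.trans (hLZ.trans ((self_subset_thickening hr _).trans hZV))
  have hx : x ∈ D := hρD (mem_closedBall_self hρ.le)
  have huc : ∀ c : Ch R X 4, bd 3 c ∈ In R Vᶜ 3 → ∀ y ∈ D, c ∈ Br R {y} 4 → c ∈ Br R {x} 4 :=
    fun c hc y hy => L.uc hE hDc.isConnected.isPreconnected
      (In_mono (compl_subset_compl.2 hDV) _ hc) hy hx
  obtain ⟨ρ₁, hρ₁, hle, ok₁⟩ := L.ok_pt x hρ
  obtain ⟨M, hM, -, hfr⟩ := L.fr (R := R) hd isCompact_singleton isOpen_ball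
    (singleton_subset_iff.2 (mem_ball_self (x := x) (half_pos hρ₁))) 3
  obtain ⟨T, hT⟩ := harc (Module.finrank R M + 1)
  have hcl : ∀ i, IsClosed (T i).im := fun i => (T i).arc.isCompact.isClosed
  have hp : ∀ i, (T i).a (T i).t₀ ∈ (T i).im := fun i => ⟨_, ⟨(T i).le0, (T i).le1⟩, rfl⟩
  have hμ : ∀ i, ∃ μ ∈ In R (D \ ⋃ j, (T j).im) 2, bd 1 μ = 0 ∧
      (a, μ) ∈ Lk R V (T i).lo (T i).hi ((T i).a (T i).t₀) ∧
      ∀ j ≠ i, ∃ u ∈ In R (V \ (T j).im) 3, bd 2 u = μ := by
    intro i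
    obtain ⟨ε, hε, hb⟩ := Metric.isOpen_iff.1 (hD.sdiff ((toFinite {j | j ≠ i}).isClosed_biUnion
      fun j _ => hcl j)) _ ⟨(T i).mid, fun h => by
        obtain ⟨j, hj, h⟩ := mem_iUnion₂.1 h
        exact Set.disjoint_left.1 (hT hj) h (hp i)⟩
    obtain ⟨δ, hδ, hδε, ok⟩ := L.ok_pt ((T i).a (T i).t₀) hε
    have hb' := (ball_subset_ball hδε).trans hb
    obtain ⟨μ, a1, a2, a3⟩ := Lk_exists (isCompact_Icc.image (T i).a.continuous).isClosed
      (isCompact_Icc.image (T i).a.continuous).isClosed (T i).inter isOpen_ball (mem_ball_self hδ)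
      (hb'.trans (sdiff_subset.trans hDV))
      (In_mono (compl_subset_compl.2 (singleton_subset_iff.2 (hDV (T i).mid))) _ ha)
    refine ⟨μ, In_mono (fun y hy => And.intro (hb' hy.1).1 fun h => ?_) _ a1, a2, a3,
      fun j hj => ?_⟩
    · obtain ⟨j, hj⟩ := mem_iUnion.1 h
      by_cases hji : j = i
      · exact hy.2 ((T i).lo_hi.ge (hji ▸ hj))
      · exact (hb' hy.1).2 (mem_iUnion₂.2 ⟨j, hji, hj⟩)
    · obtain ⟨u, hu, e⟩ := ok.fill (In_mono sdiff_subset _ a1) a2
      exact ⟨u, In_mono (fun y hy => And.intro (hDV (hb hy).1)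
        fun h => (hb hy).2 (mem_iUnion₂.2 ⟨j, hj, h⟩)) _ hu, e⟩
  choose μ m1 m2 m3 m4 using hμ
  have hξ : ∀ i, ∃ ξ : Ch R X 2 →ₗ[R] R, ξ (μ i) ≠ 0 ∧
      (∀ ν, (s, ν) ∈ Lk R V (T i).lo (T i).hi ((T i).a (T i).t₀) → ξ ν = 0) ∧
      ∀ u ∈ In R (V \ (T i).im) 3, ξ (bd 2 u) = 0 := fun i => by
    rw [← (T i).lo_hi]
    refine exists_xi (fun c hc => Lk_inj hE hok hVW
      (isPreconnected_Icc.image _ (T i).a.continuous.continuousOn)
      (isPreconnected_Icc.image _ (T i).a.continuous.continuousOn)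
      ⟨_, right_mem_Icc.2 (T i).le0, rfl⟩ ⟨_, left_mem_Icc.2 (T i).le1, rfl⟩
      ⟨_, left_mem_Icc.2 (T i).le0, rfl⟩ ⟨_, right_mem_Icc.2 (T i).le1, rfl⟩
      (Set.disjoint_left.1 hGW (T i).hs) (Set.disjoint_left.1 hGW (T i).ht) hc)
      (fun γ hγ => hn ⟨γ, huc _ ?_ _ (T i).mid hγ⟩) (m3 i)
    rw [map_sub, map_smul]
    exact sub_mem ha (Submodule.smul_mem _ _ hs)
  choose ξ x1 x2 x3 using hξ
  have hoff : Disjoint (closedBall x ρ) (⋃ j, (T j).im) :=
    hρE.mono_right (iUnion_subset fun j => (T j).im_sub)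
  obtain ⟨K, hK, hKc, hxK, hKD, hKμ⟩ := exists_K ((good_iUnion fun i => hg _ (T i).arc).2 D hD hDc)
    ⟨hx, Set.disjoint_left.1 hoff (mem_closedBall_self hρ.le)⟩
    (finite_iUnion fun i => (μ i).support.finite_toSet) fun σ hσ => by
      obtain ⟨i, hi⟩ := mem_iUnion.1 hσ
      exact mem_CS.1 (m1 i) σ hi
  obtain ⟨ε, hε, hεK⟩ := (isCompact_iUnion fun i => (T i).arc.isCompact
    ).exists_cthickening_subset_open (hK.isClosed.union (isClosed_closedBall (x := x) (ε := ρ))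
      ).isOpen_compl fun y hy h => h.elim (fun h => (hKD h).2 hy)
        fun h => Set.disjoint_left.1 hoff h hy
  set U := D \ cthickening ε (⋃ j, (T j).im) with hU
  have hU1 : ∀ i, U ⊆ L₁ \ thickening ε (T i).im := fun i => sdiff_subset_sdiff hDL
    ((thickening_subset_cthickening _ _).trans (cthickening_subset_of_subset _
      (subset_iUnion (fun j => (T j).im) i)))
  have hU2 : ∀ i, U ⊆ V \ (T i).im := fun i => sdiff_subset_sdiff hDV
    ((subset_iUnion (fun j => (T j).im) i).trans (self_subset_cthickening _))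
  have hU3 : ball x ρ ⊆ U := fun y hy => ⟨hρD (ball_subset_closedBall hy),
    fun h => hεK h (Or.inr (ball_subset_closedBall hy))⟩
  obtain ⟨δ, hδ, mono⟩ := L.monodromy (R := R) hE hK hKc (hD.sdiff isClosed_cthickening)
    (fun y hy => And.intro (hKD hy).1 fun h => hεK h (Or.inl hy)) hρ₁
  obtain ⟨n, hn1, hn2⟩ := ((eventually_SD_small s (lt_min hδ (half_pos hρ₁))).and
    (eventually_all.2 fun i => L.key (T i) hV hEV hFZ hr hZV hLZ hvan hs (x2 i) (x3 i) hε)).exists
  choose b hb using hn2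
  have hb' := fun i => In_mono (compl_subset_compl.2 (hU1 i)) _ (hb i)
  have hc : bd 3 (SD n 4 s) ∈ In R Uᶜ 3 := by
    rw [bd_SD]; exact SD_In n (In_mono (compl_subset_compl.2 (sdiff_subset.trans hDV)) _ hs)
  choose f hf _ using fun i => (ok₁.mono subset_rfl hU3).prim (η := ξ i)
    (fun u hu => x3 i u (In_mono (hU2 i) _ hu)) 0
  choose m hm hm' using fun i => hfr _ ((hf i).bd_cap (δ := min δ (ρ₁ / 2)) (r := ρ₁ / 2)
    (by linarith [min_le_right δ (ρ₁ / 2)]) ((ball_subset_ball (by linarith)).trans hU3) hn1 hc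
    (hb' i))
  obtain ⟨g, hg1, j, hj⟩ := exists_rel hM m hm
  have key := mono (∑ i, g i • ξ i) (SD n 4 s) (∑ i, g i • b i) (fun u hu => by
      simp only [LinearMap.sum_apply, LinearMap.smul_apply]
      exact Finset.sum_eq_zero fun i _ => by rw [x3 i u (In_mono (hU2 i) _ hu), smul_zero])
    (CS_mono (fun B hB => hB.mono (min_le_left _ _)) _ hn1) hc (by
      simp only [map_sum, map_smul, LinearMap.sum_apply, LinearMap.smul_apply,
        ← Finset.sum_sub_distrib, ← smul_sub]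
      exact Submodule.sum_mem _ fun i _ => Submodule.smul_mem _ _ (hb' i))
    (fun y hy h' => h (huc s hs y (hKD hy).1 (by
      simpa using sub_mem h' (SD_sub_Br (In_mono (compl_subset_compl.2
        (singleton_subset_iff.2 (hDV (hKD hy).1))) _ hs) n)))) x hxK (∑ i, g i • f i)
    (fun σ hσ => by
      simp only [LinearMap.sum_apply, LinearMap.smul_apply, Finset.sum_apply, Pi.smul_apply,
        ← Finset.sum_sub_distrib, ← smul_sub]
      exact Finset.sum_congr rfl fun i _ => by rw [hf i σ hσ]) (by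
      have := Submodule.sum_mem _ fun i (_ : i ∈ Finset.univ) => Submodule.smul_mem _ (g i) (hm' i)
      simp only [smul_sub, Finset.sum_sub_distrib, hg1, sub_zero, smul_add,
        Finset.sum_add_distrib] at this
      simpa only [map_sum, map_smul, LinearMap.sum_apply, LinearMap.smul_apply] using this)
    (μ j) (mem_CS.2 fun σ hσ => hKμ σ (mem_iUnion.2 ⟨j, hσ⟩)) (m2 j)
  rw [LinearMap.sum_apply, Finset.sum_eq_single j (fun i _ hi => by
    obtain ⟨u, hu, e⟩ := m4 j i hi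
    rw [LinearMap.smul_apply, ← e, x3 i u hu, smul_zero]) (by simp)] at key
  exact mul_ne_zero hj (x1 j) key

/-- The top local homology with field coefficients has rank at most one. -/
theorem LEC.rank_one [LocallyCompactSpace X] (L : LEC X) (hE : Eff X) (hd : FineCov X 3)
    (hv : ∀ k ≤ 2, ∀ x : X, Van R x k) {x : X} {s a : Ch R X 4} (hs : bd 3 s ∈ In R {x}ᶜ 3)
    (ha : bd 3 a ∈ In R {x}ᶜ 3) (h : s ∉ Br R {x} 4) : ∃ γ : R, a - γ • s ∈ Br R {x} 4 := by
  have := L.lpc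
  have hg : ∀ A : Set X, Arc A → Good A := fun A hA =>
    hA.good (hv 0 (by simp)) (hv 1 one_le_two) (hv 2 le_rfl)
  have hx := hg _ (arc_pt x)
  have hC := hx.2 _ (IsOpen.pathComponent x) isPathConnected_pathComponent
  obtain ⟨y, hy⟩ := hC.nonempty
  obtain ⟨r₀, ⟨hr₀, hry⟩, hcar⟩ : ∃ r, r ∈ Ioo 0 (dist y x) ∧
      closedBall x r ⊆ (car (bd 3 s) ∪ car (bd 3 a))ᶜ :=
    (Eventually.and (Ioo_mem_nhdsGT (dist_pos.2 hy.2)) (mem_nhdsWithin_of_mem_nhds
      (eventually_closedBall_subset (((isCompact_car _).union (isCompact_car _)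
        ).isClosed.isOpen_compl.mem_nhds fun h => h.elim (fun h => In_iff.1 hs h rfl)
          fun h => In_iff.1 ha h rfl)))).exists
  obtain ⟨r₁, hr₁, hle₁, ok⟩ := L.ok_pt x hr₀
  have hVo := (isOpen_ball (x := x) (ε := r₁)).pathComponentIn x
  have hVc := hx.2 _ hVo (isPathConnected_pathComponentIn (mem_ball_self hr₁))
  obtain ⟨q, hq⟩ := hVc.nonempty
  obtain ⟨r₂, ⟨hr₂, hle₂⟩, hqy⟩ := (Eventually.and (Ioo_mem_nhdsGT (half_pos hr₁))
    (joined_off (hC.joinedIn q ⟨hq.1.joined, hq.2⟩ y hy))).exists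
  obtain ⟨ε, hε, hvan⟩ := L.van_unif hd (hv 2 le_rfl x) hr₂
  have hε' := lt_min hε hr₂
  have hDo := (isOpen_ball (x := x) (ε := min ε r₂)).pathComponentIn x
  have hDc := isPathConnected_pathComponentIn (mem_ball_self (x := x) hε')
  have hDZ : pathComponentIn (ball x (min ε r₂)) x ⊆ closedBall x r₂ :=
    pathComponentIn_subset.trans ((ball_subset_ball (min_le_right _ _)).trans
      ball_subset_closedBall)
  obtain ⟨p, hp⟩ := (hx.2 _ hDo hDc).nonempty
  obtain ⟨ρ, ⟨hρ, hρD⟩, hpq⟩ := (Eventually.and (Eventually.and (eventually_mem_nhdsWithin (s := Ioi 0))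
    (mem_nhdsWithin_of_mem_nhds (eventually_closedBall_subset
      (hDo.mem_nhds (mem_pathComponentIn_self (mem_ball_self hε'))))))
    (joined_off (hVc.joinedIn p ⟨pathComponentIn_mono (ball_subset_ball
      ((min_le_right _ _).trans (by linarith))) hp.1, hp.2⟩ q hq))).exists
  have hV : ball x r₁ ⊆ closedBall x r₀ := (ball_subset_ball hle₁).trans ball_subset_closedBall
  have hE' : pathComponentIn (pathComponentIn (ball x r₁) x \ closedBall x ρ) p ⊆ ball x r₁ :=
    pathComponentIn_subset.trans (sdiff_subset.trans pathComponentIn_subset)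
  refine rank_aux L hE hd hg (E := pathComponentIn (pathComponentIn (ball x r₁) x \ closedBall x ρ) p)
    (F := pathComponentIn (pathComponent x \ closedBall x r₂) q) (G := (closedBall x r₀)ᶜ)
    (Z := ball x r₂) (L₁ := ball x (min ε r₂)) ok (ball_subset_ball hle₁) isOpen_ball hE'
    (Set.disjoint_left.2 fun z hz hz' => (pathComponentIn_subset hz).2 (ball_subset_closedBall hz'))
    (Set.disjoint_left.2 fun z hz hz' => hz (ball_subset_closedBall hz')) hr₂
    (fun z hz => ?_) (ball_subset_ball (min_le_right _ _)) pathComponentIn_subset hDo hDc hρ hρD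
    (Set.disjoint_left.2 fun z hz hz' => hz'.elim (fun h => (pathComponentIn_subset h).2 hz)
      fun h => (pathComponentIn_subset h).2 (hDZ (hρD hz)))
    (fun u hu => Bd_anti ((ball_subset_ball (min_le_left _ _)).trans ball_subset_closedBall) _
      (hvan u hu))
    (exists_thrs hg hDo ((hVo.sdiff isClosed_closedBall).pathComponentIn p)
      (((IsOpen.pathComponent x).sdiff isClosed_closedBall).pathComponentIn q)
      isClosed_closedBall.isOpen_compl (isPathConnected_pathComponentIn hpq.source_mem)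
      (isPathConnected_pathComponentIn hqy.source_mem)
      ⟨p, hp.1, mem_pathComponentIn_self hpq.source_mem⟩
      ⟨q, hpq, mem_pathComponentIn_self hqy.source_mem⟩ ⟨y, hqy, not_le.2 hry⟩
      (Set.disjoint_left.2 fun z hz hz' => (pathComponentIn_subset hz').2 (hDZ hz))
      (Set.disjoint_left.2 fun z hz hz' => hz' (hV (hE' hz))))
    (In_iff.2 fun z hz hz' => hcar (hV hz') (Or.inl hz))
    (In_iff.2 fun z hz hz' => hcar (hV hz') (Or.inr hz)) h
  obtain ⟨w, hw, hd⟩ := mem_thickening_iff.1 hz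
  have := dist_triangle z w x
  exact mem_ball.2 (by linarith [mem_ball.1 hw])

end Pool.Agent.Lib.MP_77749b_gt
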