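import Pool.Agent.Lib.MP_77749b_gt.Chain

namespace Pool.Agent.Lib.MP_77749b_gt

open Set Finsupp Metric

universe u

/-- The affine simplex with given vertices. -/
noncomputable def aff {k m : ℕ} (v : Fin k → Dl m) : C(Dl k, Dl m) where
  toFun p := ⟨∑ j, p j • (v j : Fin m → ℝ), (convex_stdSimplex ℝ (Fin m)).sum_mem
    (fun j _ => stdSimplex.zero_le p j) (stdSimplex.sum_eq_one p) fun j _ => (v j).2⟩
  continuous_toFun := by
    refine Continuous.subtype_mk (continuous_finsetSum _ fun j _ => ?_) _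
    exact ((continuous_apply j).comp continuous_subtype_val).smul continuous_const

theorem aff_coe {k m : ℕ} (v : Fin k → Dl m) (p : Dl k) :
    (aff v p : Fin m → ℝ) = ∑ j, p j • (v j : Fin m → ℝ) := rfl

theorem sum_map_smul {E : Type*} [AddCommGroup E] [Module ℝ E] {j k : ℕ} (g : Fin j → Fin k)
    (p : Dl j) (v : Fin k → E) : ∑ y, stdSimplex.map g p y • v y = ∑ x, p x • v (g x) := by
  simp only [stdSimplex.map_coe, FunOnFinite.linearMap_apply_apply, Finset.sum_smul]
  rw [← Finset.sum_fiberwise (s := Finset.univ) (g := g)]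
  refine Finset.sum_congr rfl fun y _ => Finset.sum_congr rfl fun x hx => ?_
  rw [(Finset.mem_filter.1 hx).2]

theorem aff_map {j k m : ℕ} (v : Fin k → Dl m) (g : Fin j → Fin k) (p : Dl j) :
    aff v (stdSimplex.map g p) = aff (v ∘ g) p :=
  stdSimplex.ext (by rw [aff_coe, aff_coe]; exact sum_map_smul g p fun y => (v y : Fin m → ℝ))

theorem map_aff {k m l : ℕ} (v : Fin k → Dl m) (g : Fin m → Fin l) (p : Dl k) :
    stdSimplex.map g (aff v p) = aff (stdSimplex.map g ∘ v) p := by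
  refine stdSimplex.ext ?_
  rw [stdSimplex.map_coe, aff_coe, aff_coe, map_sum]
  refine Finset.sum_congr rfl fun j _ => ?_
  rw [map_smul]
  rfl

theorem aff_vertex {k : ℕ} (p : Dl k) : aff (fun j => stdSimplex.vertex j) p = p := by
  refine stdSimplex.ext ?_
  rw [aff_coe]
  funext i
  simp [Finset.sum_apply, Pi.single_apply]

theorem aff_mem {k m : ℕ} (v : Fin k → Dl m) {Q : Set (Fin m → ℝ)} (hQ : Convex ℝ Q)
    (h : ∀ j, (v j : Fin m → ℝ) ∈ Q) (p : Dl k) : (aff v p : Fin m → ℝ) ∈ Q :=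
  hQ.sum_mem (fun j _ => stdSimplex.zero_le p j) (stdSimplex.sum_eq_one p) fun j _ => h j

/-- The barycentre of a tuple. -/
noncomputable def bc (m : ℕ) (k : ℕ) (v : Fin (k + 1) → Dl m) : Dl m :=
  aff v stdSimplex.barycenter

theorem map_bc {m l : ℕ} (g : Fin m → Fin l) (k : ℕ) (v : Fin (k + 1) → Dl m) :
    stdSimplex.map g (bc m k v) = bc l k (stdSimplex.map g ∘ v) := map_aff _ _ _

theorem dist_bc {m k : ℕ} (v : Fin (k + 1) → Dl m) {r : ℝ} (h : ∀ i j, dist (v i) (v j) ≤ r)
    (j : Fin (k + 1)) : dist (bc m k v) (v j) ≤ (k : ℝ) / (k + 1) * r := by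
  have hk : (0 : ℝ) < k + 1 := by positivity
  have e : (bc m k v : Fin m → ℝ) - v j =
      ∑ i, ((k : ℝ) + 1)⁻¹ • ((v i : Fin m → ℝ) - v j) := by
    simp only [smul_sub, Finset.sum_sub_distrib, Finset.sum_const, Finset.card_univ,
      Fintype.card_fin]
    congr 1
    · rw [bc, aff_coe]
      refine Finset.sum_congr rfl fun i _ => ?_
      congr 1
      change ((Fintype.card (Fin (k + 1)) : ℝ))⁻¹ = _
      simp
    · rw [← Nat.cast_smul_eq_nsmul ℝ, smul_smul]
      push_cast
      rw [mul_inv_cancel₀ hk.ne', one_smul]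
  change dist (bc m k v : Fin m → ℝ) (v j) ≤ _
  rw [dist_eq_norm, e, Fin.sum_univ_succAbove _ j, sub_self, smul_zero, zero_add]
  refine (norm_sum_le _ _).trans ?_
  have : ∀ i : Fin k, ‖((k : ℝ) + 1)⁻¹ • ((v (j.succAbove i) : Fin m → ℝ) - v j)‖ ≤
      ((k : ℝ) + 1)⁻¹ * r := fun i => by
    rw [norm_smul, Real.norm_of_nonneg (inv_nonneg.2 hk.le), ← dist_eq_norm]
    exact mul_le_mul_of_nonneg_left (h _ _) (inv_nonneg.2 hk.le)
  refine (Finset.sum_le_sum fun i _ => this i).trans (le_of_eq ?_)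
  simp only [Finset.sum_const, Finset.card_univ, Fintype.card_fin, nsmul_eq_mul]
  field_simp

variable {R : Type} [CommRing R]

/-- Tuples with entries in `Q`. -/
def inQ {m : ℕ} (Q : Set (Fin m → ℝ)) (k : ℕ) : Set (Fin k → Dl m) :=
  {v | ∀ j, (v j : Fin m → ℝ) ∈ Q}

/-- Tuples of diameter at most `r`. -/
def smT (m : ℕ) (r : ℝ) (k : ℕ) : Set (Fin k → Dl m) := {v | ∀ i j, dist (v i) (v j) ≤ r}

theorem ts_convex {m : ℕ} {Q : Set (Fin m → ℝ)} (hQ : Convex ℝ Q) : ∀ (k : ℕ) (c : Tp R (Dl m) k),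
    c ∈ supported R R (inQ Q k) → ts (bc m) k c ∈ supported R R (inQ Q k)
  | 0, _, h => h
  | k + 1, c, h => by
    refine lin_mem _ _ (fun v hv => ?_) h
    rw [ts_single]
    have h1 := ts_convex hQ k _ (tb_mem (P := inQ Q (k + 1)) (Q := inQ Q k)
      (fun v hv i j => hv _) (single_mem hv (1 : R)))
    refine md_mem _ (fun w hw j => ?_) h1
    exact Fin.cases (aff_mem v hQ hv _) (fun j => hw j) j

theorem ts_small {m : ℕ} {r : ℝ} (hr : 0 ≤ r) : ∀ (k : ℕ) (c : Tp R (Dl m) k),
    c ∈ supported R R (smT m r k) →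
      ts (bc m) k c ∈ supported R R (smT m ((k : ℝ) / (k + 1) * r) k)
  | 0, _, _ => (mem_supported _ _).2 fun _ _ i => i.elim0
  | k + 1, c, h => by
    refine lin_mem _ _ (fun v hv => ?_) h
    rw [ts_single]
    have hk : (k : ℝ) / (k + 1) * r ≤ ((k + 1 : ℕ) : ℝ) / ((k + 1 : ℕ) + 1) * r := by
      refine mul_le_mul_of_nonneg_right ?_ hr
      push_cast
      rw [div_le_div_iff₀ (by positivity) (by positivity)]
      nlinarith
    have h1 := ts_small hr k _ (tb_mem (P := smT m r (k + 1)) (Q := smT m r k)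
      (fun v hv i a b => hv _ _) (single_mem hv (1 : R)))
    have hb : v ∈ inQ (closedBall (bc m k v : Fin m → ℝ) ((k : ℝ) / (k + 1) * r)) (k + 1) :=
      fun j => mem_closedBall'.2 (dist_bc v hv j)
    have h2 := ts_convex (convex_closedBall (bc m k v : Fin m → ℝ) ((k : ℝ) / (k + 1) * r)) k _
      (tb_mem (P := inQ _ (k + 1)) (Q := inQ _ k) (fun v hv i j => hv _) (single_mem hb (1 : R)))
    have h3 : ts (bc m) k (tb k (single v (1 : R))) ∈ supported R R
        (smT m ((k : ℝ) / (k + 1) * r) k ∩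
          inQ (closedBall (bc m k v : Fin m → ℝ) ((k : ℝ) / (k + 1) * r)) k) :=
      (mem_supported _ _).2 fun w hw => ⟨(mem_supported _ _).1 h1 hw, (mem_supported _ _).1 h2 hw⟩
    refine md_mem _ (fun w hw => ?_) h3
    intro i j
    refine le_trans ?_ hk
    refine Fin.cases ?_ (fun i => ?_) i <;> refine Fin.cases ?_ (fun j => ?_) j
    · rw [dist_self]; positivity
    · exact mem_closedBall'.1 (hw.2 j)
    · exact mem_closedBall.1 (hw.2 i)
    · exact hw.1 i j

theorem tsi_small {m k : ℕ} (c : Tp R (Dl m) k) : ∀ n : ℕ,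
    tsi (bc m) k n c ∈ supported R R (smT m (((k : ℝ) / (k + 1)) ^ n) k)
  | 0 => (mem_supported _ _).2 fun v _ i j => by
    rw [pow_zero]
    exact (dist_le_diam_of_mem (bounded_stdSimplex _) (v i).2 (v j).2).trans diam_stdSimplex_le
  | n + 1 => by
    rw [pow_succ']
    exact ts_small (by positivity) k _ (tsi_small c n)

variable {X : Type u} [TopologicalSpace X]

/-- The realisation of a tuple of points of the standard simplex. -/
noncomputable def real {k m : ℕ} (σ : Sx X m) (v : Fin k → Dl m) : Sx X k := σ.comp (aff v)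

theorem range_real {k m : ℕ} (σ : Sx X m) (v : Fin k → Dl m) : range (real σ v) ⊆ range σ := by
  rintro _ ⟨p, rfl⟩
  exact ⟨_, rfl⟩

theorem bd_real {k m : ℕ} (σ : Sx X m) (c : Tp R (Dl m) (k + 1)) :
    bd k (md (real σ) c) = md (real σ) (tb k c) :=
  bd_md (P := univ) _ _ (fun v _ i => by
    ext p
    exact congrArg σ (aff_map v _ p)) (by simp)

theorem md_real_tm {k m l : ℕ} (σ : Sx X l) (g : Fin m → Fin l) (c : Tp R (Dl m) k) :
    md (real σ) (tm (stdSimplex.map g) k c) = md (real (res g σ)) c := by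
  rw [tm, md_md]
  congr 2
  funext v
  ext p
  exact congrArg σ (map_aff v g p).symm

/-- The tuple of vertices. -/
noncomputable def ve (k : ℕ) : Fin k → Dl k := fun j => stdSimplex.vertex j

theorem real_ve {k : ℕ} (σ : Sx X k) : real σ (ve k) = σ := by
  ext p
  exact congrArg σ (aff_vertex p)

theorem ve_comp {k : ℕ} (i : Fin (k + 1)) :
    single (ve (k + 1) ∘ i.succAbove) (1 : R) = tm (stdSimplex.map i.succAbove) k (single (ve k) 1) := by
  rw [tm_single]
  congr 1
  funext j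
  exact (stdSimplex.map_vertex _ _).symm

/-- Iterated barycentric subdivision of singular chains. -/
noncomputable def SD (n k : ℕ) : Ch R X k →ₗ[R] Ch R X k :=
  lx fun σ => md (real σ) (tsi (bc k) k n (single (ve k) 1))

/-- The chain homotopy between the iterated subdivision and the identity. -/
noncomputable def TD (n k : ℕ) : Ch R X k →ₗ[R] Ch R X (k + 1) :=
  lx fun σ => md (real σ) (thi (bc k) k n (single (ve k) 1))

theorem bd_SD (n k : ℕ) (c : Ch R X (k + 1)) : bd k (SD n (k + 1) c) = SD n k (bd k c) := by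
  refine lin_ext ((bd k).comp (SD n (k + 1))) ((SD n k).comp (bd k)) (fun σ => ?_) c
  simp only [LinearMap.comp_apply, bd_single, map_sum, map_smul, SD, lx_single]
  rw [bd_real, tb_tsi, tb_single]
  simp only [map_sum, map_smul]
  refine Finset.sum_congr rfl fun i _ => ?_
  rw [ve_comp, ← tm_tsi (map_bc _), md_real_tm]

theorem bd_TD (n k : ℕ) (c : Ch R X (k + 1)) :
    bd (k + 1) (TD n (k + 1) c) = SD n (k + 1) c - c - TD n k (bd k c) := by
  refine lin_ext ((bd (k + 1)).comp (TD n (k + 1)))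
    (SD n (k + 1) - LinearMap.id - (TD n k).comp (bd k)) (fun σ => ?_) c
  simp only [LinearMap.comp_apply, LinearMap.sub_apply, LinearMap.id_apply, bd_single, map_sum,
    map_smul, SD, TD, lx_single]
  rw [bd_real, tb_thi, tb_single]
  simp only [map_sub, map_sum, map_smul, md_single, real_ve]
  congr 1
  refine Finset.sum_congr rfl fun i _ => ?_
  rw [ve_comp, ← tm_thi (map_bc _), md_real_tm]

theorem md_real_CS {P : Set X → Prop} (hP : Low P) {k m : ℕ} {σ : Sx X m} (h : P (range σ))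
    (c : Tp R (Dl m) k) : md (real σ) c ∈ CS R P k :=
  md_mem (P := univ) (Q := {τ : Sx X k | P (range τ)}) (real σ)
    (fun v _ => hP (range_real σ v) h) (by simp)

theorem SD_CS {P : Set X → Prop} (hP : Low P) (n : ℕ) {k : ℕ} {c : Ch R X k}
    (hc : c ∈ CS R P k) : SD n k c ∈ CS R P k :=
  CS_lin _ _ (fun σ hσ => by rw [SD, lx_single]; exact md_real_CS hP hσ _) hc

theorem TD_CS {P : Set X → Prop} (hP : Low P) (n : ℕ) {k : ℕ} {c : Ch R X k}
    (hc : c ∈ CS R P k) : TD n k c ∈ CS R P (k + 1) :=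
  CS_lin _ _ (fun σ hσ => by rw [TD, lx_single]; exact md_real_CS hP hσ _) hc

theorem SD_In {A : Set X} (n : ℕ) {k : ℕ} {c : Ch R X k} (hc : c ∈ In R A k) :
    SD n k c ∈ In R A k := SD_CS (low_sub A) n hc

theorem TD_In {A : Set X} (n : ℕ) {k : ℕ} {c : Ch R X k} (hc : c ∈ In R A k) :
    TD n k c ∈ In R A (k + 1) := TD_CS (low_sub A) n hc

/-- High subdivisions are subordinate to a given open cover. -/
theorem eventually_SD {k : ℕ} (c : Ch R X (k + 1)) {ι : Type*} (U : ι → Set X)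
    (hU : ∀ i, IsOpen (U i)) (hc : c ∈ In R (⋃ i, U i) (k + 1)) :
    ∀ᶠ n in Filter.atTop, SD n (k + 1) c ∈ CS R (fun B => ∃ i, B ⊆ U i) (k + 1) := by
  have key : ∀ σ ∈ c.support, ∀ᶠ n in Filter.atTop,
      SD n (k + 1) (single σ (1 : R)) ∈ CS R (fun B => ∃ i, B ⊆ U i) (k + 1) := by
    intro σ hσ
    obtain ⟨δ, hδ, hL⟩ := lebesgue_number_lemma_of_metric (s := univ) (c := fun i => σ ⁻¹' U i)
      isCompact_univ (fun i => (hU i).preimage σ.continuous) (fun p _ => by
        simpa using mem_CS.1 hc σ hσ ⟨p, rfl⟩)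
    have hq : ((k + 1 : ℕ) : ℝ) / ((k + 1 : ℕ) + 1) < 1 := by
      rw [div_lt_one (by positivity)]; linarith
    have := (tendsto_pow_atTop_nhds_zero_of_lt_one (by positivity) hq).eventually
      (gt_mem_nhds hδ)
    filter_upwards [this] with n hn
    rw [SD, lx_single]
    refine md_mem (Q := {τ : Sx X (k + 1) | ∃ i, range τ ⊆ U i}) (real σ) (fun v hv => ?_)
      (tsi_small _ n)
    obtain ⟨i, hi⟩ := hL (v 0) (mem_univ _)
    refine ⟨i, ?_⟩
    rintro _ ⟨p, rfl⟩
    refine hi (mem_ball.2 (lt_of_le_of_lt ?_ hn))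
    exact mem_closedBall.1 (aff_mem v (convex_closedBall (v 0 : Fin (k + 1) → ℝ) _)
      (fun j => mem_closedBall.2 (hv j _)) p)
  filter_upwards [(Filter.eventually_all_finset c.support).2 key] with n hn
  exact lin_mem _ _ (fun σ hσ => hn σ hσ) (mem_supp_self c)

end Pool.Agent.Lib.MP_77749b_gt
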