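import Pool.Agent.Lib.MP_77749b_gt.Tube

namespace Pool.Agent.Lib.MP_77749b_gt

open Set Finsupp Metric Topology Filter

universe u

variable {R : Type} [CommRing R] {X : Type u} [MetricSpace X]

namespace Thr

variable {D E F G : Set X} (T : Thr D E F G)

/-- The first half of the arc. -/
def lo : Set X := T.a '' Icc T.s T.t₀

/-- The second half of the arc. -/
def hi : Set X := T.a '' Icc T.t₀ T.t

theorem le0 : T.s ≤ T.t₀ := T.h1.trans T.h2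

theorem le1 : T.t₀ ≤ T.t := T.h3.trans T.h4

theorem lo_hi : T.lo ∪ T.hi = T.im := by
  rw [lo, hi, ← image_union, Icc_union_Icc_eq_Icc T.le0 T.le1, im]

theorem inter : T.lo ∩ T.hi ⊆ {T.a T.t₀} := by
  rintro _ ⟨⟨p, hp, rfl⟩, q, hq, e⟩
  have := T.inj ⟨T.le0.trans hq.1, hq.2⟩ ⟨hp.1, hp.2.trans T.le1⟩ e
  rw [le_antisymm hp.2 (this ▸ hq.1)]
  rfl

theorem im_sub : T.im ⊆ E ∪ F := by
  rintro _ ⟨u, hu, rfl⟩
  rcases le_total u T.t₁ with h | h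
  · exact Or.inr (T.inF u (Or.inl ⟨hu.1, h⟩))
  · rcases le_total u T.t₂ with h' | h'
    exacts [Or.inl (T.inE u ⟨h, h'⟩), Or.inr (T.inF u (Or.inr ⟨h', hu.2⟩))]

end Thr

/-- The cap product of a class with a cocycle that kills its linking cycles bounds. -/
theorem LEC.key [LocallyCompactSpace X] (L : LEC X) {D E F G V Z L₁ : Set X} (T : Thr D E F G)
    (hV : IsOpen V) (hEV : E ⊆ V) (hFZ : Disjoint F Z) {r : ℝ} (hr : 0 < r)
    (hZV : thickening r Z ⊆ V) (hLZ : L₁ ⊆ Z)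
    (hvan : ∀ u : Ch R X 3, bd 2 u ∈ In R Zᶜ 2 → u ∈ Br R L₁ 3) {s : Ch R X 4}
    (hs : bd 3 s ∈ In R Vᶜ 3) {ξ : Ch R X 2 →ₗ[R] R}
    (h1 : ∀ ν, (s, ν) ∈ Lk R V T.lo T.hi (T.a T.t₀) → ξ ν = 0)
    (h2 : ∀ u ∈ In R (V \ T.im) 3, ξ (bd 2 u) = 0) {ε : ℝ} (hε : 0 < ε) :
    ∀ᶠ n in atTop, ∃ b : Ch R X 4,
      bd 3 b - cap1 2 ξ (SD n 4 s) ∈ In R (L₁ \ thickening ε T.im)ᶜ 3 := by
  obtain ⟨τ, hτ, hτ'⟩ : ∃ τ : C(X, ℝ), (∀ u ∈ Icc T.s T.t, τ (T.a u) = u) ∧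
      ∀ v, τ v ∈ Icc T.s T.t := by
    obtain ⟨τ, hτ⟩ := exists_param T.a.continuous T.inj
    exact ⟨⟨fun v => projIcc _ _ (T.le0.trans T.le1) (τ v), by fun_prop⟩, fun u hu => by
      simp [hτ u hu, projIcc_of_mem _ hu], fun v => (projIcc _ _ (T.le0.trans T.le1) (τ v)).2⟩
  obtain ⟨κ₁, hκ₁, hκV⟩ := ((isCompact_Icc (a := T.t₁) (b := T.t₂)).image T.a.continuous
    ).exists_thickening_subset_open hV (by rintro _ ⟨u, hu, rfl⟩; exact hEV (T.inE u hu))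
  set κ := min (ε / 2) (min κ₁ r / 2) with hκ
  have k0 : 0 < κ := lt_min (half_pos hε) (half_pos (lt_min hκ₁ hr))
  have k1 : κ ≤ ε / 2 := min_le_left _ _
  have k2 : κ ≤ min κ₁ r / 2 := min_le_right _ _
  obtain ⟨δ₁, hδ₁, hnear, tube⟩ := L.tube (R := R) T.a τ T.h2 T.h3 hτ hτ'
    (fun u hu => Set.disjoint_left.1 hFZ (T.inF u hu)) k0
  set H := T.a '' Icc T.t₁ T.t₂ ∪ Z with hH
  have hHV : thickening (κ + κ) H ⊆ V := by
    rw [hH, thickening_union]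
    exact union_subset ((thickening_mono (by linarith [min_le_left κ₁ r]) _).trans hκV)
      ((thickening_mono (by linarith [min_le_right κ₁ r]) _).trans hZV)
  set N := (thickening κ H)ᶜ with hN
  have hNH : N ⊆ Hᶜ := compl_subset_compl.2 (self_subset_thickening k0 _)
  have hNZ : N ⊆ Zᶜ := hNH.trans (compl_subset_compl.2 subset_union_right)
  have hVN : Vᶜ ⊆ N := compl_subset_compl.2 ((thickening_mono (by linarith) _).trans hHV)
  have hpH : T.a T.t₀ ∈ H := Or.inl ⟨_, ⟨T.h2, T.h3⟩, rfl⟩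
  have hNp : N ⊆ {T.a T.t₀}ᶜ := hNH.trans (compl_subset_compl.2 (singleton_subset_iff.2 hpH))
  have hS : ∀ v ∈ N ∩ thickening δ₁ T.im, τ v ∉ Icc T.t₁ T.t₂ := fun v hv h =>
    hv.1 (mem_thickening_iff.2 ⟨_, Or.inl ⟨_, h, rfl⟩, hnear v hv.2⟩)
  filter_upwards [eventually_SD_small s (lt_min hδ₁ k0)] with n hn
  obtain ⟨cV, cf, e1, a1, a2, a3⟩ := exists_split (SD n 4 s) (· ⊆ V)
  obtain ⟨ci, co, e2, b1, b2, b3⟩ := exists_split cV fun B => (B ∩ T.im).Nonempty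
  have hf : cf ∈ In R N 4 := CS_mono (fun B hB y hy hy' => hB.1 fun z hz => hHV
    (thickening_thickening_subset _ _ _ (mem_thickening_iff.2
      ⟨y, hy', (hB.2.2 z hz y hy).trans_le (min_le_right _ _)⟩))) _ (CS_and a2 (a3 _ hn).2)
  have ho : co ∈ In R (V \ T.im) 4 := by
    refine CS_mono (fun B hB y hy => ?_) _ (CS_and b2 (b3 _ a1).2)
    exact ⟨hB.2 hy, fun h => hB.1 ⟨y, hy, h⟩⟩
  have hi : ci ∈ CS R (Sm (thickening (min δ₁ κ) T.im) (min δ₁ κ)) 4 :=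
    CS_mono (fun B ⟨⟨y, hy, hy'⟩, hB⟩ => ⟨fun z hz => mem_thickening_iff.2
      ⟨y, hy', hB.2 z hz y hy⟩, hB.2⟩) _ (CS_and b1 (b3 _ (a3 _ hn).1).1)
  have hi' : ci ∈ CS R (Sm (thickening δ₁ T.im) δ₁) 4 := CS_mono (fun B hB =>
    ⟨hB.1.trans (thickening_mono (min_le_left _ _) _), (hB.mono (min_le_left _ _)).2⟩) _ hi
  have hb : bd 3 (SD n 4 s) - bd 3 cf ∈ In R N 3 :=
    sub_mem (by rw [bd_SD]; exact SD_In n (In_mono hVN _ hs)) (bd_In hf)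
  have e3 : bd 3 co = bd 3 (SD n 4 s) - bd 3 cf - bd 3 ci := by
    rw [e1, e2, map_add, map_add]; abel
  have hy : bd 3 ci ∈ CS R (fun B => B ⊆ N ∨ B ⊆ V \ T.im) 3 := by
    rw [show bd 3 ci = bd 3 (SD n 4 s) - bd 3 cf - bd 3 co by rw [e3]; abel]
    exact sub_mem (CS_mono (fun _ => Or.inl) _ hb) (CS_mono (fun _ => Or.inr) _ (bd_In ho))
  have hy' := bd_CS (low_Sm _ _) hi'
  have hyV := bd_In (b3 _ a1).1
  have hz : bd 1 (cap1 1 ξ (bd 3 ci)) = cap2 0 ξ (bd 3 ci) := by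
    rw [bd_cap1, bd_bd, map_zero, sub_zero]
  have hside : ∀ σ : Sx X 3, range σ ⊆ N ∩ thickening δ₁ T.im → ∀ v ∈ range σ, ∀ w ∈ range σ,
      τ v ≤ T.t₀ → T.t₀ ≤ τ w → False := fun σ hσ v hv w hw h h' => by
    obtain ⟨_, hx, e⟩ := ((isPreconnected_range σ.continuous).image τ
      τ.continuous.continuousOn).Icc_subset ⟨v, hv, rfl⟩ ⟨w, hw, rfl⟩ ⟨h, h'⟩
    exact hS _ (hσ hx) (e ▸ ⟨T.h2, T.h3⟩)
  obtain ⟨w, hw, hzw⟩ := tube (cap1 1 ξ (bd 3 ci)) (capg_self _ _ (low_Sm _ _) hy')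
    (N ∩ thickening δ₁ T.im) (In_inter (hz ▸ cap2_CS h2 (low_sub N) hy)
      (bd_In (capg_self _ _ (low_sub _) (CS_mono (fun _ h => h.1) _ hy')))) hS
    (fun y hy hyZ => by
      obtain ⟨z, hz, hd⟩ := mem_thickening_iff.1 hy
      exact hz.1 (mem_thickening_iff.2 ⟨y, Or.inr hyZ, by rwa [dist_comm]⟩)) (by
    rw [hz, ev_cap2]
    refine h1 _ ⟨ci, (b3 _ a1).1, ?_, cap0 2 (fun v => if T.t₀ < τ v then (1 : R) else 0) (bd 3 ci),
      capg_CS _ _ (low_sub _) (fun σ hσ => ?_) (CS_and (CS_and hy hy') hyV), ?_, rfl⟩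
    · have : s - ci = co + cf - (SD n 4 s - s) := by rw [e1, e2]; abel
      rw [this]
      exact sub_mem (In_Br (add_mem (In_mono (subset_compl_singleton_iff.2
        fun h => h.2 ⟨_, ⟨T.le0, T.le1⟩, rfl⟩) _ ho) (In_mono hNp _ hf)))
        (SD_sub_Br (In_mono (hVN.trans hNp) _ hs) n)
    · refine or_iff_not_imp_left.2 fun h0 y hy => ⟨hσ.2 hy, ?_⟩
      rintro ⟨u, hu, rfl⟩
      have hu' : u ∈ Icc T.s T.t := ⟨hu.1, hu.2.trans T.le1⟩
      rcases hσ.1.1 with h | h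
      · exact hside σ (subset_inter h hσ.1.2.1) _ hy _ (vx_mem σ 2) ((hτ u hu').le.trans hu.2)
          (by by_contra h3; exact h0 (if_neg fun h4 => h3 h4.le))
      · exact (h hy).2 ⟨u, hu', rfl⟩
    · rw [show bd 3 ci - cap0 2 (fun v => if T.t₀ < τ v then (1 : R) else 0) (bd 3 ci) =
        cap0 2 (1 - fun v => if T.t₀ < τ v then (1 : R) else 0) (bd 3 ci) by
          rw [map_sub, LinearMap.sub_apply, cap0_one]]
      refine capg_CS _ _ (low_sub _) (fun σ hσ => ?_) (CS_and (CS_and hy hy') hyV)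
      refine or_iff_not_imp_left.2 fun h0 y hy => ⟨hσ.2 hy, ?_⟩
      rintro ⟨u, hu, rfl⟩
      have hu' : u ∈ Icc T.s T.t := ⟨T.le0.trans hu.1, hu.2⟩
      rcases hσ.1.1 with h | h
      · exact hside σ (subset_inter h hσ.1.2.1) _ (vx_mem σ 2) _ hy
          (by by_contra h3; exact h0 (by simp [not_le.1 h3])) (hu.1.trans (hτ u hu').ge)
      · exact (h hy).2 ⟨u, hu', rfl⟩)
  obtain ⟨b, e, he, E⟩ := mem_Br.1 (hvan (cap1 2 ξ co - w) (by
    have h3 : cap2 1 ξ co = 0 := by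
      have := cap2_CS (Q := fun _ => False) h2 (fun _ _ _ h => h) (CS_mono (fun _ => Or.inr) _ ho)
      rw [← support_eq_empty, Finset.eq_empty_iff_forall_notMem]
      exact mem_CS.1 this
    have := sub_mem hzw (In_mono hNZ _ (capg_self Fin.succ
      (fun σ => ξ (single (res ![0, 1] σ) 1)) (low_sub _) hb))
    rw [← cap1_def] at this
    rw [map_sub, bd_cap1, h3, e3, map_sub (cap1 1 ξ)]
    refine (congrArg (· ∈ In R Zᶜ 2) ?_).mp this
    abel))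
  refine ⟨b, ?_⟩
  have hT : thickening ε T.im ⊆ (L₁ \ thickening ε T.im)ᶜ := fun y hy h => h.2 hy
  have hL : L₁ᶜ ⊆ (L₁ \ thickening ε T.im)ᶜ := compl_subset_compl.2 sdiff_subset
  rw [show bd 3 b - cap1 2 ξ (SD n 4 s) = -(w + e + cap1 2 ξ ci + cap1 2 ξ cf) by
    rw [eq_sub_of_add_eq E.symm, e1, e2, map_add, map_add]; abel]
  exact neg_mem (add_mem (add_mem (add_mem
    (In_mono ((thickening_mono (by linarith) _).trans hT) _ hw) (In_mono hL _ he))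
    (capg_self _ _ (low_sub _) (CS_mono (fun B hB => hB.1.trans
      ((thickening_mono (by linarith [min_le_right δ₁ κ]) _).trans hT)) _ hi)))
    (capg_self _ _ (low_sub _) (In_mono (hNZ.trans ((compl_subset_compl.2 hLZ).trans hL)) _ hf)))

theorem joined_off {D : Set X} {x u v : X} (h : JoinedIn (D \ {x}) u v) :
    ∀ᶠ r in 𝓝[>] (0 : ℝ), JoinedIn (D \ closedBall x r) u v := by
  obtain ⟨γ, hγ⟩ := h
  have := (isCompact_range γ.continuous).isClosed.isOpen_compl.mem_nhds (x := x) (by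
    rintro ⟨t, ht⟩; exact (hγ t).2 ht)
  filter_upwards [mem_nhdsWithin_of_mem_nhds (eventually_closedBall_subset this)] with r hr
  exact ⟨γ, fun t => ⟨(hγ t).1, fun h => hr h ⟨t, rfl⟩⟩⟩

theorem exists_K {D : Set X} (hD : IsPathConnected D) {x : X} (hx : x ∈ D) {S : Set (Sx X 2)}
    (hS : S.Finite) (h : ∀ σ ∈ S, range σ ⊆ D) : ∃ K, IsCompact K ∧ IsPreconnected K ∧ x ∈ K ∧
      K ⊆ D ∧ ∀ σ ∈ S, range σ ⊆ K := by
  choose! τ h1 h2 h3 using fun σ (hσ : σ ∈ S) =>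
    exists_edge (hD.joinedIn x hx _ (h σ hσ (vx_mem σ 0)))
  refine ⟨{x} ∪ ⋃ σ ∈ S, range (τ σ) ∪ range σ, isCompact_singleton.union (hS.isCompact_biUnion
    fun σ _ => (isCompact_range (τ σ).continuous).union (isCompact_range σ.continuous)),
    isPreconnected_of_forall x ?_, Or.inl rfl, union_subset (singleton_subset_iff.2 hx)
      (iUnion₂_subset fun σ hσ => union_subset (h1 σ hσ) (h σ hσ)),
    fun σ hσ y hy => Or.inr (mem_iUnion₂.2 ⟨σ, hσ, Or.inr hy⟩)⟩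
  rintro y (rfl | hy)
  · exact ⟨{y}, subset_union_left, rfl, rfl, isPreconnected_singleton⟩
  · obtain ⟨σ, hσ, hy⟩ := mem_iUnion₂.1 hy
    exact ⟨range (τ σ) ∪ range σ, fun z hz => Or.inr (mem_iUnion₂.2 ⟨σ, hσ, hz⟩),
      Or.inl (h2 σ hσ ▸ vx_mem _ 0), hy, (isPreconnected_range (τ σ).continuous).union (vx σ 0)
        (h3 σ hσ ▸ vx_mem _ 1) (vx_mem σ 0) (isPreconnected_range σ.continuous)⟩

end Pool.Agent.Lib.MP_77749b_gt
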