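import Pool.Agent.Lib.MP_77749b_gt.Cap

namespace Pool.Agent.Lib.MP_77749b_gt

open Set Finsupp Metric Topology Filter

universe u

variable {R : Type} [CommRing R] {X : Type u} [MetricSpace X]

/-- The linking relation. -/
def Lk (R : Type) [CommRing R] (V A B : Set X) (p : X) : Submodule R (Ch R X 4 × Ch R X 2) where
  carrier := {q | ∃ c ∈ In R V 4, q.1 - c ∈ Br R {p} 4 ∧ ∃ y ∈ In R (V \ A) 3,
    bd 3 c - y ∈ In R (V \ B) 3 ∧ q.2 = bd 2 y}
  zero_mem' := ⟨0, zero_mem _, by simp, 0, zero_mem _, by simp, by simp⟩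
  add_mem' := by
    rintro q q' ⟨c, a1, a2, y, a3, a4, a5⟩ ⟨c', b1, b2, y', b3, b4, b5⟩
    refine ⟨c + c', add_mem a1 b1, ?_, y + y', add_mem a3 b3, ?_, by simp [a5, b5]⟩
    · rw [Prod.fst_add, add_sub_add_comm]; exact add_mem a2 b2
    · rw [map_add, add_sub_add_comm]; exact add_mem a4 b4
  smul_mem' := by
    rintro r q ⟨c, a1, a2, y, a3, a4, a5⟩
    refine ⟨r • c, Submodule.smul_mem _ _ a1, ?_, r • y, Submodule.smul_mem _ _ a3, ?_,
      by simp [a5]⟩
    · rw [Prod.smul_fst, ← smul_sub]; exact Submodule.smul_mem _ _ a2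
    · rw [map_smul, ← smul_sub]; exact Submodule.smul_mem _ _ a4

theorem Lk_bd {V A B : Set X} {p : X} {u : Ch R X 3} (hu : u ∈ In R (V \ (A ∪ B)) 3) :
    ((0 : Ch R X 4), bd 2 u) ∈ Lk R V A B p :=
  ⟨0, zero_mem _, by simp, u, In_mono (sdiff_subset_sdiff_right subset_union_left) _ hu, by
    rw [map_zero, zero_sub]
    exact neg_mem (In_mono (sdiff_subset_sdiff_right subset_union_right) _ hu), rfl⟩

theorem Lk_exists {V A B U : Set X} {p : X} (hA : IsClosed A) (hB : IsClosed B)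
    (hAB : A ∩ B ⊆ {p}) (hU : IsOpen U) (hp : p ∈ U) (hUV : U ⊆ V) {c : Ch R X 4}
    (hc : bd 3 c ∈ In R {p}ᶜ 3) :
    ∃ μ ∈ In R (U \ (A ∪ B)) 2, bd 1 μ = 0 ∧ (c, μ) ∈ Lk R V A B p := by
  obtain ⟨n, c₁, h1, c₂, h2, e⟩ := exists_SD_two hU (isOpen_compl_singleton (x := p))
    (c := c) (In_mono (B := U ∪ {p}ᶜ) (fun y _ => by by_cases h : y = p <;> simp [h, hp]) _
      (In_univ c)) (In_univ c)
  rw [univ_inter] at h1 h2
  have h4 : bd 3 c₁ ∈ In R {p}ᶜ 3 := by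
    rw [eq_sub_of_add_eq e.symm, map_sub, bd_SD]
    exact Submodule.sub_mem _ (SD_In n hc) (bd_In h2)
  obtain ⟨m, y₁, h5, y₂, h6, e'⟩ := exists_SD_two hA.isOpen_compl hB.isOpen_compl (c := bd 3 c₁)
    (In_mono (by rw [← compl_inter]; exact compl_subset_compl.2 hAB) _ h4) (bd_In h1)
  have h7 : bd 2 y₁ = -bd 2 y₂ := by
    rw [eq_neg_iff_add_eq_zero, ← map_add, ← e', bd_SD, bd_bd, map_zero]
  refine ⟨bd 2 y₁, In_mono (A := (U ∩ Aᶜ) ∩ (U ∩ Bᶜ))
    (fun y hy => And.intro hy.1.1 fun h => h.elim hy.1.2 hy.2.2) _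
    (In_inter (bd_In h5) (h7 ▸ neg_mem (bd_In h6))), bd_bd _ _, SD m 4 c₁,
    SD_In m (In_mono hUV _ h1), ?_, y₁, In_mono (inter_subset_inter_left _ hUV) _ h5, ?_, rfl⟩
  · have : c - SD m 4 c₁ = c₂ - (SD n 4 c - c) - (SD m 4 c₁ - c₁) := by rw [e]; abel
    rw [this]
    exact sub_mem (sub_mem (In_Br h2) (SD_sub_Br hc n)) (SD_sub_Br h4 m)
  · rw [bd_SD, e', add_sub_cancel_left]
    exact In_mono (inter_subset_inter_left _ hUV) _ h6

theorem Lk_inj {L : LEC X} (hE : Eff X) {x p : X} {V W A B : Set X} (hok : L.Ok x V W)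
    (hVW : V ⊆ W) (hA : IsPreconnected A) (hB : IsPreconnected B) (hpA : p ∈ A) (hpB : p ∈ B)
    {a b : X} (ha : a ∈ A) (hb : b ∈ B) (ha' : a ∉ W) (hb' : b ∉ W) {c : Ch R X 4}
    (h : (c, (0 : Ch R X 2)) ∈ Lk R V A B p) : c ∈ Br R {p} 4 := by
  obtain ⟨c₀, a1, a2, y, a3, a4, a5⟩ := h
  obtain ⟨d, hd, rfl⟩ := hok.fill (In_mono sdiff_subset _ a3) a5.symm
  have h1 := L.uc hE hA (In_mono (fun y hy => hy.2) _ a3) ha hpA
    (In_Br (In_mono (subset_compl_singleton_iff.2 ha') _ hd))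
  have h2 := L.uc hE hB (c := c₀ - d) (by rw [map_sub]; exact In_mono (fun y hy => hy.2) _ a4) hb
    hpB (In_Br (In_mono (subset_compl_singleton_iff.2 hb') _ (sub_mem (In_mono hVW _ a1) hd)))
  simpa using add_mem (add_mem a2 h2) h1

theorem exists_xi {R : Type} [Field R] {V A B : Set X} {p : X}
    (hinj : ∀ c, (c, (0 : Ch R X 2)) ∈ Lk R V A B p → c ∈ Br R {p} 4) {s a : Ch R X 4}
    (h : ∀ γ : R, a - γ • s ∉ Br R {p} 4) {μ : Ch R X 2} (hμ : (a, μ) ∈ Lk R V A B p) :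
    ∃ ξ : Ch R X 2 →ₗ[R] R, ξ μ ≠ 0 ∧ (∀ ν, (s, ν) ∈ Lk R V A B p → ξ ν = 0) ∧
      ∀ u ∈ In R (V \ (A ∪ B)) 3, ξ (bd 2 u) = 0 := by
  obtain ⟨ξ, h1, h2⟩ := Submodule.exists_le_ker_of_notMem (p := (Lk R V A B p ⊓
      (R ∙ s).comap (LinearMap.fst R _ _)).map (LinearMap.snd R _ _)) (v := μ) (by
    rintro ⟨⟨c, ν⟩, ⟨h1, h2⟩, rfl⟩
    obtain ⟨γ, rfl⟩ := Submodule.mem_span_singleton.1 h2
    exact h γ (hinj _ (by simpa using sub_mem hμ h1)))
  exact ⟨ξ, h1, fun ν hν => h2 ⟨_, ⟨hν, Submodule.mem_span_singleton_self s⟩, rfl⟩,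
    fun u hu => h2 ⟨_, ⟨Lk_bd hu, (R ∙ s).zero_mem⟩, rfl⟩⟩

/-- Chains in a thin tube around an arc with zero crossing number bound. -/
theorem LEC.tube [LocallyCompactSpace X] (L : LEC X) (a : C(ℝ, X)) (τ : C(X, ℝ))
    {s t₁ t₀ t₂ t : ℝ} (h1 : t₁ ≤ t₀) (h2 : t₀ ≤ t₂) (hτ : ∀ u ∈ Icc s t, τ (a u) = u)
    (hτ' : ∀ v, τ v ∈ Icc s t) {Z : Set X} (hZ : ∀ u ∈ Icc s t₁ ∪ Icc t₂ t, a u ∉ Z) {ε : ℝ}
    (hε : 0 < ε) : ∃ δ > 0, (∀ v ∈ thickening δ (a '' Icc s t), dist v (a (τ v)) < ε) ∧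
      ∀ z ∈ CS R (Sm (thickening δ (a '' Icc s t)) δ) 2, ∀ S : Set X, bd 1 z ∈ In R S 1 →
        (∀ v ∈ S, τ v ∉ Icc t₁ t₂) → thickening ε S ⊆ Zᶜ →
        ev (fun v => if t₀ < τ v then 1 else 0) (bd 1 z) = 0 →
        ∃ w ∈ In R (thickening (2 * ε) (a '' Icc s t)) 3, z - bd 2 w ∈ In R Zᶜ 2 := by
  have hA := (isCompact_Icc (a := s) (b := t)).image a.continuous
  have hst : s ≤ t := nonempty_Icc.1 ⟨_, hτ' (a s)⟩
  obtain ⟨ρ, hρ, hK⟩ := hA.exists_isCompact_cthickening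
  obtain ⟨δ₁, hδ₁, H⟩ := L.carrier (R := R) hK 2 hε
  obtain ⟨η, hη, ua⟩ := Metric.uniformContinuousOn_iff.1
    ((isCompact_Icc (a := s) (b := t)).uniformContinuousOn_of_continuous a.continuous.continuousOn)
    _ (half_pos (lt_min hδ₁ hε))
  obtain ⟨δ₂, hδ₂, ut⟩ := Metric.uniformContinuousOn_iff.1
    (hK.uniformContinuousOn_of_continuous τ.continuous.continuousOn) η hη
  set δ := min (min δ₁ ε / 2) (min (δ₂ / 2) ρ) with hδ
  have d0 : 0 < δ := lt_min (half_pos (lt_min hδ₁ hε)) (lt_min (half_pos hδ₂) hρ)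
  have d1 : δ ≤ min δ₁ ε / 2 := min_le_left _ _
  have d2 : δ ≤ δ₂ / 2 := (min_le_right _ _).trans (min_le_left _ _)
  have d3 : thickening δ (a '' Icc s t) ⊆ cthickening ρ (a '' Icc s t) :=
    thickening_subset_cthickening_of_le ((min_le_right _ _).trans (min_le_right _ _)) _
  have m1 := min_le_left δ₁ ε
  have m2 := min_le_right δ₁ ε
  have key : ∀ v ∈ thickening δ (a '' Icc s t), ∃ Q, Convex ℝ Q ∧ a '' Q ⊆ ball v (min δ₁ ε) ∧
      ∀ v' ∈ thickening δ (a '' Icc s t), dist v' v < δ → τ v' ∈ Q := by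
    intro v hv
    obtain ⟨_, ⟨u, hu, rfl⟩, hd⟩ := mem_thickening_iff.1 hv
    refine ⟨ball u η ∩ Icc s t, (convex_ball u η).inter (convex_Icc s t), ?_,
      fun v' hv' hd' => ⟨?_, hτ' _⟩⟩
    · rintro _ ⟨u', hu', rfl⟩
      have := ua u' hu'.2 u hu hu'.1
      have := dist_triangle_right (a u') v (a u)
      exact mem_ball.2 (by linarith)
    · have := dist_triangle v' v (a u)
      have := ut v' (d3 hv') (a u) (self_subset_cthickening _ ⟨u, hu, rfl⟩) (by linarith)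
      rwa [hτ u hu] at this
  let tv : ∀ k, Sx X k → Fin k → ℝ := fun k σ i => τ (vx σ i)
  let T : ∀ k, Ch R X k →ₗ[R] Ch R X k := fun k => (md (afs a)).comp (md (tv k))
  have htv : ∀ k (c : Ch R X (k + 1)), tb k (md (tv (k + 1)) c) = md (tv k) (bd k c) := by
    intro k c
    refine lin_ext ((tb k).comp (md (tv (k + 1)))) ((md (tv k)).comp (bd k)) (fun σ => ?_) c
    simp only [LinearMap.comp_apply, md_single, tb_single, bd_single, map_sum, map_smul]
    refine Finset.sum_congr rfl fun i _ => ?_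
    congr 2
    funext j
    simp only [tv, vx_res, Function.comp_apply]
  obtain ⟨hD1, hD2⟩ := H (Sm (thickening δ (a '' Icc s t)) δ) (low_Sm _ _)
    (fun B hB => ⟨hB.1.trans d3, (hB.mono (by linarith)).2⟩) (fun j => T j - LinearMap.id) (by
      refine LinearMap.ext fun c => lin_ext _ _ (fun σ => ?_) c
      simp only [T, LinearMap.sub_apply, LinearMap.comp_apply, LinearMap.id_apply, md_single]
      rw [Subsingleton.elim (afs _ _) σ, sub_self]
      rfl)
    (fun j hj σ hσ => by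
      simp only [T, LinearMap.sub_apply, LinearMap.comp_apply, LinearMap.id_apply, map_sub]
      rw [bd_afs, htv])
    (fun j hj σ hσ => by
      cases j with
      | zero => exact In_zero _ _
      | succ j =>
        refine sub_mem ?_
          (single_CS (P := (· ⊆ thickening δ₁ (range σ))) (self_subset_thickening hδ₁ _) _)
        simp only [T, LinearMap.comp_apply, md_single]
        obtain ⟨Q, q1, q2, q3⟩ := key _ (hσ.1 (vx_mem σ 0))
        exact single_CS (P := (· ⊆ thickening δ₁ (range σ))) ((range_afs a q1 fun i =>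
          q3 _ (hσ.1 (vx_mem σ i)) (hσ.2 _ (vx_mem σ i) _ (vx_mem σ 0))).trans
            (q2.trans ((ball_subset_ball m1).trans (ball_thick (vx_mem σ 0))))) _)
  refine ⟨δ, d0, fun v hv => ?_, fun z hz S hS hSτ hSZ h0 => ?_⟩
  · obtain ⟨Q, -, q2, q3⟩ := key v hv
    exact (mem_ball'.1 (q2 ⟨_, q3 v hv (by rwa [dist_self]), rfl⟩)).trans_le m2
  have hcone : ∀ k (c : Ch R X k), md (afs a) (tc s k (md (tv k) c)) ∈ In R (a '' Icc s t) (k + 1) :=
    fun k c => by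
    have := CS_lin ((md (afs a)).comp ((tc s k).comp (md (tv k)))) (In R (a '' Icc s t) (k + 1))
      (fun σ _ => by
        simp only [LinearMap.comp_apply, md_single, tc_single]
        exact single_CS (P := (· ⊆ _)) (range_afs a (convex_Icc s t) fun i =>
          Fin.cases (left_mem_Icc.2 hst) (fun i => hτ' _) i) _) (In_univ c)
    exact this
  have hG := CS_lin ((md (afs a)).comp ((tc s 1).comp (md (tv 1))) -
    (ev fun v => if t₀ < τ v then 1 else 0).smulRight (single (afs a ![s, t]) 1))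
    (Bd R (a '' Icc s t) Z 2) (fun σ hσ => by
      have hv := hSτ _ (hσ (vx_mem σ 0))
      have e : Fin.cons s (tv 1 σ) = ![s, τ (vx σ 0)] := by funext i; fin_cases i <;> rfl
      simp only [LinearMap.sub_apply, LinearMap.comp_apply, md_single, tc_single,
        LinearMap.smulRight_apply, ev, lx_single, e]
      have hoff : ∀ u v, u ≤ v → Icc u v ⊆ Icc s t → Icc u v ⊆ Icc s t₁ ∪ Icc t₂ t →
          single (afs a ![u, v]) (1 : R) ∈ Bd R (a '' Icc s t) Z 2 := fun u v h h' h'' =>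
        In_Bd (single_CS (P := (· ⊆ _)) ((range_afs a (convex_Icc u v) (by
          simp [Fin.forall_fin_two, h])).trans (by
            rintro _ ⟨w, hw, rfl⟩; exact ⟨⟨w, h' hw, rfl⟩, hZ w (h'' hw)⟩)) _)
      have ht := hτ' (vx σ 0)
      split_ifs with h
      · have h3 : t₂ ≤ τ (vx σ 0) := by
          by_contra h3
          exact hv ⟨h1.trans h.le, (not_le.1 h3).le⟩
        have h4 := sub_mem (bd_Bd (K := Z) (single_CS (P := (· ⊆ a '' Icc s t))
          (range_afs a (w := ![s, τ (vx σ 0), t]) (convex_Icc s t) (by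
            intro i; fin_cases i <;> simp [hst, ht.1, ht.2])) (1 : R)))
          (hoff _ t ht.2 (Icc_subset_Icc_left ht.1) fun w hw => Or.inr ⟨h3.trans hw.1, hw.2⟩)
        rw [bd_single, Fin.sum_univ_three, res_afs, res_afs, res_afs] at h4
        have e0 : ![s, τ (vx σ 0), t] ∘ Fin.succAbove 0 = ![τ (vx σ 0), t] := by
          funext i; fin_cases i <;> rfl
        have e1 : ![s, τ (vx σ 0), t] ∘ Fin.succAbove 1 = ![s, t] := by
          funext i; fin_cases i <;> rfl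
        have e2 : ![s, τ (vx σ 0), t] ∘ Fin.succAbove 2 = ![s, τ (vx σ 0)] := by
          funext i; fin_cases i <;> rfl
        rw [e0, e1, e2] at h4
        simp only [Fin.val_zero, Fin.val_one, Fin.val_two, pow_zero, pow_one, neg_one_sq, one_smul,
          neg_smul] at h4 ⊢
        rwa [add_assoc, add_sub_cancel_left, neg_add_eq_sub] at h4
      · have h3 : τ (vx σ 0) ≤ t₁ := by
          by_contra h3
          exact hv ⟨(not_le.1 h3).le, (not_lt.1 h).trans h2⟩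
        rw [zero_smul, sub_zero]
        exact hoff s _ ht.1 (Icc_subset_Icc_right ht.2) fun w hw => Or.inl ⟨hw.1, hw.2.trans h3⟩) hS
  rw [LinearMap.sub_apply, LinearMap.smulRight_apply, h0, zero_smul, sub_zero] at hG
  obtain ⟨d, hd, e, he, E⟩ := mem_Bd.1 hG
  have hA' := self_subset_thickening (δ := 2 * ε) (by linarith) (a '' Icc s t)
  refine ⟨md (afs a) (tc s 2 (md (tv 2) z)) + d - L.cD (fun j => T j - LinearMap.id) 2 z,
    sub_mem (In_mono hA' _ (add_mem (hcone 2 z) hd)) (In_mono ((thickening_thickening_subset _ _ _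
      ).trans (thickening_mono (by linarith) _)) _ (thick_In _ (hD2 2 le_rfl) hz
        (CS_mono (fun _ h => h.1) _ hz))), ?_⟩
  have := sub_mem (In_mono (fun y hy => hy.2) _ he) (In_mono hSZ _
    (thick_In _ (hD2 1 one_le_two) (bd_CS (low_Sm _ _) hz) hS))
  rw [map_sub, map_add, hD1 1 one_lt_two z hz, bd_afs, tb_tc, htv, map_sub,
    eq_sub_of_add_eq E.symm]
  simp only [T, LinearMap.sub_apply, LinearMap.comp_apply, LinearMap.id_apply] at this ⊢
  refine (congrArg (· ∈ In R Zᶜ 2) ?_).mp this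
  abel

end Pool.Agent.Lib.MP_77749b_gt
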