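import Mathlib

namespace Pool.Agent.Lib.MP_77749b_gt

open Set Finsupp

variable {R : Type*} [CommRing R]

/-- A linear map on finitely supported functions sends a supported chain into a submodule as soon
as it does so on generators. -/
theorem lin_mem {α N : Type*} [AddCommGroup N] [Module R N] (f : (α →₀ R) →ₗ[R] N)
    (S : Submodule R N) {P : Set α} (h : ∀ a ∈ P, f (single a 1) ∈ S) {c : α →₀ R}
    (hc : c ∈ supported R R P) : f c ∈ S := by
  rw [supported_eq_span_single] at hc
  refine Submodule.span_induction (p := fun c _ => f c ∈ S) ?_ ?_ ?_ ?_ hc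
  · rintro _ ⟨a, ha, rfl⟩
    exact h a ha
  · simp
  · intro x y _ _ hx hy
    rw [map_add]; exact S.add_mem hx hy
  · intro r x _ hx
    rw [map_smul]; exact S.smul_mem r hx

theorem lin_eq {α N : Type*} [AddCommGroup N] [Module R N] (f g : (α →₀ R) →ₗ[R] N)
    {P : Set α} (h : ∀ a ∈ P, f (single a 1) = g (single a 1)) {c : α →₀ R}
    (hc : c ∈ supported R R P) : f c = g c := by
  have := lin_mem (f - g) ⊥ (P := P) (fun a ha => by simp [h a ha]) hc
  simpa [sub_eq_zero] using this

theorem lin_ext {α N : Type*} [AddCommGroup N] [Module R N] (f g : (α →₀ R) →ₗ[R] N)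
    (h : ∀ a, f (single a 1) = g (single a 1)) (c : α →₀ R) : f c = g c :=
  lin_eq f g (P := univ) (fun a _ => h a) (by simp)

theorem single_mem {α : Type*} {P : Set α} {a : α} (ha : a ∈ P) (r : R) :
    single a r ∈ supported R R P := single_mem_supported R r ha

theorem mem_supp_self {α : Type*} (c : α →₀ R) : c ∈ supported R R (c.support : Set α) :=
  (mem_supported R c).2 subset_rfl

/-- The linear extension of a function on generators. -/
noncomputable def lx {α N : Type*} [AddCommGroup N] [Module R N] (f : α → N) :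
    (α →₀ R) →ₗ[R] N := linearCombination R f

@[simp] theorem lx_single {α N : Type*} [AddCommGroup N] [Module R N] (f : α → N) (a : α) :
    lx (R := R) f (single a 1) = f a := by simp [lx]

/-- Push forward of generators. -/
noncomputable abbrev md {α β : Type*} (f : α → β) : (α →₀ R) →ₗ[R] (β →₀ R) := lmapDomain R R f

theorem md_single {α β : Type*} (f : α → β) (a : α) (r : R) :
    md f (single a r) = single (f a) r := by simp

theorem md_md {α β γ : Type*} (f : α → β) (g : β → γ) (c : α →₀ R) :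
    md g (md f c) = md (g ∘ f) c := by simp [mapDomain_comp]

theorem md_mem {α β : Type*} (f : α → β) {P : Set α} {Q : Set β} (h : ∀ a ∈ P, f a ∈ Q)
    {c : α →₀ R} (hc : c ∈ supported R R P) : md f c ∈ supported R R Q :=
  lin_mem _ _ (fun a ha => by rw [md_single]; exact single_mem (h a ha) _) hc

/-- Chains of tuples with `k` entries. -/
abbrev Tp (R : Type*) [CommRing R] (α : Type*) (k : ℕ) := (Fin k → α) →₀ R

variable {α β : Type*}

/-- Boundary of tuples. -/
noncomputable def tb (k : ℕ) : Tp R α (k + 1) →ₗ[R] Tp R α k :=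
  ∑ i : Fin (k + 1), (-1 : R) ^ (i : ℕ) • md (fun v => v ∘ i.succAbove)

theorem tb_single {k : ℕ} (v : Fin (k + 1) → α) :
    tb k (single v (1 : R)) = ∑ i : Fin (k + 1), (-1 : R) ^ (i : ℕ) • single (v ∘ i.succAbove) 1 := by
  simp [tb, LinearMap.sum_apply]

/-- Cone of tuples. -/
noncomputable def tc (a : α) (k : ℕ) : Tp R α k →ₗ[R] Tp R α (k + 1) :=
  md (fun v => Fin.cons a v)

theorem tc_single (a : α) {k : ℕ} (v : Fin k → α) :
    tc a k (single v (1 : R)) = single (Fin.cons a v) 1 := md_single _ _ _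

theorem cons_comp_zero (a : α) {k : ℕ} (v : Fin k → α) :
    (Fin.cons a v : Fin (k + 1) → α) ∘ (0 : Fin (k + 1)).succAbove = v := by
  funext j; simp

theorem cons_comp_succ (a : α) {k : ℕ} (v : Fin (k + 1) → α) (i : Fin (k + 1)) :
    (Fin.cons a v : Fin (k + 2) → α) ∘ i.succ.succAbove = Fin.cons a (v ∘ i.succAbove) := by
  funext j
  refine Fin.cases ?_ (fun j => ?_) j
  · simp
  · simp

theorem tb_tc_zero (a : α) (c : Tp R α 0) : tb 0 (tc a 0 c) = c := by
  refine lin_ext ((tb 0).comp (tc a 0)) LinearMap.id (fun v => ?_) c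
  simp only [LinearMap.comp_apply, tc_single, tb_single, LinearMap.id_apply]
  rw [Fin.sum_univ_succ]
  simp [cons_comp_zero]

theorem tb_tc (a : α) {k : ℕ} (c : Tp R α (k + 1)) :
    tb (k + 1) (tc a (k + 1) c) = c - tc a k (tb k c) := by
  refine lin_ext ((tb (k + 1)).comp (tc a (k + 1)))
    (LinearMap.id - (tc a k).comp (tb k)) (fun v => ?_) c
  simp only [LinearMap.comp_apply, tc_single, tb_single, LinearMap.id_apply, LinearMap.sub_apply,
    map_sum, map_smul]
  rw [Fin.sum_univ_succ, cons_comp_zero, sub_eq_add_neg, ← Finset.sum_neg_distrib]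
  congr 1
  · simp
  · refine Finset.sum_congr rfl fun i _ => ?_
    rw [cons_comp_succ, Fin.val_succ, pow_succ, mul_neg_one, neg_smul]

theorem tb_tb : ∀ (k : ℕ) (c : Tp R α (k + 2)), tb k (tb (k + 1) c) = 0
  | 0, c => by
    refine lin_ext ((tb 0).comp (tb 1)) 0 (fun v => ?_) c
    rw [← Fin.cons_self_tail v, ← tc_single, LinearMap.comp_apply, tb_tc, map_sub, tb_tc_zero]
    simp
  | k + 1, c => by
    refine lin_ext ((tb (k + 1)).comp (tb (k + 2))) 0 (fun v => ?_) c
    rw [← Fin.cons_self_tail v, ← tc_single, LinearMap.comp_apply, tb_tc, map_sub, tb_tc, tb_tb k]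
    simp

theorem tb_mem {k : ℕ} {P : Set (Fin (k + 1) → α)} {Q : Set (Fin k → α)}
    (h : ∀ v ∈ P, ∀ i : Fin (k + 1), v ∘ i.succAbove ∈ Q) {c : Tp R α (k + 1)}
    (hc : c ∈ supported R R P) : tb k c ∈ supported R R Q :=
  lin_mem _ _ (fun v hv => by
    rw [tb_single]
    exact Submodule.sum_mem _ fun i _ => Submodule.smul_mem _ _ (single_mem (h v hv i) _)) hc

/-- Postcomposition of tuples with a map. -/
noncomputable def tm (f : α → β) (k : ℕ) : Tp R α k →ₗ[R] Tp R β k := md (fun v => f ∘ v)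

theorem tm_single (f : α → β) {k : ℕ} (v : Fin k → α) :
    tm f k (single v (1 : R)) = single (f ∘ v) 1 := md_single _ _ _

theorem tm_tb (f : α → β) {k : ℕ} (c : Tp R α (k + 1)) : tm f k (tb k c) = tb k (tm f (k + 1) c) := by
  refine lin_ext ((tm f k).comp (tb k)) ((tb k).comp (tm f (k + 1))) (fun v => ?_) c
  simp only [LinearMap.comp_apply, tm_single, tb_single, map_sum, map_smul]
  rfl

theorem tm_tc (f : α → β) (a : α) {k : ℕ} (c : Tp R α k) :
    tm f (k + 1) (tc a k c) = tc (f a) k (tm f k c) := by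
  refine lin_ext ((tm f (k + 1)).comp (tc a k)) ((tc (f a) k).comp (tm f k)) (fun v => ?_) c
  simp only [LinearMap.comp_apply, tm_single, tc_single]
  congr 1
  funext j
  refine Fin.cases rfl (fun j => rfl) j

/-- One subdivision step, for a choice `b` of centres. -/
noncomputable def ts (b : ∀ k, (Fin (k + 1) → α) → α) : ∀ k, Tp R α k →ₗ[R] Tp R α k
  | 0 => LinearMap.id
  | k + 1 => lx fun v => tc (b k v) k (ts b k (tb k (single v 1)))

/-- The homotopy between one subdivision step and the identity. -/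
noncomputable def th (b : ∀ k, (Fin (k + 1) → α) → α) : ∀ k, Tp R α k →ₗ[R] Tp R α (k + 1)
  | 0 => 0
  | k + 1 => lx fun v => tc (b k v) (k + 1)
      (ts b (k + 1) (single v 1) - single v 1 - th b k (tb k (single v 1)))

variable (b : ∀ k, (Fin (k + 1) → α) → α)

theorem ts_single {k : ℕ} (v : Fin (k + 1) → α) :
    ts b (k + 1) (single v (1 : R)) = tc (b k v) k (ts b k (tb k (single v 1))) := by
  rw [ts, lx_single]

theorem th_single {k : ℕ} (v : Fin (k + 1) → α) :
    th b (k + 1) (single v (1 : R)) = tc (b k v) (k + 1)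
      (ts b (k + 1) (single v 1) - single v 1 - th b k (tb k (single v 1))) := by
  rw [th, lx_single]

theorem tb_ts : ∀ (k : ℕ) (c : Tp R α (k + 1)), tb k (ts b (k + 1) c) = ts b k (tb k c)
  | 0, c => by
    refine lin_ext ((tb 0).comp (ts b 1)) ((ts b 0).comp (tb 0)) (fun v => ?_) c
    simp only [LinearMap.comp_apply, ts_single, tb_tc_zero]
  | k + 1, c => by
    refine lin_ext ((tb (k + 1)).comp (ts b (k + 2))) ((ts b (k + 1)).comp (tb (k + 1)))
      (fun v => ?_) c
    simp only [LinearMap.comp_apply]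
    rw [ts_single, tb_tc, tb_ts k, tb_tb]
    simp

theorem tb_th : ∀ (k : ℕ) (c : Tp R α (k + 1)),
    tb (k + 1) (th b (k + 1) c) = ts b (k + 1) c - c - th b k (tb k c)
  | 0, c => by
    refine lin_ext ((tb 1).comp (th b 1)) (ts b 1 - LinearMap.id - (th b 0).comp (tb 0))
      (fun v => ?_) c
    simp only [LinearMap.comp_apply, LinearMap.sub_apply, LinearMap.id_apply]
    rw [th_single, tb_tc]
    simp only [map_sub]
    rw [tb_ts]
    simp [ts, th]
  | k + 1, c => by
    refine lin_ext ((tb (k + 2)).comp (th b (k + 2)))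
      (ts b (k + 2) - LinearMap.id - (th b (k + 1)).comp (tb (k + 1))) (fun v => ?_) c
    simp only [LinearMap.comp_apply, LinearMap.sub_apply, LinearMap.id_apply]
    rw [th_single, tb_tc]
    simp only [map_sub]
    rw [tb_ts, tb_th k, tb_tb]
    simp

variable {b} {b' : ∀ k, (Fin (k + 1) → β) → β} {f : α → β}

theorem tm_ts (hf : ∀ k v, f (b k v) = b' k (f ∘ v)) :
    ∀ (k : ℕ) (c : Tp R α k), tm f k (ts b k c) = ts b' k (tm f k c)
  | 0, c => rfl
  | k + 1, c => by
    refine lin_ext ((tm f (k + 1)).comp (ts b (k + 1))) ((ts b' (k + 1)).comp (tm f (k + 1)))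
      (fun v => ?_) c
    simp only [LinearMap.comp_apply]
    rw [ts_single, tm_single, ts_single, tm_tc, tm_ts hf k, tm_tb, tm_single, hf]

theorem tm_th (hf : ∀ k v, f (b k v) = b' k (f ∘ v)) :
    ∀ (k : ℕ) (c : Tp R α k), tm f (k + 1) (th b k c) = th b' k (tm f k c)
  | 0, c => by simp [th]
  | k + 1, c => by
    refine lin_ext ((tm f (k + 2)).comp (th b (k + 1))) ((th b' (k + 1)).comp (tm f (k + 1)))
      (fun v => ?_) c
    simp only [LinearMap.comp_apply]
    rw [th_single, tm_single, th_single, tm_tc]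
    simp only [map_sub]
    rw [tm_ts hf, tm_th hf k, tm_tb, tm_single, hf]

variable (b)

/-- Iterated subdivision. -/
noncomputable def tsi (k : ℕ) : ℕ → Tp R α k →ₗ[R] Tp R α k
  | 0 => LinearMap.id
  | m + 1 => (ts b k).comp (tsi k m)

/-- The homotopy between iterated subdivision and the identity. -/
noncomputable def thi (k : ℕ) : ℕ → Tp R α k →ₗ[R] Tp R α (k + 1)
  | 0 => 0
  | m + 1 => thi k m + (th b k).comp (tsi b k m)

theorem tb_tsi (k : ℕ) (c : Tp R α (k + 1)) :
    ∀ m, tb k (tsi b (k + 1) m c) = tsi b k m (tb k c)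
  | 0 => rfl
  | m + 1 => by
    simp only [tsi, LinearMap.comp_apply]
    rw [tb_ts, tb_tsi k c m]

theorem tb_thi (k : ℕ) (c : Tp R α (k + 1)) :
    ∀ m, tb (k + 1) (thi b (k + 1) m c) = tsi b (k + 1) m c - c - thi b k m (tb k c)
  | 0 => by simp [thi, tsi]
  | m + 1 => by
    simp only [thi, tsi, LinearMap.comp_apply, LinearMap.add_apply, map_add]
    rw [tb_thi k c m, tb_th, tb_tsi]
    abel

variable {b}

theorem tm_tsi (hf : ∀ k v, f (b k v) = b' k (f ∘ v)) (k : ℕ) (c : Tp R α k) :
    ∀ m, tm f k (tsi b k m c) = tsi b' k m (tm f k c)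
  | 0 => rfl
  | m + 1 => by
    simp only [tsi, LinearMap.comp_apply]
    rw [tm_ts hf, tm_tsi hf k c m]

theorem tm_thi (hf : ∀ k v, f (b k v) = b' k (f ∘ v)) (k : ℕ) (c : Tp R α k) :
    ∀ m, tm f (k + 1) (thi b k m c) = thi b' k m (tm f k c)
  | 0 => by simp [thi]
  | m + 1 => by
    simp only [thi, LinearMap.comp_apply, LinearMap.add_apply, map_add]
    rw [tm_thi hf k c m, tm_th hf, tm_tsi hf]

end Pool.Agent.Lib.MP_77749b_gt
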